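import Pool.Agent.H273R2.Bent.Basic

set_option autoImplicit false

open Finset Pool.Agent.H273R2.Bent

namespace Pool.Agent.R659.BentAffine

/-- The starting construction of homogeneous bent functions of degree `2^a+1`, together with an affine
derivative. -/
theorem exists_bent_affine (a : ℕ) : ∃ N : ℕ, ∀ m : ℕ, N < m → ∀ _ : NeZero m,
    ∃ S : Finset (Finset (ZMod m ⊕ ZMod m)), (∀ s ∈ S, s.card = 2 ^ a + 1) ∧
      (∀ c : ZMod m ⊕ ZMod m → ZMod 2,
        (∑ x : ZMod m ⊕ ZMod m → ZMod 2,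
          chi ((∑ s ∈ S, ∏ i ∈ s, x i) + ∑ i, c i * x i)) ^ 2 = 2 ^ (2 * m)) ∧
      ∃ u : ZMod m ⊕ ZMod m → ZMod 2, u ≠ 0 ∧
        ∃ ℓ : (ZMod m ⊕ ZMod m → ZMod 2) →ₗ[ZMod 2] ZMod 2, ∀ x,
          (∑ s ∈ S, ∏ i ∈ s, (x + u) i) + (∑ s ∈ S, ∏ i ∈ s, x i) = ℓ x := by
  obtain ⟨w, φ, hφ1, hφ2⟩ := gadget a
  refine ⟨2 * 3 ^ w, fun m hm _ => ?_⟩
  have hφc : ∀ (v : Fin w → ZMod 2) (t : ZMod 2), φ (fun j => v j + t) = φ v + t := by
    intro v t
    have h2 : ∀ a : ZMod 2, a = 0 ∨ a = 1 := by decide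
    rcases h2 t with rfl | rfl
    · simp
    · exact hφ1 v
  let F : (ZMod m ⊕ ZMod m → ZMod 2) → ZMod 2 := fun x =>
    ∑ i : ZMod m, dd m w x i * φ (fun j => dd m w x (i + del m w j) + x (Sum.inl i))
  have hF : Hm univ (2 ^ a + 1) F := by
    refine Hm.sum univ fun i _ => ?_
    have h1 := hφ2 (ZMod m ⊕ ZMod m) (fun j x => dd m w x (i + del m w j) + x (Sum.inl i))
      (fun j => A1 m w i j) (fun j => e_hm m w i j) (fun j j' h => A1_disj hm i j j' h)
    have h3 := (dd_hm m w i).mul h1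
      ((disjoint_biUnion_right _ _ _).2 fun j _ => A0_disj hm i j)
    rw [add_comm 1] at h3
    exact h3.mono (subset_univ _)
  obtain ⟨S, hS, hFS⟩ := hF.exists_finset
  let h : (ZMod m → ZMod 2) → ZMod 2 := fun d => ∑ i, d i * φ (fun j => d (i + del m w j))
  let L : (ZMod m → ZMod 2) →ₗ[ZMod 2] (ZMod m → ZMod 2) :=
    LinearMap.pi fun i => ∑ j : Fin w, LinearMap.proj (i - del m w j)
  have hdd : ∀ x : ZMod m ⊕ ZMod m → ZMod 2, ∀ i,
      dd m w x i = ((fun i => x (Sum.inr i)) + L (fun i => x (Sum.inl i))) i := by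
    intro x i
    simp [dd, L]
  have hFh : ∀ x, F x = h ((fun i => x (Sum.inr i)) + L (fun i => x (Sum.inl i))) +
      ∑ i, x (Sum.inl i) * ((fun i => x (Sum.inr i)) + L (fun i => x (Sum.inl i))) i := by
    intro x
    simp only [F, h, ← hdd, hφc]
    rw [← sum_add_distrib]
    exact sum_congr rfl fun i _ => by ring
  refine ⟨S, hS, fun c => ?_, ?_⟩
  · have hmm := mm h L (fun i => c (Sum.inl i)) (fun i => c (Sum.inr i))
    rw [ZMod.card] at hmm
    rw [← hmm]
    congr 1
    refine Fintype.sum_equiv (Equiv.sumArrowEquivProdArrow _ _ _) _ _ fun x => ?_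
    rw [← hFS, hFh, Fintype.sum_sum_type]
    rfl
  · -- the direction `z → z + e_0`, `d` fixed
    let e0 : ZMod m → ZMod 2 := Pi.single 0 1
    let u : ZMod m ⊕ ZMod m → ZMod 2 := Sum.elim e0 (L e0)
    have hu1 : (fun i => u (Sum.inl i)) = e0 := rfl
    have hu2 : (fun i => u (Sum.inr i)) = L e0 := rfl
    let ℓ : (ZMod m ⊕ ZMod m → ZMod 2) →ₗ[ZMod 2] ZMod 2 :=
      LinearMap.proj (Sum.inr 0) + ((LinearMap.proj 0).comp L).comp
        (LinearMap.funLeft (ZMod 2) (ZMod 2) Sum.inl)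
    refine ⟨u, ?_, ℓ, fun x => ?_⟩
    · intro h0
      have := congrFun h0 (Sum.inl 0)
      simp [u, e0] at this
    · rw [← hFS, ← hFS, hFh, hFh]
      have h2 : ∀ v : ZMod m → ZMod 2, v + v = 0 := by
        intro v
        ext i
        have : ∀ a : ZMod 2, a + a = 0 := by decide
        exact this _
      have e1 : (fun i => (x + u) (Sum.inr i)) + L (fun i => (x + u) (Sum.inl i)) =
          (fun i => x (Sum.inr i)) + L (fun i => x (Sum.inl i)) := by
        have e2 : (fun i => (x + u) (Sum.inr i)) = (fun i => x (Sum.inr i)) + L e0 := rfl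
        have e3 : (fun i => (x + u) (Sum.inl i)) = (fun i => x (Sum.inl i)) + e0 := rfl
        rw [e2, e3, map_add]
        have := h2 (L e0)
        calc (fun i => x (Sum.inr i)) + L e0 + (L (fun i => x (Sum.inl i)) + L e0)
            = (fun i => x (Sum.inr i)) + L (fun i => x (Sum.inl i)) + (L e0 + L e0) := by abel
          _ = _ := by rw [this, add_zero]
      rw [e1]
      set d := (fun i => x (Sum.inr i)) + L (fun i => x (Sum.inl i)) with hd
      have e4 : ∑ i, (x + u) (Sum.inl i) * d i = (∑ i, x (Sum.inl i) * d i) + d 0 := by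
        have e5 : ∀ i, (x + u) (Sum.inl i) * d i = x (Sum.inl i) * d i + e0 i * d i := by
          intro i
          show (x (Sum.inl i) + e0 i) * d i = _
          ring
        simp only [e5]
        rw [sum_add_distrib]
        congr 1
        simp [e0, Pi.single_apply]
      rw [e4]
      have e6 : ℓ x = d 0 := rfl
      rw [e6]
      have h3 : ∀ a : ZMod 2, a + a = 0 := by decide
      have h4 := h3 (h d)
      have h5 := h3 (∑ i, x (Sum.inl i) * d i)
      linear_combination h4 + h5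

end Pool.Agent.R659.BentAffine
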