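import Mathlib
import Pool.Agent.Helper247.Univ

/-!
A two-letter block queue system over `Fin N` with an undecidable reachability problem.
-/

set_option autoImplicit false

namespace Pool.Agent.R659.QFam

open Turing Relation Pool.Agent.Helper247 Pool.Agent.Helper247.Queue

theorem prod_head_ne {Γ Λ : Type} [Inhabited Γ] [Inhabited Λ] (M : TM0.Machine Γ Λ)
    (y : Queue.Sym Γ Λ) : (Queue.prod M .kill y).head? ≠ some y := by
  rcases y with b | ⟨r, b⟩ | _ | _
  · simp [Queue.prod]
  · intro h
    simp only [Queue.prod] at h
    split at h <;> simp at h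
  · simp [Queue.prod]
  · simp [Queue.prod]

/-- transport of a queue system -/
def tp {S T : Type} (P : S → S → List S) (e : S ≃ T) (x y : T) : List T :=
  (P (e.symm x) (e.symm y)).map e

theorem qstep_map {S T : Type} (P : S → S → List S) (e : S ≃ T) {a b : List S}
    (h : QStep P a b) : QStep (tp P e) (a.map e) (b.map e) := by
  cases h with
  | mk x y t =>
    have := QStep.mk (P := tp P e) (e x) (e y) (t.map e)
    simpa [tp] using this

theorem qreach_map {S T : Type} (P : S → S → List S) (e : S ≃ T) {a b : List S}
    (h : QReach P a b) : QReach (tp P e) (a.map e) (b.map e) := by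
  induction h with
  | refl => exact ReflTransGen.refl
  | tail _ h ih => exact ih.tail (qstep_map P e h)

theorem tp_symm {S T : Type} (P : S → S → List S) (e : S ≃ T) : tp (tp P e) e.symm = P := by
  funext x y
  simp [tp]

theorem qreach_iff {S T : Type} (P : S → S → List S) (e : S ≃ T) (a b : List S) :
    QReach (tp P e) (a.map e) (b.map e) ↔ QReach P a b := by
  constructor
  · intro h
    have := qreach_map (tp P e) e.symm h
    rw [tp_symm] at this
    simpa using this
  · exact qreach_map P e

theorem digits {β : Type} [Primcodable β] (F : PartrecToTM2.Γ' → β) :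
    Computable (fun n : ℕ => (PartrecToTM2.trNat n).map F) := by
  let κ : PartrecToTM2.Γ' → ℕ := fun a => match a with
    | .consₗ => 0
    | .cons => 1
    | .bit0 => 2
    | .bit1 => 3
  let g : ℕ → β := fun k => if k = 0 then F .consₗ else if k = 1 then F .cons else
    if k = 2 then F .bit0 else F .bit1
  have hg : Primrec g := by
    refine Primrec.ite (PrimrecRel.comp Primrec.eq Primrec.id (Primrec.const 0))
      (Primrec.const _) ?_
    refine Primrec.ite (PrimrecRel.comp Primrec.eq Primrec.id (Primrec.const 1))
      (Primrec.const _) ?_
    exact Primrec.ite (PrimrecRel.comp Primrec.eq Primrec.id (Primrec.const 2))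
      (Primrec.const _) (Primrec.const _)
  have h := (Primrec.list_map (f := fun l : List ℕ => l) (g := fun _ k => g k) Primrec.id
    (hg.comp Primrec.snd).to₂).to_comp.comp (Univ.digits_computable κ)
  refine h.of_eq ?_
  intro n
  simp only [List.map_map]
  apply List.map_congr_left
  intro a _
  cases a <;> rfl

theorem exists_family : ∃ (N : ℕ) (P : Fin N → Fin N → List (Fin N)) (K : Fin N)
    (w : ℕ → List (Fin N)), Computable w ∧
    (∀ x y, 2 ≤ (P x y).length ∨ P x y = [K]) ∧ (∀ y, (P K y).head? ≠ some y) ∧
    (∀ n, 2 ≤ (w n).length) ∧ ¬ ComputablePred (fun n => QReach P (w n) [K]) := by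
  classical
  obtain ⟨Λ, i1, i2, M, hM⟩ := Univ.exists_machine
  let S := Queue.Sym (TM2to1.Γ' PartrecToTM2.K' (fun _ => PartrecToTM2.Γ')) Λ
  have fK : Finite PartrecToTM2.K' := by
    refine Finite.of_injective (fun k : PartrecToTM2.K' => match k with
      | .main => (0 : Fin 4)
      | .rev => 1
      | .aux => 2
      | .stack => 3) ?_
    intro a b h
    cases a <;> cases b <;> simp_all
  have fG : Finite (TM2to1.Γ' PartrecToTM2.K' (fun _ => PartrecToTM2.Γ')) :=
    inferInstanceAs (Finite (Bool × (PartrecToTM2.K' → Option PartrecToTM2.Γ')))
  have fS : Finite S := inferInstanceAs (Finite (Queue.Sym _ _))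
  let _ : Fintype S := Fintype.ofFinite S
  let e := Fintype.equivFin S
  let P : S → S → List S := Queue.prod M
  have hP1 : ∀ x y, 2 ≤ (P x y).length ∨ P x y = [Queue.Sym.kill] := prod_length M
  have hP2 : ∀ y, (P Queue.Sym.kill y).head? ≠ some y := prod_head_ne M
  let tape : ℕ → List (TM2to1.Γ' PartrecToTM2.K' (fun _ => PartrecToTM2.Γ')) := fun n =>
    Univ.sym true .cons :: (PartrecToTM2.trNat n).reverse.map (Univ.sym false)
  let w0 : ℕ → List S := fun n => initWord (tape n)
  have hw0 : ∀ n, 2 ≤ (w0 n).length := fun n => initWord_length _
  refine ⟨Fintype.card S, tp P e, e Queue.Sym.kill, fun n => (w0 n).map e, ?_, ?_, ?_, ?_, ?_⟩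
  · have hd := digits (fun a => e (Queue.Sym.cell (Univ.sym false a)))
    have : (fun n => (w0 n).map e) = fun n =>
        (if (((PartrecToTM2.trNat n).map
            (fun a => e (Queue.Sym.cell (Univ.sym false a)))).length + 1) % 2 = 0 then
          [e Queue.Sym.mark, e (Queue.Sym.head default (Univ.sym true .cons))]
        else [e Queue.Sym.mark, e (Queue.Sym.cell default),
          e (Queue.Sym.head default (Univ.sym true .cons))]) ++
        ((PartrecToTM2.trNat n).map
          (fun a => e (Queue.Sym.cell (Univ.sym false a)))).reverse := by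
      funext n
      simp only [w0, tape, initWord, List.length_cons, List.length_map, List.length_reverse]
      split_ifs <;> simp [Function.comp_def]
    rw [this]
    have hlen := Computable.list_length.comp hd
    have hmod : Computable (fun n : ℕ => ((((PartrecToTM2.trNat n).map
            (fun a => e (Queue.Sym.cell (Univ.sym false a)))).length + 1) % 2)) :=
      (Primrec.nat_mod.comp (Primrec.succ.comp Primrec.id) (Primrec.const 2)).to_comp.comp hlen
    have hite : Computable (fun n : ℕ => (if (((PartrecToTM2.trNat n).map
            (fun a => e (Queue.Sym.cell (Univ.sym false a)))).length + 1) % 2 = 0 then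
          [e Queue.Sym.mark, e (Queue.Sym.head default (Univ.sym true .cons))]
        else [e Queue.Sym.mark, e (Queue.Sym.cell default),
          e (Queue.Sym.head default (Univ.sym true .cons))])) := by
      have hp : Primrec (fun m : ℕ => if m = 0 then
          [e Queue.Sym.mark, e (Queue.Sym.head default (Univ.sym true .cons))]
        else [e Queue.Sym.mark, e (Queue.Sym.cell default),
          e (Queue.Sym.head default (Univ.sym true .cons))]) :=
        Primrec.ite (PrimrecRel.comp Primrec.eq Primrec.id (Primrec.const 0))
          (Primrec.const _) (Primrec.const _)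
      exact hp.to_comp.comp hmod
    exact Computable.list_append.comp hite (Computable.list_reverse.comp hd)
  · intro x y
    rcases hP1 (e.symm x) (e.symm y) with h | h
    · left; simpa [tp] using h
    · right; simp [tp, h]
  · intro y h
    apply hP2 (e.symm y)
    simp only [tp, Equiv.symm_apply_apply, List.head?_map, Option.map_eq_some_iff] at h
    obtain ⟨a, ha, hay⟩ := h
    rw [ha, ← hay]
    simp
  · intro n
    simpa using hw0 n
  · intro h
    apply Univ.u_not_computable
    refine ComputablePred.of_eq h ?_
    intro n
    have h1 := qreach_iff P e (w0 n) [Queue.Sym.kill]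
    simp only [List.map_cons, List.map_nil] at h1
    rw [h1, ← hM n]
    have hrep : Rep (TM0.init (tape n) : TM0.Cfg _ Λ) (initWord (tape n)) :=
      rep_init (tape n) (by simp [tape])
    exact rep_halts M hrep

end Pool.Agent.R659.QFam
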