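import Mathlib
import Pool.Agent.R659.QFam

/-!
A finite length-reducing confluent system in which c-conjugacy encodes the runs of a two-letter
block queue system.
-/

set_option autoImplicit false

namespace Pool.Agent.R659.CConj

open Relation Pool.Agent.Helper247.Queue

/-- the letters -/
inductive Sg (G : Type) : Type
  | f : Sg G
  | g : Sg G
  | z : Sg G
  | u : Sg G
  | A (a : G) : Sg G
  | T (a b : G) : Sg G

variable {G : Type} (P : G → G → List G) (K : G)

/-- the rules -/
inductive Rule : List (Sg G) → List (Sg G) → Prop
  | ffA (y : G) : Rule [.f, .f, .A y] [.A y, .f]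
  | ffu : Rule [.f, .f, .u] [.u, .f]
  | fgu : Rule [.f, .g, .u] [.u, .g]
  | fTA (a b x : G) : Rule [.f, .T a b, .A x] [.A x, .T a b]
  | gAA (a b : G) : Rule [.g, .A a, .A b] [.T a b]
  | gKu : Rule [.g, .A K, .u] [.z]
  | fTu (a b : G) : Rule (List.replicate (P a b).length .f ++ [.T a b, .u])
      ((P a b).map .A ++ [.u])
  | sz (s : Sg G) : Rule [s, .z] [.z]
  | zs (s : Sg G) : Rule [.z, s] [.z]

/-- one step -/
def Stp (x y : List (Sg G)) : Prop :=
  ∃ p q l r : List (Sg G), Rule P K l r ∧ x = p ++ l ++ q ∧ y = p ++ r ++ q

/-- steps -/
abbrev Stps (x y : List (Sg G)) : Prop := ReflTransGen (Stp P K) x y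

variable {P K}

theorem Rule.len {l r : List (Sg G)} (h : Rule P K l r) : r.length < l.length := by
  cases h <;> simp

theorem Stp.of {l r : List (Sg G)} (h : Rule P K l r) (p q : List (Sg G)) :
    Stp P K (p ++ l ++ q) (p ++ r ++ q) := ⟨p, q, l, r, h, rfl, rfl⟩

theorem Stp.app {x y : List (Sg G)} (h : Stp P K x y) (p q : List (Sg G)) :
    Stp P K (p ++ x ++ q) (p ++ y ++ q) := by
  obtain ⟨p', q', l, r, h, rfl, rfl⟩ := h
  exact ⟨p ++ p', q' ++ q, l, r, h, by simp, by simp⟩

theorem Stps.app {x y : List (Sg G)} (h : Stps P K x y) (p q : List (Sg G)) :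
    Stps P K (p ++ x ++ q) (p ++ y ++ q) := by
  induction h with
  | refl => exact ReflTransGen.refl
  | tail _ h ih => exact ih.tail (h.app p q)

theorem Stp.len {x y : List (Sg G)} (h : Stp P K x y) : y.length < x.length := by
  obtain ⟨p, q, l, r, h, rfl, rfl⟩ := h
  have := h.len
  simp only [List.length_append]
  omega

theorem Stps.len {x y : List (Sg G)} (h : Stps P K x y) : x = y ∨ y.length < x.length := by
  induction h with
  | refl => exact Or.inl rfl
  | tail _ h ih =>
    have := h.len
    rcases ih with rfl | ih
    · exact Or.inr this
    · exact Or.inr (this.trans ih)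

/-- pushing a queue letter on a stack (top first) -/
def pushA (x : G) : List (Sg G) → List (Sg G)
  | .f :: .f :: s => .f :: pushA x s
  | .T a b :: .f :: s => .T a b :: pushA x s
  | .A a :: .g :: s => .T a x :: s
  | s => .A x :: s

theorem pushA_len (x : G) (s : List (Sg G)) : (pushA x s).length ≤ s.length + 1 := by
  induction s using pushA.induct with
  | case1 s ih => simp only [pushA, List.length_cons]; omega
  | case2 a b s ih => simp only [pushA, List.length_cons]; omega
  | case3 a s => simp only [pushA, List.length_cons]; omega
  | case4 s h1 h2 h3 => rw [pushA.eq_4 _ _ h1 h2 h3]; simp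

/-- pushing a word of queue letters -/
def pushW (s : List (Sg G)) (w : List G) : List (Sg G) := w.foldl (fun s x => pushA x s) s

theorem pushW_len (w : List G) : ∀ s : List (Sg G), (pushW s w).length ≤ s.length + w.length := by
  induction w with
  | nil => intro s; simp [pushW]
  | cons x w ih =>
    intro s
    have h1 := ih (pushA x s)
    have h2 := pushA_len x s
    simp only [pushW, List.foldl_cons, List.length_cons] at h1 ⊢
    omega

open Classical in
/-- pushing the letter `u` -/
noncomputable def pushU (P : G → G → List G) (K : G) : List (Sg G) → Option (List (Sg G))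
  | .f :: .f :: s => (pushU P K s).map (.f :: ·)
  | .g :: .f :: s => (pushU P K s).map (.g :: ·)
  | .A a :: .g :: s => if a = K then none else some (.u :: .A a :: .g :: s)
  | .T a b :: s =>
    if s.take (P a b).length = List.replicate (P a b).length .f then
      pushU P K (pushW (s.drop (P a b).length) (P a b))
    else some (.u :: .T a b :: s)
  | s => some (.u :: s)
termination_by s => s.length
decreasing_by
  · simp
  · simp
  · rename_i h
    have h1 := pushW_len (P a b) (s.drop (P a b).length)
    have h2 := congrArg List.length h
    simp only [List.length_take, List.length_replicate, List.length_drop, List.length_cons] at *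
    omega


variable (P K)

/-- pushing a letter -/
noncomputable def act (o : Option (List (Sg G))) (x : Sg G) : Option (List (Sg G)) :=
  match o, x with
  | none, _ => none
  | some _, .z => none
  | some s, .f => some (.f :: s)
  | some s, .g => some (.g :: s)
  | some s, .T a b => some (.T a b :: s)
  | some s, .A x => some (pushA x s)
  | some s, .u => pushU P K s

/-- reading a word -/
noncomputable def run (o : Option (List (Sg G))) (w : List (Sg G)) : Option (List (Sg G)) :=
  w.foldl (act P K) o

theorem run_nil (o : Option (List (Sg G))) : run P K o [] = o := rfl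
theorem run_cons (o : Option (List (Sg G))) (x : Sg G) (w : List (Sg G)) :
    run P K o (x :: w) = run P K (act P K o x) w := rfl
theorem run_append (o : Option (List (Sg G))) (v w : List (Sg G)) :
    run P K o (v ++ w) = run P K (run P K o v) w := List.foldl_append
@[simp] theorem act_none (x : Sg G) : act P K none x = none := rfl
@[simp] theorem act_z (o : Option (List (Sg G))) : act P K o .z = none := by
  cases o <;> rfl
@[simp] theorem run_none (w : List (Sg G)) : run P K none w = none := by
  induction w with
  | nil => rfl
  | cons x w ih => rw [run_cons, act_none, ih]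

theorem run_A (w : List G) : ∀ s : List (Sg G),
    run P K (some s) (w.map .A) = some (pushW s w) := by
  induction w with
  | nil => intro s; rfl
  | cons x w ih =>
    intro s
    rw [List.map_cons, run_cons]
    exact ih _

theorem run_f (n : ℕ) : ∀ s : List (Sg G),
    run P K (some s) (List.replicate n .f) = some (List.replicate n .f ++ s) := by
  induction n with
  | zero => intro s; rfl
  | succ n ih =>
    intro s
    rw [List.replicate_succ, run_cons]
    have : act P K (some s) .f = some (.f :: s) := rfl
    rw [this, ih]
    congr 1
    have : List.replicate n (Sg.f : Sg G) ++ .f :: s = (List.replicate n .f ++ [.f]) ++ s := by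
      simp
    rw [this, ← List.replicate_succ', List.replicate_succ]

variable {P K}

theorem Rule.run_eq {l r : List (Sg G)} (h : Rule P K l r) (o : Option (List (Sg G))) :
    run P K o l = run P K o r := by
  rcases o with _ | s
  · simp
  cases h with
  | ffA y => simp [run, act, pushA]
  | ffu => simp only [run, List.foldl_cons, List.foldl_nil, act, pushU]; cases pushU P K s <;> rfl
  | fgu => simp only [run, List.foldl_cons, List.foldl_nil, act, pushU]; cases pushU P K s <;> rfl
  | fTA a b x => simp [run, act, pushA]
  | gAA a b => simp [run, act, pushA]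
  | gKu => simp [run, act, pushA, pushU]
  | fTu a b =>
    rw [run_append, run_f, run_append, run_A]
    simp only [run, List.foldl_cons, List.foldl_nil, act]
    rw [pushU]
    simp
  | sz s => simp [run_cons]
  | zs s => simp [run_cons]

theorem Stp.run_eq {x y : List (Sg G)} (h : Stp P K x y) (o : Option (List (Sg G))) :
    run P K o x = run P K o y := by
  obtain ⟨p, q, l, r, h, rfl, rfl⟩ := h
  rw [run_append, run_append, run_append, run_append, h.run_eq]

theorem Stps.run_eq {x y : List (Sg G)} (h : Stps P K x y) (o : Option (List (Sg G))) :
    run P K o x = run P K o y := by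
  induction h with
  | refl => rfl
  | tail _ h ih => exact ih.trans (h.run_eq o)

/-- the word of a stack -/
def word : Option (List (Sg G)) → List (Sg G)
  | none => [.z]
  | some s => s.reverse

theorem pushA_red (x : G) (s : List (Sg G)) :
    Stps P K (s.reverse ++ [.A x]) (pushA x s).reverse := by
  induction s using pushA.induct with
  | case1 s ih =>
    rw [pushA]
    refine ReflTransGen.head (b := s.reverse ++ [.A x] ++ [.f]) ?_ ?_
    · have := Stp.of (P := P) (K := K) (Rule.ffA x) s.reverse []
      simpa using this
    · simpa using Stps.app ih [] [.f]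
  | case2 a b s ih =>
    rw [pushA]
    refine ReflTransGen.head (b := s.reverse ++ [.A x] ++ [.T a b]) ?_ ?_
    · have := Stp.of (P := P) (K := K) (Rule.fTA a b x) s.reverse []
      simpa using this
    · simpa using Stps.app ih [] [.T a b]
  | case3 a s =>
    rw [pushA]
    refine ReflTransGen.single ?_
    have := Stp.of (P := P) (K := K) (Rule.gAA a x) s.reverse []
    simpa using this
  | case4 s h1 h2 h3 => rw [pushA.eq_4 _ _ h1 h2 h3]; simp [ReflTransGen.refl]

theorem pushW_red (w : List G) : ∀ s : List (Sg G),
    Stps P K (s.reverse ++ w.map .A) (pushW s w).reverse := by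
  induction w with
  | nil => intro s; simp [pushW, ReflTransGen.refl]
  | cons x w ih =>
    intro s
    refine ReflTransGen.trans ?_ (ih (pushA x s))
    have := Stps.app (pushA_red (P := P) (K := K) x s) [] (w.map .A)
    simpa using this

theorem word_map (o : Option (List (Sg G))) (x : Sg G) :
    Stps P K (word o ++ [x]) (word (o.map (x :: ·))) := by
  rcases o with _ | s
  · refine ReflTransGen.single ?_
    have := Stp.of (P := P) (K := K) (Rule.zs x) [] []
    simpa [word] using this
  · simp [word, ReflTransGen.refl]

theorem pushU_red (s : List (Sg G)) : Stps P K (s.reverse ++ [.u]) (word (pushU P K s)) := by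
  classical
  induction s using pushU.induct P K with
  | case1 s ih =>
    rw [pushU]
    refine ReflTransGen.head (b := s.reverse ++ [.u] ++ [.f]) ?_ ?_
    · have := Stp.of (P := P) (K := K) Rule.ffu s.reverse []
      simpa using this
    · refine ReflTransGen.trans ?_ (word_map _ _)
      simpa using Stps.app ih [] [.f]
  | case2 s ih =>
    rw [pushU]
    refine ReflTransGen.head (b := s.reverse ++ [.u] ++ [.g]) ?_ ?_
    · have := Stp.of (P := P) (K := K) Rule.fgu s.reverse []
      simpa using this
    · refine ReflTransGen.trans ?_ (word_map _ _)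
      simpa using Stps.app ih [] [.g]
  | case3 s =>
    rw [pushU, if_pos rfl]
    refine ReflTransGen.head (b := s.reverse ++ [.z]) ?_ ?_
    · have := Stp.of (P := P) (K := K) Rule.gKu s.reverse []
      simpa using this
    · induction s with
      | nil => exact ReflTransGen.refl
      | cons x s ih =>
        refine ReflTransGen.head (b := s.reverse ++ [.z]) ?_ ih
        have := Stp.of (P := P) (K := K) (Rule.sz x) s.reverse []
        simpa using this
  | case4 a s h =>
    rw [pushU, if_neg h]
    simp [word, ReflTransGen.refl]
  | case5 a b s h ih =>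
    rw [pushU, if_pos h]
    have hs : s = List.replicate (P a b).length .f ++ s.drop (P a b).length := by
      rw [← h, List.take_append_drop]
    refine ReflTransGen.head
      (b := (s.drop (P a b).length).reverse ++ (P a b).map .A ++ [.u]) ?_ ?_
    · have := Stp.of (P := P) (K := K) (Rule.fTu a b) (s.drop (P a b).length).reverse []
      have e : (Sg.T a b :: s).reverse ++ [.u] = (s.drop (P a b).length).reverse ++
        (List.replicate (P a b).length .f ++ [.T a b, .u]) ++ [] := by
        conv_lhs => rw [hs]
        simp
      rw [e]
      simpa using this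
    · refine ReflTransGen.trans ?_ ih
      have := Stps.app (pushW_red (P := P) (K := K) (P a b) (s.drop (P a b).length)) [] [.u]
      simpa using this
  | case6 a b s h =>
    rw [pushU, if_neg h]
    simp [word, ReflTransGen.refl]
  | case7 s h1 h2 h3 h4 =>
    rw [pushU.eq_5 _ _ _ h1 h2 h3 h4]
    simp [word, ReflTransGen.refl]

theorem act_red (s : List (Sg G)) (x : Sg G) :
    Stps P K (s.reverse ++ [x]) (word (act P K (some s) x)) := by
  rcases x with _ | _ | _ | _ | a | ⟨a, b⟩
  · simp [act, word, ReflTransGen.refl]
  · simp [act, word, ReflTransGen.refl]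
  · simp only [act, word]
    induction s with
    | nil => exact ReflTransGen.refl
    | cons x s ih =>
      refine ReflTransGen.head (b := s.reverse ++ [.z]) ?_ ih
      have := Stp.of (P := P) (K := K) (Rule.sz x) s.reverse []
      simpa using this
  · exact pushU_red s
  · exact pushA_red a s
  · simp [act, word, ReflTransGen.refl]

theorem run_red (w : List (Sg G)) : ∀ o : Option (List (Sg G)),
    Stps P K (word o ++ w) (word (run P K o w)) := by
  induction w with
  | nil => intro o; simp [run, ReflTransGen.refl]
  | cons x w ih =>
    intro o
    refine ReflTransGen.trans ?_ (ih (act P K o x))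
    rcases o with _ | s
    · refine ReflTransGen.single ?_
      have := Stp.of (P := P) (K := K) (Rule.zs x) [] w
      simpa [word] using this
    · have := Stps.app (act_red (P := P) (K := K) s x) [] w
      simpa [word] using this

theorem nf_red (w : List (Sg G)) : Stps P K w (word (run P K (some []) w)) :=
  run_red w (some [])

theorem confluent {a b c : List (Sg G)} (h1 : Stps P K a b) (h2 : Stps P K a c) :
    ∃ d, Stps P K b d ∧ Stps P K c d := by
  refine ⟨word (run P K (some []) a), ?_, ?_⟩
  · rw [h1.run_eq]; exact nf_red b
  · rw [h2.run_eq]; exact nf_red c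


/-! ### From runs of the queue system to zero -/

theorem cross (x : G) (n : ℕ) : ∀ v : List (Sg G),
    Stps P K (List.replicate (2 * n) .f ++ .A x :: v) (.A x :: (List.replicate n .f ++ v)) := by
  induction n with
  | zero => intro v; exact ReflTransGen.refl
  | succ n ih =>
    intro v
    refine ReflTransGen.head (b := List.replicate (2 * n) .f ++ .A x :: (.f :: v)) ?_ ?_
    · have := Stp.of (P := P) (K := K) (Rule.ffA x) (List.replicate (2 * n) .f) v
      have e : List.replicate (2 * (n + 1)) (Sg.f : Sg G) =
          List.replicate (2 * n) .f ++ [.f, .f] := by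
        rw [show 2 * (n + 1) = 2 * n + 2 from by ring, ← List.replicate_append_replicate]
        rfl
      rw [e]
      simpa using this
    · refine ReflTransGen.trans (ih (.f :: v)) ?_
      rw [List.replicate_succ']
      simp [ReflTransGen.refl]

theorem move (a b : G) : ∀ t : List G, ∃ M : ℕ,
    Stps P K (List.replicate M .f ++ .T a b :: (t.map .A ++ [.u]))
      ((t ++ P a b).map .A ++ [.u]) := by
  intro t
  induction t with
  | nil =>
    refine ⟨(P a b).length, ReflTransGen.single ?_⟩
    have := Stp.of (P := P) (K := K) (Rule.fTu a b) [] []
    simpa using this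
  | cons x t ih =>
    obtain ⟨M, hM⟩ := ih
    refine ⟨2 * M + 1, ?_⟩
    refine ReflTransGen.head
      (b := List.replicate (2 * M) .f ++ .A x :: (.T a b :: (t.map .A ++ [.u]))) ?_ ?_
    · have := Stp.of (P := P) (K := K) (Rule.fTA a b x) (List.replicate (2 * M) .f)
        (t.map .A ++ [.u])
      rw [List.replicate_succ']
      simpa using this
    · refine ReflTransGen.trans (cross x M _) ?_
      have := Stps.app hM [.A x] []
      simpa using this

/-- words over the letters `f`, `g` -/
def FG (l : List (Sg G)) : Prop := ∀ s ∈ l, s = .f ∨ s = .g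

theorem zero_of_queue {w : List G} (h : QReach P w [K]) :
    ∃ ρ, FG ρ ∧ Stps P K (ρ ++ (w.map .A ++ [.u])) [.z] := by
  induction h using ReflTransGen.head_induction_on with
  | refl =>
    refine ⟨[.g], by simp [FG], ReflTransGen.single ?_⟩
    have := Stp.of (P := P) (K := K) Rule.gKu [] []
    simpa using this
  | head h _ ih =>
    obtain ⟨ρ, hρ, hz⟩ := ih
    cases h with
    | mk x y t =>
      obtain ⟨M, hM⟩ := move (P := P) (K := K) x y t
      refine ⟨ρ ++ (List.replicate M .f ++ [.g]), ?_, ?_⟩
      · intro s hs
        simp only [List.mem_append, List.mem_replicate, List.mem_singleton] at hs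
        rcases hs with hs | ⟨_, rfl⟩ | rfl
        · exact hρ s hs
        · exact Or.inl rfl
        · exact Or.inr rfl
      · refine ReflTransGen.head
          (b := ρ ++ (List.replicate M .f ++ .T x y :: (t.map .A ++ [.u]))) ?_ ?_
        · have := Stp.of (P := P) (K := K) (Rule.gAA x y) (ρ ++ List.replicate M .f)
            (t.map .A ++ [.u])
          simpa using this
        · refine ReflTransGen.trans ?_ hz
          have := Stps.app hM ρ []
          simpa using this

theorem through_u (ρ : List (Sg G)) (hρ : FG ρ) : ∃ m, Stps P K (m ++ [.u]) (.u :: ρ) := by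
  induction ρ using List.reverseRecOn with
  | nil => exact ⟨[], ReflTransGen.refl⟩
  | append_singleton ρ x ih =>
    obtain ⟨m, hm⟩ := ih fun s hs => hρ s (by simp [hs])
    rcases hρ x (by simp) with rfl | rfl
    · refine ⟨m ++ [.f, .f], ReflTransGen.head (b := m ++ [.u] ++ [.f]) ?_ ?_⟩
      · have := Stp.of (P := P) (K := K) Rule.ffu m []
        simpa using this
      · simpa using Stps.app hm [] [.f]
    · refine ⟨m ++ [.f, .g], ReflTransGen.head (b := m ++ [.u] ++ [.g]) ?_ ?_⟩
      · have := Stp.of (P := P) (K := K) Rule.fgu m []
        simpa using this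
      · simpa using Stps.app hm [] [.g]

/-! ### From zero to runs of the queue system -/

/-- the queue represented by a stack, followed by the word `w` to be read -/
def cfg (P : G → G → List G) : List (Sg G) → List G → List G
  | [], w => w
  | .f :: s, w => cfg P s w
  | .g :: s, w => cfg P s w
  | .A a :: s, w => cfg P s (a :: w)
  | .T a b :: s, w => cfg P s (w ++ P a b)
  | .u :: _, w => w
  | .z :: _, w => w

/-- no letter `u` or `z` and below a letter `g` there are only letters `f`, `g` -/
def Shape : List (Sg G) → Prop
  | [] => True
  | .f :: s => Shape s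
  | .g :: s => FG s
  | .A _ :: s => Shape s
  | .T _ _ :: s => Shape s
  | .u :: _ => False
  | .z :: _ => False

theorem FG.cfg {s : List (Sg G)} (h : FG s) (w : List G) : cfg P s w = w := by
  induction s with
  | nil => rfl
  | cons x s ih =>
    have ih' := ih fun y hy => h y (by simp [hy])
    rcases h x (by simp) with rfl | rfl <;> exact ih'

theorem FG.shape {s : List (Sg G)} (h : FG s) : Shape s := by
  induction s with
  | nil => trivial
  | cons x s ih =>
    have h' : FG s := fun y hy => h y (by simp [hy])
    rcases h x (by simp) with rfl | rfl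
    · exact ih h'
    · exact h'

theorem cfg_A (x : G) (s : List (Sg G)) (hs : Shape s) : ∀ w : List G,
    QReach P (cfg P s (x :: w)) (cfg P (pushA x s) w) ∧ Shape (pushA x s) := by
  induction s using pushA.induct with
  | case1 s ih =>
    intro w
    rw [pushA]
    exact ih hs w
  | case2 a b s ih =>
    intro w
    rw [pushA]
    exact ⟨(ih hs (w ++ P a b)).1, (ih hs w).2⟩
  | case3 a s =>
    intro w
    rw [pushA]
    have h1 : FG s := hs
    refine ⟨?_, h1.shape⟩
    simp only [cfg]
    rw [h1.cfg, h1.cfg]
    exact ReflTransGen.single (QStep.mk a x w)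
  | case4 s h1 h2 h3 =>
    intro w
    rw [pushA.eq_4 _ _ h1 h2 h3]
    exact ⟨ReflTransGen.refl, hs⟩

theorem cfg_W (v : List G) : ∀ (s : List (Sg G)), Shape s → ∀ w : List G,
    QReach P (cfg P s (v ++ w)) (cfg P (pushW s v) w) ∧ Shape (pushW s v) := by
  induction v with
  | nil => intro s hs w; exact ⟨ReflTransGen.refl, hs⟩
  | cons x v ih =>
    intro s hs w
    have h1 := cfg_A (P := P) x s hs (v ++ w)
    have h2 := ih (pushA x s) h1.2 w
    exact ⟨h1.1.trans h2.1, h2.2⟩

theorem cfg_rep (n : ℕ) (s : List (Sg G)) (w : List G) :
    cfg P (List.replicate n .f ++ s) w = cfg P s w := by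
  induction n with
  | zero => rfl
  | succ n ih => rw [List.replicate_succ]; exact ih

theorem Shape_rep (n : ℕ) (s : List (Sg G)) :
    Shape (List.replicate n .f ++ s) ↔ Shape s := by
  induction n with
  | zero => rfl
  | succ n ih => rw [List.replicate_succ]; exact ih

theorem queue_of_zero (s : List (Sg G)) (hs : Shape s) (h : pushU P K s = none) :
    QReach P (cfg P s []) [K] := by
  classical
  induction s using pushU.induct P K with
  | case1 s ih =>
    rw [pushU, Option.map_eq_none_iff] at h
    exact ih hs h
  | case2 s ih =>
    rw [pushU, Option.map_eq_none_iff] at h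
    have h1 : FG (.f :: s) := hs
    have h2 : FG s := fun y hy => h1 y (by simp [hy])
    exact ih h2.shape h
  | case3 s =>
    have h1 : FG s := hs
    simp only [cfg]
    rw [h1.cfg]
  | case4 a s h' =>
    rw [pushU, if_neg h'] at h
    simp at h
  | case5 a b s h' ih =>
    rw [pushU, if_pos h'] at h
    have e : s = List.replicate (P a b).length .f ++ s.drop (P a b).length := by
      rw [← h', List.take_append_drop]
    have hs' : Shape (s.drop (P a b).length) := by
      have : Shape s := hs
      rw [e] at this
      exact (Shape_rep _ _).1 this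
    have h1 := cfg_W (P := P) (P a b) (s.drop (P a b).length) hs' []
    have h2 := ih h1.2 h
    refine ReflTransGen.trans ?_ (h1.1.trans h2)
    have e2 : cfg P (.T a b :: s) [] = cfg P (s.drop (P a b).length) (P a b ++ []) := by
      conv_lhs => rw [e]
      simp only [cfg, List.nil_append, List.append_nil]
      rw [cfg_rep]
    rw [e2]
  | case6 a b s h' =>
    rw [pushU, if_neg h'] at h
    simp at h
  | case7 s h1 h2 h3 h4 =>
    rw [pushU.eq_5 _ _ _ h1 h2 h3 h4] at h
    simp at h

theorem queue_of_run {ρ : List (Sg G)} {w : List G} (hρ : FG ρ)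
    (h : run P K (some ρ) (w.map .A ++ [.u]) = none) : QReach P w [K] := by
  rw [run_append, run_A] at h
  have h1 := cfg_W (P := P) w ρ hρ.shape []
  have h2 := queue_of_zero (pushW ρ w) h1.2 h
  have h3 := h1.1.trans h2
  rwa [List.append_nil, hρ.cfg] at h3

/-! ### The letter `u` blocks -/

theorem pushA_block (x : G) (y : List (Sg G)) (s : List (Sg G)) :
    pushA x (s ++ .u :: y) = pushA x s ++ .u :: y := by
  induction s using pushA.induct with
  | case1 s ih => simp only [List.cons_append, pushA, ih]
  | case2 a b s ih => simp only [List.cons_append, pushA, ih]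
  | case3 a s => simp only [List.cons_append, pushA]
  | case4 s h1 h2 h3 =>
    rw [pushA.eq_4 _ _ h1 h2 h3]
    rcases s with _ | ⟨s0, _ | ⟨s1, s⟩⟩
    · simp [pushA]
    · rcases s0 with _ | _ | _ | _ | a | ⟨a, b⟩ <;> simp [pushA]
    · rw [pushA.eq_4]
      · simp
      · intro s' hs'
        simp only [List.cons_append, List.cons.injEq] at hs'
        exact h1 s (by rw [hs'.1, hs'.2.1])
      · intro a b s' hs'
        simp only [List.cons_append, List.cons.injEq] at hs'
        exact h2 a b s (by rw [hs'.1, hs'.2.1])
      · intro a s' hs'
        simp only [List.cons_append, List.cons.injEq] at hs'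
        exact h3 a s (by rw [hs'.1, hs'.2.1])

end Pool.Agent.R659.CConj
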