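import Mathlib
import Pool.Agent.R659.CConj

/-!
The coding of the runs of a queue system in c-conjugacy.
-/

set_option autoImplicit false

namespace Pool.Agent.R659.CConj

open Relation Pool.Agent.Helper247.Queue

variable {G : Type} {P : G → G → List G} {K : G}

theorem take_block (n : ℕ) (s y : List (Sg G)) :
    (s ++ .u :: y).take n = List.replicate n .f ↔ s.take n = List.replicate n .f := by
  rw [List.take_append]
  constructor
  · intro h
    rcases le_or_gt n s.length with h1 | h1
    · rw [Nat.sub_eq_zero_of_le h1, List.take_zero, List.append_nil] at h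
      exact h
    · exfalso
      obtain ⟨k, hk⟩ : ∃ k, n - s.length = k + 1 := ⟨n - s.length - 1, by omega⟩
      rw [hk, List.take_succ_cons] at h
      have : (Sg.u : Sg G) ∈ List.replicate n (Sg.f : Sg G) := by
        rw [← h]; simp
      have := List.eq_of_mem_replicate this
      simp at this
  · intro h
    have h2 := congrArg List.length h
    simp only [List.length_take, List.length_replicate] at h2
    have h1 : n ≤ s.length := by omega
    rw [Nat.sub_eq_zero_of_le h1, List.take_zero, List.append_nil, h]

theorem pushW_block (y : List (Sg G)) (w : List G) : ∀ s : List (Sg G),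
    pushW (s ++ .u :: y) w = pushW s w ++ .u :: y := by
  induction w with
  | nil => intro s; rfl
  | cons x w ih =>
    intro s
    have := ih (pushA x s)
    rw [← pushA_block] at this
    exact this

theorem pushU_block (y : List (Sg G)) (s : List (Sg G)) :
    pushU P K (s ++ .u :: y) = (pushU P K s).map (· ++ .u :: y) := by
  classical
  induction s using pushU.induct P K with
  | case1 s ih =>
    simp only [List.cons_append]
    rw [pushU, pushU, ih, Option.map_map, Option.map_map]
    rfl
  | case2 s ih =>
    simp only [List.cons_append]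
    rw [pushU, pushU, ih, Option.map_map, Option.map_map]
    rfl
  | case3 s =>
    simp only [List.cons_append]
    rw [pushU, pushU, if_pos rfl, if_pos rfl]
    rfl
  | case4 a s h =>
    simp only [List.cons_append]
    rw [pushU, pushU, if_neg h, if_neg h]
    rfl
  | case5 a b s h ih =>
    simp only [List.cons_append]
    rw [pushU, pushU, if_pos h, if_pos ((take_block _ _ _).2 h), ← ih, ← pushW_block]
    congr 2
    have h2 := congrArg List.length h
    simp only [List.length_take, List.length_replicate] at h2
    rw [List.drop_append_of_le_length (by omega)]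
  | case6 a b s h =>
    simp only [List.cons_append]
    rw [pushU, pushU, if_neg h, if_neg (fun h' => h ((take_block _ _ _).1 h'))]
    rfl
  | case7 s h1 h2 h3 h4 =>
    rw [pushU.eq_5 _ _ _ h1 h2 h3 h4]
    rcases s with _ | ⟨s0, _ | ⟨s1, s⟩⟩
    · simp [pushU]
    · rcases s0 with _ | _ | _ | _ | a | ⟨a, b⟩
      · simp [pushU]
      · simp [pushU]
      · simp [pushU]
      · simp [pushU]
      · simp [pushU]
      · exact absurd rfl (h4 a b [])
    · rw [pushU.eq_5]
      · simp
      · intro s' hs'
        simp only [List.cons_append, List.cons.injEq] at hs'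
        exact h1 s (by rw [hs'.1, hs'.2.1])
      · intro s' hs'
        simp only [List.cons_append, List.cons.injEq] at hs'
        exact h2 s (by rw [hs'.1, hs'.2.1])
      · intro a s' hs'
        simp only [List.cons_append, List.cons.injEq] at hs'
        exact h3 a s (by rw [hs'.1, hs'.2.1])
      · intro a b s' hs'
        simp only [List.cons_append, List.cons.injEq] at hs'
        exact h4 a b (s1 :: s) (by rw [hs'.1])

theorem pushU_form (s : List (Sg G)) : ∀ s', pushU P K s = some s' →
    ∃ ρ y, FG ρ ∧ s' = ρ ++ .u :: y := by
  classical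
  induction s using pushU.induct P K with
  | case1 s ih =>
    intro s' h
    rw [pushU, Option.map_eq_some_iff] at h
    obtain ⟨s1, h1, rfl⟩ := h
    obtain ⟨ρ, y, h2, rfl⟩ := ih s1 h1
    refine ⟨.f :: ρ, y, ?_, rfl⟩
    intro x hx
    rcases List.mem_cons.1 hx with rfl | hx
    · exact Or.inl rfl
    · exact h2 x hx
  | case2 s ih =>
    intro s' h
    rw [pushU, Option.map_eq_some_iff] at h
    obtain ⟨s1, h1, rfl⟩ := h
    obtain ⟨ρ, y, h2, rfl⟩ := ih s1 h1
    refine ⟨.g :: ρ, y, ?_, rfl⟩
    intro x hx
    rcases List.mem_cons.1 hx with rfl | hx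
    · exact Or.inr rfl
    · exact h2 x hx
  | case3 s =>
    intro s' h
    rw [pushU, if_pos rfl] at h
    simp at h
  | case4 a s h' =>
    intro s' h
    rw [pushU, if_neg h', Option.some.injEq] at h
    exact ⟨[], _, by simp [FG], h.symm⟩
  | case5 a b s h' ih =>
    intro s' h
    rw [pushU, if_pos h'] at h
    exact ih s' h
  | case6 a b s h' =>
    intro s' h
    rw [pushU, if_neg h', Option.some.injEq] at h
    exact ⟨[], _, by simp [FG], h.symm⟩
  | case7 s h1 h2 h3 h4 =>
    intro s' h
    rw [pushU.eq_5 _ _ _ h1 h2 h3 h4, Option.some.injEq] at h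
    exact ⟨[], _, by simp [FG], h.symm⟩

/-- if the queue system does not reach `K` then `u` does not create new zeros -/
theorem no_new_zero {w : List G} (hq : ¬ QReach P w [K]) (o : Option (List (Sg G)))
    (h : run P K o (.u :: (w.map .A ++ [.u])) = none) :
    run P K o (.u :: w.map .A) = none := by
  rcases o with _ | s
  · simp
  rw [run_cons] at h ⊢
  rcases hs : act P K (some s) .u with _ | s'
  · simp
  exfalso
  rw [hs] at h
  obtain ⟨ρ, y, hρ, rfl⟩ := pushU_form s s' hs
  apply hq
  apply queue_of_run hρ (K := K)
  rw [run_append, run_A, pushW_block] at h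
  rw [run_append, run_A]
  have h' : pushU P K (pushW ρ w ++ .u :: y) = none := h
  rw [pushU_block, Option.map_eq_none_iff] at h'
  exact h'

/-- queue letters do not create zeros -/
theorem no_zero_W {w : List G} {o : Option (List (Sg G))}
    (h : run P K o (w.map .A) = none) : o = none := by
  rcases o with _ | s
  · rfl
  · rw [run_A] at h
    simp at h

/-! ### Words and conjugacy -/

/-- equality in the monoid -/
def E (P : G → G → List G) (K : G) (x y : List (Sg G)) : Prop :=
  run P K (some []) x = run P K (some []) y

theorem E_of_Stps {x y : List (Sg G)} (h : Stps P K x y) : E P K x y := h.run_eq _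

theorem run_of_E {x y : List (Sg G)} (h : E P K x y) (o : Option (List (Sg G))) :
    run P K o x = run P K o y := by
  have h1 := (nf_red (P := P) (K := K) x).run_eq o
  have h2 := (nf_red (P := P) (K := K) y).run_eq o
  rw [h1, h2]
  unfold E at h
  rw [h]

theorem E_zero_iff {x : List (Sg G)} : E P K x [.z] ↔ run P K (some []) x = none := by
  unfold E
  rw [run_cons, act_z, run_none]

/-- a word with no step -/
def Irr (P : G → G → List G) (K : G) (x : List (Sg G)) : Prop := ∀ y, ¬ Stp P K x y

theorem Irr.eq {x y : List (Sg G)} (h : Irr P K x) (h' : Stps P K x y) : x = y := by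
  rcases ReflTransGen.cases_head h' with h1 | ⟨z, h1, _⟩
  · exact h1
  · exact absurd h1 (h z)

theorem irr_nf (x : List (Sg G)) : Irr P K (word (run P K (some []) x)) := by
  intro y hy
  have h1 := hy.run_eq (some [])
  have h2 := (nf_red (P := P) (K := K) x).run_eq (some [])
  rw [← h2] at h1
  have h3 := nf_red (P := P) (K := K) y
  rw [← h1] at h3
  have h4 := Stps.len h3
  have h5 := hy.len
  rcases h4 with h4 | h4
  · rw [← h4] at h5
    omega
  · omega

/-- rules not containing `z` begin neither with `u` nor with a queue letter -/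
theorem Rule.head {l r : List (Sg G)} (h : Rule P K l r) :
    .z ∈ l ∨ ∃ x l', l = x :: l' ∧ x ≠ .u ∧ ∀ a, x ≠ .A a := by
  cases h with
  | ffA y => exact Or.inr ⟨_, _, rfl, by simp, by simp⟩
  | ffu => exact Or.inr ⟨_, _, rfl, by simp, by simp⟩
  | fgu => exact Or.inr ⟨_, _, rfl, by simp, by simp⟩
  | fTA a b x => exact Or.inr ⟨_, _, rfl, by simp, by simp⟩
  | gAA a b => exact Or.inr ⟨_, _, rfl, by simp, by simp⟩
  | gKu => exact Or.inr ⟨_, _, rfl, by simp, by simp⟩
  | fTu a b =>
    rcases h : (P a b).length with _ | n
    · exact Or.inr ⟨_, _, rfl, by simp, by simp⟩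
    · exact Or.inr ⟨.f, List.replicate n .f ++ [.T a b, .u], by rw [List.replicate_succ]; rfl,
        by simp, by simp⟩
  | sz s => exact Or.inl (by simp)
  | zs s => exact Or.inl (by simp)

theorem Irr.cons {v : List (Sg G)} (h : Irr P K v) (hz : .z ∉ v) {x : Sg G} (hxz : x ≠ .z)
    (hx : x = .u ∨ ∃ a, x = .A a) : Irr P K (x :: v) := by
  rintro y ⟨p, q, l, r, hr, h1, rfl⟩
  rcases p with _ | ⟨p0, p⟩
  · rcases hr.head with hl | ⟨x', l', rfl, h2, h3⟩
    · have : Sg.z ∈ x :: v := by rw [h1]; simp [hl]
      rcases List.mem_cons.1 this with h4 | h4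
      · exact hxz h4.symm
      · exact hz h4
    · simp only [List.nil_append, List.cons_append, List.cons.injEq] at h1
      obtain ⟨rfl, -⟩ := h1
      rcases hx with hx | ⟨a, hx⟩
      · exact h2 hx
      · exact h3 a hx
  · simp only [List.cons_append, List.cons.injEq] at h1
    exact h _ ⟨p, q, l, r, hr, h1.2, rfl⟩

theorem Irr.app {v : List (Sg G)} (h : Irr P K v) (hz : .z ∉ v) : ∀ (w : List G),
    Irr P K (w.map .A ++ v) := by
  intro w
  induction w with
  | nil => exact h
  | cons x w ih => exact Irr.cons ih (by simp [hz]) (by simp) (Or.inr ⟨x, rfl⟩)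

theorem not_mem_z {v : List (Sg G)} (h : run P K (some []) v ≠ none) : .z ∉ v := by
  intro hz
  obtain ⟨p, q, rfl⟩ := List.append_of_mem hz
  apply h
  rw [run_append, run_cons, act_z, run_none]

/-- the first word -/
def wa (w : List G) : List (Sg G) := .u :: w.map .A
/-- the second word -/
def wb (w : List G) : List (Sg G) := w.map .A ++ [.u]

theorem wa_ne (w : List G) : ¬ E P K (wa w) [.z] := by
  rw [E_zero_iff, wa, run_cons]
  intro h
  have := no_zero_W h
  have h2 : act P K (some []) .u = some [.u] := by simp [act, pushU]
  rw [h2] at this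
  simp at this

theorem wb_ne (w : List G) (h : ¬ QReach P w [K]) : ¬ E P K (wb w) [.z] := by
  rw [E_zero_iff, wb]
  intro h'
  exact h (queue_of_run (ρ := []) (by simp [FG]) h')

/-- if the queue system reaches `K` then no conjugator is admissible -/
theorem not_conj {w : List G} (hw : w ≠ []) (hq : QReach P w [K]) (g : List (Sg G))
    (hg : E P K (wa w ++ g) (g ++ wb w)) :
    ∃ m, E P K (m ++ (wa w ++ g)) [.z] ∧ ¬ E P K (m ++ wa w) [.z] := by
  rcases hn : run P K (some []) g with _ | s
  · refine ⟨[], ?_, ?_⟩
    · rw [E_zero_iff, List.nil_append]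
      have := run_of_E (x := g) (y := [.z]) (P := P) (K := K) (E_zero_iff.2 hn)
        (run P K (some []) (wa w))
      rw [run_append, this, run_cons, act_z, run_none]
    · rw [List.nil_append]
      exact wa_ne w
  -- the normal form of `g`
  have hgv : Stps P K g s.reverse := by
    have := nf_red (P := P) (K := K) g
    rw [hn] at this
    exact this
  have hirr : Irr P K s.reverse := by
    have := irr_nf (P := P) (K := K) g
    rw [hn] at this
    exact this
  have hvn : run P K (some []) s.reverse = some s := by
    rw [← hgv.run_eq, hn]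
  have hzv : .z ∉ s.reverse := not_mem_z (P := P) (K := K) (by rw [hvn]; simp)
  generalize s.reverse = v at hgv hirr hvn hzv
  have hE : E P K (wa w ++ v) (v ++ wb w) := by
    have h1 : Stps P K (wa w ++ g) (wa w ++ v) := by
      have := Stps.app hgv (wa w) []
      simpa using this
    have h2 : Stps P K (g ++ wb w) (v ++ wb w) := by
      have := Stps.app hgv [] (wb w)
      simpa using this
    exact (E_of_Stps h1).symm.trans (hg.trans (E_of_Stps h2))
  have hirr2 : Irr P K (wa w ++ v) := by
    have := Irr.cons (x := .u) (Irr.app hirr hzv w) (by simp [hzv]) (by simp) (Or.inl rfl)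
    exact this
  have h3 : Stps P K (v ++ wb w) (wa w ++ v) := by
    have h4 := nf_red (P := P) (K := K) (v ++ wb w)
    have h5 := nf_red (P := P) (K := K) (wa w ++ v)
    have h6 : run P K (some []) (wa w ++ v) = run P K (some []) (v ++ wb w) := hE
    rw [h6] at h5
    rw [← hirr2.eq h5] at h4
    exact h4
  have h7 : v ++ wb w = wa w ++ v := by
    rcases Stps.len h3 with h | h
    · exact h
    · exfalso
      simp only [wa, wb, List.length_append, List.length_cons, List.length_map,
        List.length_nil] at h
      omega
  rcases v with _ | ⟨x, v⟩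
  · exfalso
    rcases w with _ | ⟨a, w⟩
    · exact hw rfl
    · simp [wa, wb] at h7
  simp only [wa, List.cons_append, List.cons.injEq] at h7
  obtain ⟨rfl, -⟩ := h7
  obtain ⟨ρ, hρ, hz⟩ := zero_of_queue hq
  obtain ⟨m, hm⟩ := through_u (P := P) (K := K) ρ hρ
  refine ⟨m, ?_, ?_⟩
  · have h8 : Stps P K (m ++ (wa w ++ (.u :: v))) (.u :: (ρ ++ (w.map .A ++ [.u])) ++ v) := by
      have := Stps.app hm [] (w.map .A ++ .u :: v)
      simpa [wa] using this
    have h9 : Stps P K (.u :: (ρ ++ (w.map .A ++ [.u])) ++ v) (.u :: .z :: v) := by
      have := Stps.app hz [.u] v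
      simpa using this
    have h10 : E P K (m ++ (wa w ++ g)) (m ++ (wa w ++ (.u :: v))) := by
      have := Stps.app hgv (m ++ wa w) []
      apply E_of_Stps
      simpa using this
    refine h10.trans ((E_of_Stps (h8.trans h9)).trans ?_)
    rw [run_cons, run_cons, act_z, run_none, run_cons, act_z, run_none]
  · intro h
    have h8 : Stps P K (m ++ wa w) (.u :: ρ ++ w.map .A) := by
      have := Stps.app hm [] (w.map .A)
      simpa [wa] using this
    have h9 := (E_of_Stps h8).symm.trans h
    have h10 := E_zero_iff.1 h9
    rw [run_append] at h10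
    have h11 := no_zero_W h10
    have h12 : run P K (some []) (.u :: ρ) = some (ρ.reverse ++ [.u]) := by
      have h2 : act P K (some []) .u = some [.u] := by simp [act, pushU]
      rw [run_cons, h2]
      clear * - hρ
      have : ∀ st, run P K (some st) ρ = some (ρ.reverse ++ st) := by
        induction ρ with
        | nil => intro st; rfl
        | cons x ρ ih =>
          intro st
          have ih' := ih fun y hy => hρ y (by simp [hy])
          rcases hρ x (by simp) with rfl | rfl
          · rw [run_cons]
            have : act P K (some st) .f = some (.f :: st) := rfl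
            rw [this, ih']
            simp
          · rw [run_cons]
            have : act P K (some st) .g = some (.g :: st) := rfl
            rw [this, ih']
            simp
      exact this _
    rw [h12] at h11
    simp at h11

/-- if the queue system does not reach `K` then `u` is an admissible conjugator -/
theorem conj_left {w : List G} (hq : ¬ QReach P w [K]) (m : List (Sg G))
    (h : E P K (m ++ (wa w ++ [.u])) [.z]) : E P K (m ++ wa w) [.z] := by
  rw [E_zero_iff] at h ⊢
  rw [run_append] at h ⊢
  exact no_new_zero hq _ h

theorem conj_right {w : List G} (m : List (Sg G))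
    (h : E P K (m ++ (wb w ++ w.map .A)) [.z]) : E P K (m ++ wb w) [.z] := by
  rw [E_zero_iff] at h ⊢
  rw [← List.append_assoc, run_append] at h
  exact no_zero_W h

end Pool.Agent.R659.CConj
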