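import Mathlib

/-! Covering the edges of a bipartite graph by matchings of prescribed size. -/

set_option autoImplicit false

namespace Pool.Agent.R659.ExcM

open Finset

variable {V : Type} [Fintype V] [DecidableEq V]

/-- One step of the integer decomposition: a matching of size exactly `m` in the support of `y`
covering all vertices of full degree. -/
theorem idp_step (k m : ℕ) (hk : 0 < k) (y : V → V → ℕ)
    (hrow : ∀ u, ∑ w, y u w ≤ k) (hcol : ∀ w, ∑ u, y u w ≤ k)
    (htot : ∑ u, ∑ w, y u w = k * m) :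
    ∃ M : Finset (V × V), M.card = m ∧ (Set.InjOn Prod.fst (M : Set (V × V))) ∧
      (Set.InjOn Prod.snd (M : Set (V × V))) ∧ (∀ p ∈ M, 0 < y p.1 p.2) ∧
      (∀ u, ∑ w, y u w = k → ∃ w, (u, w) ∈ M) ∧ (∀ w, ∑ u, y u w = k → ∃ u, (u, w) ∈ M) := by
  classical
  set n := Fintype.card V with hn
  have hmn : m ≤ n := by
    have h1 : k * m ≤ n * k := by
      rw [← htot]
      calc ∑ u, ∑ w, y u w ≤ ∑ _u : V, k := Finset.sum_le_sum fun u _ => hrow u
        _ = n * k := by simp [hn]
    rw [mul_comm n k] at h1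
    exact Nat.le_of_mul_le_mul_left h1 hk
  obtain ⟨d, hd⟩ : ∃ d, n = m + d := ⟨n - m, by omega⟩
  let D : Matrix (V ⊕ Fin d) (V ⊕ Fin d) ℚ := fun i j =>
    match i, j with
    | Sum.inl u, Sum.inl w => (y u w : ℚ) / k
    | Sum.inl u, Sum.inr _ => ((k : ℚ) - ∑ w, (y u w : ℚ)) / (k * d)
    | Sum.inr _, Sum.inl w => ((k : ℚ) - ∑ u, (y u w : ℚ)) / (k * d)
    | Sum.inr _, Sum.inr _ => 0
  have hk' : (0 : ℚ) < k := by exact_mod_cast hk
  have hrow' : ∀ u, ∑ w, (y u w : ℚ) ≤ k := fun u => by exact_mod_cast hrow u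
  have hcol' : ∀ w, ∑ u, (y u w : ℚ) ≤ k := fun w => by exact_mod_cast hcol w
  have htot' : ∑ u, ∑ w, (y u w : ℚ) = k * m := by exact_mod_cast htot
  have hnd : (Fintype.card V : ℚ) = m + d := by exact_mod_cast hd
  have hrowd : d = 0 → ∀ u, ∑ w, (y u w : ℚ) = k := by
    intro h0 u
    by_contra hne
    have hlt : ∑ u, ∑ w, (y u w : ℚ) < ∑ _u : V, (k : ℚ) :=
      Finset.sum_lt_sum (fun u _ => hrow' u) ⟨u, Finset.mem_univ u, lt_of_le_of_ne (hrow' u) hne⟩
    rw [htot', Finset.sum_const, Finset.card_univ, nsmul_eq_mul, hnd, h0] at hlt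
    simp only [Nat.cast_zero, add_zero] at hlt
    linarith [mul_comm (k : ℚ) m]
  have hcold : d = 0 → ∀ w, ∑ u, (y u w : ℚ) = k := by
    intro h0 w
    by_contra hne
    have hlt : ∑ w, ∑ u, (y u w : ℚ) < ∑ _u : V, (k : ℚ) :=
      Finset.sum_lt_sum (fun u _ => hcol' u) ⟨w, Finset.mem_univ w, lt_of_le_of_ne (hcol' w) hne⟩
    rw [Finset.sum_comm, htot', Finset.sum_const, Finset.card_univ, nsmul_eq_mul, hnd, h0] at hlt
    simp only [Nat.cast_zero, add_zero] at hlt
    linarith [mul_comm (k : ℚ) m]
  have hD : D ∈ doublyStochastic ℚ (V ⊕ Fin d) := by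
    rw [mem_doublyStochastic_iff_sum]
    refine ⟨?_, ?_, ?_⟩
    · rintro (u | i) (w | j)
      · exact div_nonneg (by positivity) hk'.le
      · exact div_nonneg (by linarith [hrow' u]) (by positivity)
      · exact div_nonneg (by linarith [hcol' w]) (by positivity)
      · exact le_refl _
    · rintro (u | i)
      · rw [Fintype.sum_sum_type]
        change ∑ w, (y u w : ℚ) / k + ∑ _j : Fin d, ((k : ℚ) - ∑ w, (y u w : ℚ)) / (k * d) = 1
        rw [← Finset.sum_div, Finset.sum_const, Finset.card_univ, Fintype.card_fin, nsmul_eq_mul]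
        rcases Nat.eq_zero_or_pos d with h0 | h0
        · rw [hrowd h0 u]; simp [hk'.ne']
        · have : (0 : ℚ) < d := by exact_mod_cast h0
          field_simp
          ring
      · rw [Fintype.sum_sum_type]
        change ∑ w, ((k : ℚ) - ∑ u, (y u w : ℚ)) / (k * d) + ∑ _j : Fin d, (0 : ℚ) = 1
        have h0 : 0 < d := lt_of_le_of_lt (Nat.zero_le _) i.2
        have : (0 : ℚ) < d := by exact_mod_cast h0
        rw [← Finset.sum_div, Finset.sum_sub_distrib, Finset.sum_comm, htot', Finset.sum_const,
          Finset.card_univ, nsmul_eq_mul, hnd]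
        simp only [Finset.sum_const_zero, add_zero]
        field_simp
        ring
    · rintro (w | j)
      · rw [Fintype.sum_sum_type]
        change ∑ u, (y u w : ℚ) / k + ∑ _j : Fin d, ((k : ℚ) - ∑ u, (y u w : ℚ)) / (k * d) = 1
        rw [← Finset.sum_div, Finset.sum_const, Finset.card_univ, Fintype.card_fin, nsmul_eq_mul]
        rcases Nat.eq_zero_or_pos d with h0 | h0
        · rw [hcold h0 w]; simp [hk'.ne']
        · have : (0 : ℚ) < d := by exact_mod_cast h0
          field_simp
          ring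
      · rw [Fintype.sum_sum_type]
        change ∑ u, ((k : ℚ) - ∑ w, (y u w : ℚ)) / (k * d) + ∑ _j : Fin d, (0 : ℚ) = 1
        have h0 : 0 < d := lt_of_le_of_lt (Nat.zero_le _) j.2
        have : (0 : ℚ) < d := by exact_mod_cast h0
        rw [← Finset.sum_div, Finset.sum_sub_distrib, htot', Finset.sum_const,
          Finset.card_univ, nsmul_eq_mul, hnd]
        simp only [Finset.sum_const_zero, add_zero]
        field_simp
        ring
  obtain ⟨wt, hwt0, hwt1, hwt⟩ := exists_eq_sum_perm_of_mem_doublyStochastic hD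
  obtain ⟨σ, hσ⟩ : ∃ σ, 0 < wt σ := by
    by_contra hc
    push Not at hc
    have : ∑ σ, wt σ ≤ 0 := Finset.sum_nonpos fun σ _ => hc σ
    linarith
  have hpos : ∀ i, 0 < D i (σ i) := by
    intro i
    rw [← hwt]
    simp only [Matrix.sum_apply, Matrix.smul_apply, smul_eq_mul]
    refine lt_of_lt_of_le ?_ (Finset.single_le_sum (f := fun τ : Equiv.Perm (V ⊕ Fin d) =>
      wt τ * (Equiv.Perm.permMatrix ℚ τ) i (σ i)) (fun τ _ => ?_) (Finset.mem_univ σ))
    · simp only [Equiv.Perm.permMatrix, PEquiv.toMatrix_apply, Equiv.toPEquiv_apply]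
      simp [hσ]
    · refine mul_nonneg (hwt0 τ) ?_
      rw [Equiv.Perm.permMatrix, PEquiv.toMatrix_apply]
      split
      · exact zero_le_one
      · exact le_refl _
  -- rows `inr` go to columns `inl`
  have hinr : ∀ j : Fin d, ∃ w, σ (Sum.inr j) = Sum.inl w := by
    intro j
    have := hpos (Sum.inr j)
    rcases h : σ (Sum.inr j) with w | j'
    · exact ⟨w, rfl⟩
    · rw [h] at this
      exact absurd this (lt_irrefl _)
  let M : Finset (V × V) := Finset.univ.filter fun p => σ (Sum.inl p.1) = Sum.inl p.2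
  have hMmem : ∀ u w, (u, w) ∈ M ↔ σ (Sum.inl u) = Sum.inl w := by
    intro u w; simp [M]
  have hfst : Set.InjOn Prod.fst (M : Set (V × V)) := by
    rintro ⟨u, w⟩ h1 ⟨u', w'⟩ h2 (rfl : u = u')
    have h1' := (hMmem _ _).1 h1
    have h2' := (hMmem _ _).1 h2
    rw [h1'] at h2'
    rw [Sum.inl.inj h2']
  have hsnd : Set.InjOn Prod.snd (M : Set (V × V)) := by
    rintro ⟨u, w⟩ h1 ⟨u', w'⟩ h2 (rfl : w = w')
    have h1' := (hMmem _ _).1 h1
    have h2' := (hMmem _ _).1 h2
    rw [← h2'] at h1'
    rw [Sum.inl.inj (σ.injective h1')]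
  have hcard : M.card = m := by
    -- the image of `M` under `fst` is the complement of the rows matched to dummy columns
    have key : ∀ j : Fin d, ∃ v, σ.symm (Sum.inr j) = Sum.inl v := by
      intro j
      rcases h : σ.symm (Sum.inr j) with v | j'
      · exact ⟨v, rfl⟩
      · obtain ⟨w', hw'⟩ := hinr j'
        have := congrArg σ h
        rw [Equiv.apply_symm_apply, hw'] at this
        exact absurd this (by simp)
    choose g hg using key
    have h1 : M.card = (M.image Prod.fst).card := (Finset.card_image_of_injOn hfst).symm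
    have h2 : M.image Prod.fst = (Finset.univ.image g)ᶜ := by
      ext u
      simp only [Finset.mem_image, Finset.mem_compl, Finset.mem_univ, true_and, Prod.exists,
        exists_and_right, exists_eq_right]
      constructor
      · rintro ⟨w, hw⟩ ⟨j, hj⟩
        rw [hMmem] at hw
        have := congrArg σ (hg j)
        rw [Equiv.apply_symm_apply, hj, hw] at this
        exact absurd this (by simp)
      · intro h
        rcases hu : σ (Sum.inl u) with w | j
        · exact ⟨w, (hMmem _ _).2 hu⟩
        · refine absurd ⟨j, ?_⟩ h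
          have := hg j
          rw [← hu, Equiv.symm_apply_apply] at this
          exact (Sum.inl.inj this).symm
    have h3 : (Finset.univ.image g).card = d := by
      rw [Finset.card_image_of_injective, Finset.card_univ, Fintype.card_fin]
      intro j j' hjj
      have := σ.symm.injective ((hg j).trans ((congrArg Sum.inl hjj).trans (hg j').symm))
      exact Sum.inr.inj this
    rw [h1, h2, Finset.card_compl, h3]
    omega
  refine ⟨M, hcard, hfst, hsnd, ?_, ?_, ?_⟩
  · rintro ⟨u, w⟩ hp
    have h1 := hpos (Sum.inl u)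
    rw [(hMmem _ _).1 hp] at h1
    have h2 : (0 : ℚ) < (y u w : ℚ) / k := h1
    have h3 : (0 : ℚ) < (y u w : ℚ) := by
      by_contra h
      push Not at h
      exact absurd h2 (not_lt.2 (div_nonpos_of_nonpos_of_nonneg h hk'.le))
    exact_mod_cast h3
  · intro u hu
    rcases h : σ (Sum.inl u) with w | j
    · exact ⟨w, (hMmem _ _).2 h⟩
    · have h1 := hpos (Sum.inl u)
      rw [h] at h1
      have h2 : (0 : ℚ) < ((k : ℚ) - ∑ w, (y u w : ℚ)) / (k * d) := h1
      have h3 : ∑ w, (y u w : ℚ) = k := by exact_mod_cast hu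
      rw [h3, sub_self, zero_div] at h2
      exact absurd h2 (lt_irrefl _)
  · intro w hw
    rcases h : σ.symm (Sum.inl w) with u | j
    · exact ⟨u, (hMmem _ _).2 (by rw [← h, Equiv.apply_symm_apply])⟩
    · have h1 := hpos (Sum.inr j)
      rw [← h, Equiv.apply_symm_apply, h] at h1
      have h2 : (0 : ℚ) < ((k : ℚ) - ∑ u, (y u w : ℚ)) / (k * d) := h1
      have h3 : ∑ u, (y u w : ℚ) = k := by exact_mod_cast hw
      rw [h3, sub_self, zero_div] at h2
      exact absurd h2 (lt_irrefl _)

/-- Integer decomposition: `y` with all row and column sums at most `k` and total `k * m` is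
covered by `k` matchings of size exactly `m` inside its support. -/
theorem idp (m : ℕ) : ∀ (k : ℕ) (y : V → V → ℕ),
    (∀ u, ∑ w, y u w ≤ k) → (∀ w, ∑ u, y u w ≤ k) → (∑ u, ∑ w, y u w = k * m) →
    ∃ F : Fin k → Finset (V × V), (∀ i, (F i).card = m ∧
      (Set.InjOn Prod.fst ((F i : Finset (V × V)) : Set (V × V))) ∧
      (Set.InjOn Prod.snd ((F i : Finset (V × V)) : Set (V × V))) ∧
      (∀ p ∈ F i, 0 < y p.1 p.2)) ∧ ∀ u w, 0 < y u w → ∃ i, (u, w) ∈ F i := by
  intro k
  induction k with
  | zero =>
    intro y hrow _ _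
    refine ⟨fun i => i.elim0, fun i => i.elim0, fun u w h => ?_⟩
    have h1 := hrow u
    have h2 : y u w ≤ ∑ w, y u w := Finset.single_le_sum (fun _ _ => Nat.zero_le _)
      (Finset.mem_univ w)
    omega
  | succ k ih =>
    intro y hrow hcol htot
    obtain ⟨M, hM, hf, hs, hp, hr, hc⟩ := idp_step (k + 1) m (Nat.succ_pos k) y hrow hcol htot
    let o : V → V → ℕ := fun u w => if (u, w) ∈ M then 1 else 0
    let y' : V → V → ℕ := fun u w => y u w - o u w
    have hoy : ∀ u w, o u w ≤ y u w := by
      intro u w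
      simp only [o]
      split_ifs with h
      · exact hp _ h
      · exact Nat.zero_le _
    have hyo : ∀ u w, y' u w + o u w = y u w := fun u w => Nat.sub_add_cancel (hoy u w)
    have hrs : ∀ u, ∑ w, y' u w + ∑ w, o u w = ∑ w, y u w := by
      intro u; rw [← Finset.sum_add_distrib]; exact Finset.sum_congr rfl fun w _ => hyo u w
    have hcs : ∀ w, ∑ u, y' u w + ∑ u, o u w = ∑ u, y u w := by
      intro w; rw [← Finset.sum_add_distrib]; exact Finset.sum_congr rfl fun u _ => hyo u w
    have hot : ∑ u, ∑ w, o u w = m := by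
      rw [← hM, Finset.card_eq_sum_ones, ← Finset.sum_product']
      simp only [o, Finset.univ_product_univ]
      rw [Finset.sum_ite_mem, Finset.univ_inter]
    obtain ⟨F, hF1, hF2⟩ := ih y' (fun u => by
        have h1 := hrow u
        have h2 := hrs u
        rcases Nat.lt_or_ge (∑ w, y u w) (k + 1) with h | h
        · omega
        · obtain ⟨w, hw⟩ := hr u (le_antisymm h1 h)
          have h3 : 1 ≤ ∑ w, o u w := by
            have : o u w ≤ ∑ w, o u w := Finset.single_le_sum (fun _ _ => Nat.zero_le _)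
              (Finset.mem_univ w)
            simp only [o, hw, if_true] at this
            exact this
          omega)
      (fun w => by
        have h1 := hcol w
        have h2 := hcs w
        rcases Nat.lt_or_ge (∑ u, y u w) (k + 1) with h | h
        · omega
        · obtain ⟨u, hu⟩ := hc w (le_antisymm h1 h)
          have h3 : 1 ≤ ∑ u, o u w := by
            have : o u w ≤ ∑ u, o u w := Finset.single_le_sum
              (f := fun u => o u w) (fun _ _ => Nat.zero_le _) (Finset.mem_univ u)
            simp only [o, hu, if_true] at this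
            exact this
          omega)
      (by
        have h1 : ∑ u, ∑ w, y' u w + ∑ u, ∑ w, o u w = ∑ u, ∑ w, y u w := by
          rw [← Finset.sum_add_distrib]; exact Finset.sum_congr rfl fun u _ => hrs u
        rw [hot, htot] at h1
        have : (k + 1) * m = k * m + m := by ring
        omega)
    refine ⟨Fin.cons M F, ?_, ?_⟩
    · intro i
      refine Fin.cases ?_ (fun j => ?_) i
      · exact ⟨hM, hf, hs, hp⟩
      · simp only [Fin.cons_succ]
        refine ⟨(hF1 j).1, (hF1 j).2.1, (hF1 j).2.2.1, fun p hpj => ?_⟩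
        exact lt_of_lt_of_le ((hF1 j).2.2.2 p hpj) (Nat.sub_le _ _)
    · intro u w huw
      by_cases h : (u, w) ∈ M
      · exact ⟨0, h⟩
      · obtain ⟨i, hi⟩ := hF2 u w (by simp only [y', o, h, if_false]; exact huw)
        exact ⟨i.succ, by simpa using hi⟩

end Pool.Agent.R659.ExcM
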