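import Mathlib
import Pool.Agent.R659.ExcM

/-! Bipartite `b`-matchings via Hall's theorem, and covering by matchings of size `m`. -/

set_option autoImplicit false

namespace Pool.Agent.R659.ExcM

open Finset

variable {V : Type} [Fintype V] [DecidableEq V]

theorem card_sigma_fst_le (b : V → ℕ) {T : Type} [Fintype T] (a : T → Σ u, Fin (b u))
    (ha : Function.Injective a) (u : V) :
    (univ.filter fun x => (a x).1 = u).card ≤ b u := by
  classical
  have : (univ.filter fun x => (a x).1 = u).image a ⊆
      (univ : Finset (Fin (b u))).image (Sigma.mk u) := by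
    intro y hy
    simp only [mem_image, mem_filter, mem_univ, true_and] at hy ⊢
    obtain ⟨x, hx, rfl⟩ := hy
    rcases h : a x with ⟨v, i⟩
    rw [h] at hx
    subst hx
    exact ⟨i, rfl⟩
  calc _ = ((univ.filter fun x => (a x).1 = u).image a).card :=
        (card_image_of_injective _ ha).symm
    _ ≤ _ := card_le_card this
    _ ≤ (univ : Finset (Fin (b u))).card := card_image_le
    _ = b u := by simp

theorem bm (P : Finset (V × V)) (bL bR : V → ℕ) (q : ℕ)
    (h : ∀ X Y : Finset V, (∀ p ∈ P, p.1 ∈ X ∨ p.2 ∈ Y) →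
      q ≤ ∑ u ∈ X, bL u + ∑ w ∈ Y, bR w) :
    ∃ z : V → V → ℕ, (∀ u w, (u, w) ∉ P → z u w = 0) ∧ (∀ u, ∑ w, z u w ≤ bL u) ∧
      (∀ w, ∑ u, z u w ≤ bR w) ∧ ∑ u, ∑ w, z u w = q := by
  classical
  have hN : q ≤ ∑ u, bL u := by simpa using h univ ∅ (by simp)
  set N := ∑ u, bL u with hNdef
  let ι := Σ u, Fin (bL u)
  let κ := Σ w, Fin (bR w)
  let t : ι → Finset (κ ⊕ Fin (N - q)) := fun x =>
    univ.filter fun y => ∀ z, y = Sum.inl z → (x.1, z.1) ∈ P
  have hall : ∀ s : Finset ι, s.card ≤ (s.biUnion t).card := by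
    intro s
    rcases s.eq_empty_or_nonempty with rfl | hs
    · simp
    let A := s.image Sigma.fst
    let B : Finset V := univ.filter fun w => ∃ u ∈ A, (u, w) ∈ P
    have hc := h Aᶜ B (by
      rintro ⟨u, w⟩ hp
      by_cases hu : u ∈ A
      · right; simp only [B, mem_filter, mem_univ, true_and]; exact ⟨u, hu, hp⟩
      · left; exact Finset.mem_compl.2 hu)
    have h1 : s.card ≤ ∑ u ∈ A, bL u := by
      have hsub : s ⊆ A.sigma (fun _ => univ) := by
        intro x hx
        rw [Finset.mem_sigma]
        exact ⟨Finset.mem_image_of_mem _ hx, Finset.mem_univ _⟩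
      have := card_le_card hsub
      rw [Finset.card_sigma] at this
      simpa using this
    have h2 : ∑ u ∈ Aᶜ, bL u + ∑ u ∈ A, bL u = N := sum_compl_add_sum _ _
    have h3 : ∑ w ∈ B, bR w + (N - q) ≤ (s.biUnion t).card := by
      have hsub : (B.sigma (fun w => (univ : Finset (Fin (bR w))))).disjSum
          (univ : Finset (Fin (N - q))) ⊆ s.biUnion t := by
        intro y hy
        rw [Finset.mem_disjSum] at hy
        rw [Finset.mem_biUnion]
        rcases hy with ⟨z, hz, rfl⟩ | ⟨j, _, rfl⟩
        · rw [Finset.mem_sigma] at hz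
          have hB := hz.1
          simp only [B, A, mem_filter, mem_univ, true_and, mem_image] at hB
          obtain ⟨u, ⟨x, hx, rfl⟩, hP⟩ := hB
          refine ⟨x, hx, ?_⟩
          simp only [t, mem_filter, mem_univ, true_and]
          intro z' hz'
          rw [← Sum.inl.inj hz']
          exact hP
        · obtain ⟨x, hx⟩ := hs
          refine ⟨x, hx, ?_⟩
          simp only [t, mem_filter, mem_univ, true_and]
          intro z' hz'
          exact absurd hz' (by simp)
      have := card_le_card hsub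
      rw [Finset.card_disjSum, Finset.card_sigma] at this
      simpa using this
    omega
  obtain ⟨f, hf, hft⟩ := (Finset.all_card_le_biUnion_card_iff_exists_injective t).1 hall
  let S' : Finset ι := univ.filter fun x => ∃ y, f x = Sum.inl y
  have hS' : q ≤ S'.card := by
    have h1 : (S'ᶜ).card ≤ N - q := by
      have hsub : S'ᶜ.image f ⊆ (univ : Finset (Fin (N - q))).image Sum.inr := by
        intro y hy
        rw [Finset.mem_image] at hy
        obtain ⟨x, hx, rfl⟩ := hy
        rw [Finset.mem_compl] at hx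
        rcases hfx : f x with z | j
        · exact absurd (by simp only [S', mem_filter, mem_univ, true_and]; exact ⟨z, hfx⟩) hx
        · exact Finset.mem_image_of_mem _ (Finset.mem_univ j)
      calc (S'ᶜ).card = (S'ᶜ.image f).card := (card_image_of_injective _ hf).symm
        _ ≤ _ := card_le_card hsub
        _ ≤ (univ : Finset (Fin (N - q))).card := card_image_le
        _ = N - q := by simp
    have h2 : S'.card + (S'ᶜ).card = Fintype.card ι := Finset.card_add_card_compl S'
    have h3 : Fintype.card ι = N := by simp [ι, hNdef]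
    omega
  obtain ⟨S, hSS, hSc⟩ := Finset.exists_subset_card_eq hS'
  have hex : ∀ x : {x // x ∈ S}, ∃ y, f x.1 = Sum.inl y := by
    intro x
    have := hSS x.2
    simpa only [S', mem_filter, mem_univ, true_and] using this
  choose c hc using hex
  have hcinj : Function.Injective c := by
    intro x x' hxx
    have : f x.1 = f x'.1 := by rw [hc x, hc x', hxx]
    exact Subtype.ext (hf this)
  let a : {x // x ∈ S} → ι := fun x => x.1
  have hainj : Function.Injective a := Subtype.val_injective
  have hP : ∀ x, ((a x).1, (c x).1) ∈ P := by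
    intro x
    have := hft x.1
    simp only [t, mem_filter, mem_univ, true_and] at this
    exact this _ (hc x)
  refine ⟨fun u w => (univ.filter fun x => (a x).1 = u ∧ (c x).1 = w).card, ?_, ?_, ?_, ?_⟩
  · intro u w huw
    rw [Finset.card_eq_zero, Finset.filter_eq_empty_iff]
    rintro x - ⟨h1, h2⟩
    exact huw (h1 ▸ h2 ▸ hP x)
  · intro u
    have h1 : (univ.filter fun x => (a x).1 = u).card =
        ∑ w, (univ.filter fun x => (a x).1 = u ∧ (c x).1 = w).card := by
      rw [Finset.card_eq_sum_card_fiberwise (f := fun x => (c x).1) (t := univ)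
        (fun x _ => Finset.mem_coe.2 (Finset.mem_univ _))]
      refine Finset.sum_congr rfl fun w _ => ?_
      rw [Finset.filter_filter]
    rw [← h1]
    exact card_sigma_fst_le bL a hainj u
  · intro w
    have h1 : (univ.filter fun x => (c x).1 = w).card =
        ∑ u, (univ.filter fun x => (a x).1 = u ∧ (c x).1 = w).card := by
      rw [Finset.card_eq_sum_card_fiberwise (f := fun x => (a x).1) (t := univ)
        (fun x _ => Finset.mem_coe.2 (Finset.mem_univ _))]
      refine Finset.sum_congr rfl fun u _ => ?_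
      rw [Finset.filter_filter]
      congr 1
      ext x
      simp only [mem_filter, and_comm]
    rw [← h1]
    exact card_sigma_fst_le bR c hcinj w
  · have h1 : ∀ u, ∑ w, (univ.filter fun x => (a x).1 = u ∧ (c x).1 = w).card =
        (univ.filter fun x => (a x).1 = u).card := by
      intro u
      rw [Finset.card_eq_sum_card_fiberwise (s := univ.filter fun x => (a x).1 = u)
        (f := fun x => (c x).1) (t := univ)
        (fun x _ => Finset.mem_coe.2 (Finset.mem_univ _))]
      refine Finset.sum_congr rfl fun w _ => ?_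
      rw [Finset.filter_filter]
    rw [Finset.sum_congr rfl fun u _ => h1 u,
      ← Finset.card_eq_sum_card_fiberwise (s := univ) (f := fun x => (a x).1) (t := univ)
        (fun x _ => Finset.mem_coe.2 (Finset.mem_univ _)), Finset.card_univ, Fintype.card_coe, hSc]

/-- A set of pairs that is a matching. -/
def PM (M : Finset (V × V)) : Prop :=
  Set.InjOn Prod.fst (M : Set (V × V)) ∧ Set.InjOn Prod.snd (M : Set (V × V))

theorem PM.subset {M N : Finset (V × V)} (h : PM M) (hN : N ⊆ M) : PM N :=
  ⟨h.1.mono (by exact_mod_cast hN), h.2.mono (by exact_mod_cast hN)⟩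

theorem star (P : Finset (V × V)) (X Y : Finset V) (hXY : ∀ p ∈ P, p.1 ∈ X ∨ p.2 ∈ Y)
    (M : Finset (V × V)) (hM : M ⊆ P) (hPM : PM M) :
    M.card + (M.filter fun p => p.1 ∈ X ∧ p.2 ∈ Y).card ≤ X.card + Y.card := by
  have h1 : (M.filter fun p => p.1 ∈ X).card ≤ X.card := by
    refine Finset.card_le_card_of_injOn Prod.fst (fun p hp => ?_) (hPM.1.mono ?_)
    · exact Finset.mem_coe.2 (Finset.mem_filter.1 (Finset.mem_coe.1 hp)).2
    · exact_mod_cast Finset.filter_subset _ _
  have h2 : (M.filter fun p => p.2 ∈ Y).card ≤ Y.card := by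
    refine Finset.card_le_card_of_injOn Prod.snd (fun p hp => ?_) (hPM.2.mono ?_)
    · exact Finset.mem_coe.2 (Finset.mem_filter.1 (Finset.mem_coe.1 hp)).2
    · exact_mod_cast Finset.filter_subset _ _
  have h3 : (M.filter fun p => p.1 ∈ X) ∪ (M.filter fun p => p.2 ∈ Y) = M := by
    ext p
    simp only [mem_union, mem_filter]
    constructor
    · rintro (h | h) <;> exact h.1
    · intro h
      rcases hXY p (hM h) with h' | h'
      · exact Or.inl ⟨h, h'⟩
      · exact Or.inr ⟨h, h'⟩
  have h4 : (M.filter fun p => p.1 ∈ X) ∩ (M.filter fun p => p.2 ∈ Y) =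
      M.filter fun p => p.1 ∈ X ∧ p.2 ∈ Y := by
    ext p
    simp only [mem_inter, mem_filter]
    tauto
  have h5 := Finset.card_union_add_card_inter (M.filter fun p => p.1 ∈ X)
    (M.filter fun p => p.2 ∈ Y)
  rw [h3, h4] at h5
  omega

/-- The core: covering the pairs of `P` by `k` matchings of size `m`. -/
theorem core (P : Finset (V × V)) (m k : ℕ) (hm : 1 ≤ m) (hne : P.Nonempty)
    (h0 : ∀ p ∈ P, ∃ M ⊆ P, PM M ∧ M.card = m ∧ p ∈ M)
    (c : V × V → ℕ) (hck : ∀ p ∈ P, c p < k)
    (hc1 : ∀ p ∈ P, ∀ r ∈ P, p ≠ r → p.1 = r.1 → c p ≠ c r)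
    (hc2 : ∀ p ∈ P, ∀ r ∈ P, p ≠ r → p.2 = r.2 → c p ≠ c r)
    (h2 : P.card ≤ k * m)
    (h3 : ∀ t, 1 ≤ t → t ≤ m - 1 → ∀ S ⊆ P, (∃ N ⊆ S, PM N ∧ N.card = t + 1) →
      (∀ N ⊆ S, PM N → N.card = t + 1 → ∀ M ⊆ P, PM M → M.card = m → ¬ N ⊆ M) →
      S.card ≤ k * t) :
    ∃ F : Fin k → Finset (V × V), (∀ i, F i ⊆ P ∧ PM (F i) ∧ (F i).card = m) ∧
      ∀ p ∈ P, ∃ i, p ∈ F i := by
  classical
  -- a set all of whose matchings have at most `t` elements has at most `k * t` elements
  have hcol : ∀ C ⊆ P, ∀ t, (∀ N ⊆ C, PM N → N.card ≤ t) → C.card ≤ k * t := by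
    intro C hC t ht
    have h := Finset.card_eq_sum_card_fiberwise (s := C) (f := c) (t := Finset.range k)
      (fun p hp => Finset.mem_coe.2 (Finset.mem_range.2 (hck p (hC hp))))
    rw [h]
    calc ∑ b ∈ Finset.range k, (C.filter fun a => c a = b).card
        ≤ ∑ _b ∈ Finset.range k, t := by
          refine Finset.sum_le_sum fun b _ => ht _ (Finset.filter_subset _ _) ⟨?_, ?_⟩
          · intro p hp r hr hpr
            have hp' := Finset.mem_filter.1 (Finset.mem_coe.1 hp)
            have hr' := Finset.mem_filter.1 (Finset.mem_coe.1 hr)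
            by_contra hne'
            exact hc1 p (hC hp'.1) r (hC hr'.1) hne' hpr (hp'.2.trans hr'.2.symm)
          · intro p hp r hr hpr
            have hp' := Finset.mem_filter.1 (Finset.mem_coe.1 hp)
            have hr' := Finset.mem_filter.1 (Finset.mem_coe.1 hr)
            by_contra hne'
            exact hc2 p (hC hp'.1) r (hC hr'.1) hne' hpr (hp'.2.trans hr'.2.symm)
      _ = k * t := by simp
  have hcover : ∀ X Y : Finset V, (∀ p ∈ P, p.1 ∈ X ∨ p.2 ∈ Y) →
      k * m + (P.filter fun p => p.1 ∈ X ∧ p.2 ∈ Y).card ≤ k * (X.card + Y.card) := by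
    intro X Y hXY
    obtain ⟨p0, hp0⟩ := hne
    obtain ⟨M0, hM0, hPM0, hMc0, -⟩ := h0 p0 hp0
    have hst0 := star P X Y hXY M0 hM0 hPM0
    obtain ⟨t, ht⟩ : ∃ t, X.card + Y.card = m + t := ⟨X.card + Y.card - m, by omega⟩
    set C := P.filter fun p => p.1 ∈ X ∧ p.2 ∈ Y with hC
    have hCP : C ⊆ P := Finset.filter_subset _ _
    have hMC : ∀ M ⊆ P, PM M → M.card = m → (M ∩ C).card ≤ t := by
      intro M hM hPM hMc
      have hst := star P X Y hXY M hM hPM
      have : (M.filter fun p => p.1 ∈ X ∧ p.2 ∈ Y) = M ∩ C := by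
        ext p
        simp only [hC, mem_inter, mem_filter]
        constructor
        · rintro ⟨h1, h2⟩; exact ⟨h1, hM h1, h2⟩
        · rintro ⟨h1, -, h2⟩; exact ⟨h1, h2⟩
      rw [this] at hst
      omega
    have key : C.card ≤ k * t := by
      rcases Nat.eq_zero_or_pos t with ht0 | ht0
      · subst ht0
        rw [mul_zero, Nat.le_zero, Finset.card_eq_zero, Finset.eq_empty_iff_forall_notMem]
        intro p hp
        obtain ⟨M, hM, hPM, hMc, hpM⟩ := h0 p (hCP hp)
        have := hMC M hM hPM hMc
        rw [Nat.le_zero, Finset.card_eq_zero] at this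
        have hmem : p ∈ M ∩ C := Finset.mem_inter.2 ⟨hpM, hp⟩
        rw [this] at hmem
        exact absurd hmem (Finset.notMem_empty _)
      · rcases Nat.lt_or_ge t m with htm | htm
        · by_cases hN : ∃ N ⊆ C, PM N ∧ N.card = t + 1
          · refine h3 t ht0 (by omega) C hCP hN ?_
            intro N hNC hPN hNc M hM hPM hMc hNM
            have h1 := hMC M hM hPM hMc
            have h2 := card_le_card (Finset.subset_inter hNM hNC)
            omega
          · refine hcol C hCP t ?_
            intro N hNC hPN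
            by_contra hlt
            push Not at hlt
            obtain ⟨N', hN', hN'c⟩ := Finset.exists_subset_card_eq (show t + 1 ≤ N.card by omega)
            exact hN ⟨N', hN'.trans hNC, hPN.subset hN', hN'c⟩
        · calc C.card ≤ P.card := card_le_card hCP
            _ ≤ k * m := h2
            _ ≤ k * t := Nat.mul_le_mul_left _ htm
    rw [ht, mul_add]
    omega
  -- degrees
  let rd : V → ℕ := fun u => (P.filter fun p => p.1 = u).card
  let cd : V → ℕ := fun w => (P.filter fun p => p.2 = w).card
  have hrd : ∀ u, rd u ≤ k := by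
    intro u
    have := hcol (P.filter fun p => p.1 = u) (Finset.filter_subset _ _) 1 (by
      intro N hN hPN
      rw [Finset.card_le_one]
      intro a ha b hb
      have ha' := (Finset.mem_filter.1 (hN ha)).2
      have hb' := (Finset.mem_filter.1 (hN hb)).2
      exact hPN.1 (Finset.mem_coe.2 ha) (Finset.mem_coe.2 hb) (ha'.trans hb'.symm))
    simpa using this
  have hcd : ∀ w, cd w ≤ k := by
    intro w
    have := hcol (P.filter fun p => p.2 = w) (Finset.filter_subset _ _) 1 (by
      intro N hN hPN
      rw [Finset.card_le_one]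
      intro a ha b hb
      have ha' := (Finset.mem_filter.1 (hN ha)).2
      have hb' := (Finset.mem_filter.1 (hN hb)).2
      exact hPN.2 (Finset.mem_coe.2 ha) (Finset.mem_coe.2 hb) (ha'.trans hb'.symm))
    simpa using this
  have hsumr : ∀ X : Finset V, ∑ u ∈ X, rd u = (P.filter fun p => p.1 ∈ X).card := by
    intro X
    rw [Finset.card_eq_sum_card_fiberwise (s := P.filter fun p => p.1 ∈ X) (f := Prod.fst)
      (t := X) (fun p hp => Finset.mem_coe.2 (Finset.mem_filter.1 (Finset.mem_coe.1 hp)).2)]
    refine Finset.sum_congr rfl fun u hu => ?_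
    rw [Finset.filter_filter]
    simp only [rd]
    congr 1
    ext p
    simp only [mem_filter]
    constructor
    · rintro ⟨h1, rfl⟩; exact ⟨h1, hu, rfl⟩
    · rintro ⟨h1, -, h2⟩; exact ⟨h1, h2⟩
  have hsumc : ∀ Y : Finset V, ∑ w ∈ Y, cd w = (P.filter fun p => p.2 ∈ Y).card := by
    intro Y
    rw [Finset.card_eq_sum_card_fiberwise (s := P.filter fun p => p.2 ∈ Y) (f := Prod.snd)
      (t := Y) (fun p hp => Finset.mem_coe.2 (Finset.mem_filter.1 (Finset.mem_coe.1 hp)).2)]
    refine Finset.sum_congr rfl fun u hu => ?_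
    rw [Finset.filter_filter]
    simp only [cd]
    congr 1
    ext p
    simp only [mem_filter]
    constructor
    · rintro ⟨h1, rfl⟩; exact ⟨h1, hu, rfl⟩
    · rintro ⟨h1, -, h2⟩; exact ⟨h1, h2⟩
  obtain ⟨z, hz0, hzr, hzc, hzt⟩ := bm P (fun u => k - rd u) (fun w => k - cd w)
    (k * m - P.card) (by
      intro X Y hXY
      have h1 := hcover X Y hXY
      have h4 : (P.filter fun p => p.1 ∈ X) ∪ (P.filter fun p => p.2 ∈ Y) = P := by
        ext p
        simp only [mem_union, mem_filter]
        constructor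
        · rintro (h | h) <;> exact h.1
        · intro h
          rcases hXY p h with h' | h'
          · exact Or.inl ⟨h, h'⟩
          · exact Or.inr ⟨h, h'⟩
      have h5 : (P.filter fun p => p.1 ∈ X) ∩ (P.filter fun p => p.2 ∈ Y) =
          P.filter fun p => p.1 ∈ X ∧ p.2 ∈ Y := by
        ext p
        simp only [mem_inter, mem_filter]
        tauto
      have h6 := Finset.card_union_add_card_inter (P.filter fun p => p.1 ∈ X)
        (P.filter fun p => p.2 ∈ Y)
      rw [h4, h5, ← hsumr, ← hsumc] at h6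
      have h7 : ∑ u ∈ X, (k - rd u) + ∑ u ∈ X, rd u = k * X.card := by
        rw [← Finset.sum_add_distrib, Finset.sum_congr rfl fun u _ => Nat.sub_add_cancel (hrd u)]
        simp [mul_comm]
      have h8 : ∑ u ∈ Y, (k - cd u) + ∑ u ∈ Y, cd u = k * Y.card := by
        rw [← Finset.sum_add_distrib, Finset.sum_congr rfl fun u _ => Nat.sub_add_cancel (hcd u)]
        simp [mul_comm]
      rw [mul_add] at h1
      omega)
  let o : V → V → ℕ := fun u w => if (u, w) ∈ P then 1 else 0
  have hor : ∀ u, ∑ w, o u w = rd u := by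
    intro u
    simp only [o, rd]
    rw [Finset.sum_boole, Nat.cast_id]
    refine Finset.card_bij (fun w _ => (u, w)) ?_ ?_ ?_
    · intro w hw
      simpa using hw
    · intro a _ b _ hab
      exact (Prod.ext_iff.1 hab).2
    · rintro ⟨u', w'⟩ hp
      simp only [mem_filter] at hp
      obtain ⟨h1, rfl⟩ := hp
      exact ⟨w', by simpa using h1, rfl⟩
  have hoc : ∀ w, ∑ u, o u w = cd w := by
    intro w
    simp only [o, cd]
    rw [Finset.sum_boole, Nat.cast_id]
    refine Finset.card_bij (fun u _ => (u, w)) ?_ ?_ ?_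
    · intro w hw
      simpa using hw
    · intro a _ b _ hab
      exact (Prod.ext_iff.1 hab).1
    · rintro ⟨u', w'⟩ hp
      simp only [mem_filter] at hp
      obtain ⟨h1, rfl⟩ := hp
      exact ⟨u', by simpa using h1, rfl⟩
  have hot : ∑ u, ∑ w, o u w = P.card := by
    rw [Finset.sum_congr rfl fun u _ => hor u, hsumr univ]
    simp
  obtain ⟨F, hF1, hF2⟩ := idp m k (fun u w => z u w + o u w)
    (fun u => by
      rw [Finset.sum_add_distrib, hor]
      have := hzr u
      have := hrd u
      omega)
    (fun w => by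
      rw [Finset.sum_add_distrib, hoc]
      have := hzc w
      have := hcd w
      omega)
    (by
      simp only [Finset.sum_add_distrib]
      rw [hzt, hot]
      omega)
  refine ⟨F, fun i => ⟨?_, ⟨(hF1 i).2.1, (hF1 i).2.2.1⟩, (hF1 i).1⟩, ?_⟩
  · rintro ⟨u, w⟩ hp
    by_contra hn
    have h1 := (hF1 i).2.2.2 _ hp
    simp only [hz0 u w hn, o, hn, if_false] at h1
    exact absurd h1 (lt_irrefl _)
  · rintro ⟨u, w⟩ hp
    exact hF2 u w (by simp only [o, hp, if_true]; omega)

end Pool.Agent.R659.ExcM
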