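import Mathlib

/-!
Rewriting systems all of whose rules replace two letters by one, with confluent critical pairs.
-/

set_option autoImplicit false

namespace Pool.Agent.R659.TwoOne

open Relation

variable {A : Type} (ρ : A → A → Option A)

/-- one rewriting step -/
def St (x y : List A) : Prop :=
  ∃ (u v : List A) (s t r : A), ρ s t = some r ∧ x = u ++ s :: t :: v ∧ y = u ++ r :: v

/-- critical pairs are joinable in one step -/
def CP : Prop := ∀ h s t q r, ρ h s = some q → ρ s t = some r →
  ∃ w, ρ q t = some w ∧ ρ h r = some w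

/-- pushing a letter on a stack (top first) -/
def push : List A → A → List A
  | [], s => [s]
  | t :: st, s => match ρ t s with
    | none => s :: t :: st
    | some r => push st r

/-- reading a word -/
def run (st : List A) (w : List A) : List A := w.foldl (push ρ) st

theorem run_nil (st : List A) : run ρ st [] = st := rfl
theorem run_cons (st : List A) (s : A) (w : List A) :
    run ρ st (s :: w) = run ρ (push ρ st s) w := rfl
theorem run_append (st : List A) (v w : List A) :
    run ρ st (v ++ w) = run ρ (run ρ st v) w := List.foldl_append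

variable {ρ}

theorem push_none {t s : A} {st : List A} (h : ρ t s = none) :
    push ρ (t :: st) s = s :: t :: st := by
  rw [push, h]

theorem push_some {t s r : A} {st : List A} (h : ρ t s = some r) :
    push ρ (t :: st) s = push ρ st r := by
  rw [push, h]

theorem push_push (hc : CP ρ) : ∀ (st : List A) (s t r : A), ρ s t = some r →
    push ρ (push ρ st s) t = push ρ st r := by
  intro st
  induction st with
  | nil =>
    intro s t r h
    rw [push, push_some h]
  | cons h st ih =>
    intro s t r hr
    rcases hq : ρ h s with _ | q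
    · rw [push_none hq, push_some hr]
    · obtain ⟨w, h1, h2⟩ := hc h s t q r hq hr
      rw [push_some hq, ih q t w h1, push_some h2]

theorem run_St (hc : CP ρ) {x y : List A} (h : St ρ x y) (st : List A) :
    run ρ st x = run ρ st y := by
  obtain ⟨u, v, s, t, r, hr, rfl, rfl⟩ := h
  rw [run_append, run_append, run_cons, run_cons, run_cons, push_push hc _ s t r hr]

theorem run_Sts (hc : CP ρ) {x y : List A} (h : ReflTransGen (St ρ) x y) (st : List A) :
    run ρ st x = run ρ st y := by
  induction h with
  | refl => rfl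
  | tail _ h ih => exact ih.trans (run_St hc h st)

theorem St.app {x y : List A} (h : St ρ x y) (p q : List A) :
    St ρ (p ++ x ++ q) (p ++ y ++ q) := by
  obtain ⟨u, v, s, t, r, hr, rfl, rfl⟩ := h
  exact ⟨p ++ u, v ++ q, s, t, r, hr, by simp, by simp⟩

theorem Sts.app {x y : List A} (h : ReflTransGen (St ρ) x y) (p q : List A) :
    ReflTransGen (St ρ) (p ++ x ++ q) (p ++ y ++ q) := by
  induction h with
  | refl => exact ReflTransGen.refl
  | tail _ h ih => exact ih.tail (h.app p q)

theorem push_Sts : ∀ (st : List A) (s : A),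
    ReflTransGen (St ρ) (st.reverse ++ [s]) (push ρ st s).reverse := by
  intro st
  induction st with
  | nil => intro s; simp [push, ReflTransGen.refl]
  | cons t st ih =>
    intro s
    rcases hq : ρ t s with _ | q
    · rw [push_none hq]
      simp [ReflTransGen.refl]
    · rw [push_some hq]
      refine ReflTransGen.head ?_ (ih q)
      exact ⟨st.reverse, [], t, s, q, hq, by simp, by simp⟩

theorem run_Sts' : ∀ (w : List A) (st : List A),
    ReflTransGen (St ρ) (st.reverse ++ w) (run ρ st w).reverse := by
  intro w
  induction w with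
  | nil => intro st; simp [run, ReflTransGen.refl]
  | cons s w ih =>
    intro st
    rw [run_cons]
    refine ReflTransGen.trans ?_ (ih _)
    have := Sts.app (push_Sts (ρ := ρ) st s) [] w
    simpa using this

/-- every word reduces to its normal form -/
theorem nf_Sts (w : List A) : ReflTransGen (St ρ) w (run ρ [] w).reverse := by
  have := run_Sts' (ρ := ρ) w []
  simpa using this

theorem confluent (hc : CP ρ) {u v w : List A} (h1 : ReflTransGen (St ρ) u v)
    (h2 : ReflTransGen (St ρ) u w) :
    ∃ z, ReflTransGen (St ρ) v z ∧ ReflTransGen (St ρ) w z := by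
  refine ⟨(run ρ [] u).reverse, ?_, ?_⟩
  · rw [run_Sts hc h1]
    exact nf_Sts v
  · rw [run_Sts hc h2]
    exact nf_Sts w

/-- the relations of the monoid, as a relation on the free monoid -/
def rel (ρ : A → A → Option A) (x y : FreeMonoid A) : Prop :=
  ∃ s t r, ρ s t = some r ∧ x = FreeMonoid.ofList [s, t] ∧ y = FreeMonoid.ofList [r]

/-- the congruence of having the same action on stacks -/
def actCon (ρ : A → A → Option A) : Con (FreeMonoid A) where
  r x y := ∀ st, run ρ st (FreeMonoid.toList x) = run ρ st (FreeMonoid.toList y)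
  iseqv := ⟨fun _ _ => rfl, fun h st => (h st).symm, fun h h' st => (h st).trans (h' st)⟩
  mul' := by
    intro w x y z h h' st
    rw [FreeMonoid.toList_mul, FreeMonoid.toList_mul, run_append, run_append, h, h']

theorem conGen_le (hc : CP ρ) : conGen (rel ρ) ≤ actCon ρ := by
  refine Con.conGen_le.2 ?_
  rintro x y ⟨s, t, r, h, rfl, rfl⟩ st
  simp only [FreeMonoid.toList_ofList]
  rw [run_cons, run_cons, run_cons, push_push hc _ s t r h]

theorem St.con {x y : List A} (h : St ρ x y) :
    conGen (rel ρ) (FreeMonoid.ofList x) (FreeMonoid.ofList y) := by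
  obtain ⟨u, v, s, t, r, hr, rfl, rfl⟩ := h
  have h1 : conGen (rel ρ) (FreeMonoid.ofList [s, t]) (FreeMonoid.ofList [r]) :=
    ConGen.Rel.of _ _ ⟨s, t, r, hr, rfl, rfl⟩
  have h2 := (conGen (rel ρ)).mul ((conGen (rel ρ)).mul
    ((conGen (rel ρ)).refl (FreeMonoid.ofList u)) h1) ((conGen (rel ρ)).refl (FreeMonoid.ofList v))
  have e1 : FreeMonoid.ofList u * FreeMonoid.ofList [s, t] * FreeMonoid.ofList v =
      FreeMonoid.ofList (u ++ s :: t :: v) := by
    rw [← FreeMonoid.ofList_append, ← FreeMonoid.ofList_append]; simp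
  have e2 : FreeMonoid.ofList u * FreeMonoid.ofList [r] * FreeMonoid.ofList v =
      FreeMonoid.ofList (u ++ r :: v) := by
    rw [← FreeMonoid.ofList_append, ← FreeMonoid.ofList_append]; simp
  rw [e1, e2] at h2
  exact h2

theorem Sts.con {x y : List A} (h : ReflTransGen (St ρ) x y) :
    conGen (rel ρ) (FreeMonoid.ofList x) (FreeMonoid.ofList y) := by
  induction h with
  | refl => exact (conGen (rel ρ)).refl _
  | tail _ h ih => exact (conGen (rel ρ)).trans ih h.con

theorem con_iff (hc : CP ρ) (x y : List A) :
    conGen (rel ρ) (FreeMonoid.ofList x) (FreeMonoid.ofList y) ↔ run ρ [] x = run ρ [] y := by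
  constructor
  · intro h
    have := conGen_le hc h []
    simpa using this
  · intro h
    have h1 := Sts.con (nf_Sts (ρ := ρ) x)
    have h2 := Sts.con (nf_Sts (ρ := ρ) y)
    rw [h] at h1
    exact (conGen (rel ρ)).trans h1 ((conGen (rel ρ)).symm h2)

/-- transport of a system along a bijection of the alphabets -/
def tr {A B : Type} (ρ : A → A → Option A) (e : A ≃ B) (i j : B) : Option B :=
  (ρ (e.symm i) (e.symm j)).map e

theorem CP_tr {A B : Type} {ρ : A → A → Option A} (hc : CP ρ) (e : A ≃ B) : CP (tr ρ e) := by
  intro h s t q r h1 h2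
  simp only [tr, Option.map_eq_some_iff] at h1 h2
  obtain ⟨q', hq', rfl⟩ := h1
  obtain ⟨r', hr', rfl⟩ := h2
  obtain ⟨w, hw1, hw2⟩ := hc _ _ _ _ _ hq' hr'
  exact ⟨e w, by simp [tr, hw1], by simp [tr, hw2]⟩

theorem push_tr {A B : Type} {ρ : A → A → Option A} (e : A ≃ B) : ∀ (st : List A) (s : A),
    push (tr ρ e) (st.map e) (e s) = (push ρ st s).map e := by
  intro st
  induction st with
  | nil => intro s; simp [push]
  | cons t st ih =>
    intro s
    rcases hq : ρ t s with _ | q
    · rw [push_none hq, List.map_cons, push_none (by simp [tr, hq])]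
      simp
    · rw [push_some hq, List.map_cons, push_some (r := e q) (by simp [tr, hq])]
      exact ih q

theorem run_tr {A B : Type} {ρ : A → A → Option A} (e : A ≃ B) : ∀ (w : List A) (st : List A),
    run (tr ρ e) (st.map e) (w.map e) = (run ρ st w).map e := by
  intro w
  induction w with
  | nil => intro st; rfl
  | cons s w ih =>
    intro st
    rw [List.map_cons, run_cons, run_cons, push_tr, ih]

/-! ### Finite subsystems -/

/-- `ρ'` is the restriction of `ρ` along `g` -/
def Res {A B : Type} (ρ : A → A → Option A) (ρ' : B → B → Option B) (g : B → A) : Prop :=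
  Function.Injective g ∧ ∀ i j, (ρ' i j).map g = ρ (g i) (g j)

theorem Res.cp {A B : Type} {ρ : A → A → Option A} {ρ' : B → B → Option B} {g : B → A}
    (h : Res ρ ρ' g) (hc : CP ρ) : CP ρ' := by
  intro i s t q r h1 h2
  have e1 := h.2 i s
  have e2 := h.2 s t
  rw [h1, Option.map_some] at e1
  rw [h2, Option.map_some] at e2
  obtain ⟨w, f1, f2⟩ := hc _ _ _ _ _ e1.symm e2.symm
  rw [← h.2] at f1 f2
  obtain ⟨w1, g1, g2⟩ := Option.map_eq_some_iff.1 f1
  obtain ⟨w2, g3, g4⟩ := Option.map_eq_some_iff.1 f2
  have : w1 = w2 := h.1 (g2.trans g4.symm)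
  subst this
  exact ⟨w1, g1, g3⟩

theorem Res.push {A B : Type} {ρ : A → A → Option A} {ρ' : B → B → Option B} {g : B → A}
    (h : Res ρ ρ' g) : ∀ (st : List B) (s : B),
    push ρ (st.map g) (g s) = (push ρ' st s).map g := by
  intro st
  induction st with
  | nil => intro s; rfl
  | cons t st ih =>
    intro s
    rcases hq : ρ' t s with _ | q
    · rw [push_none hq, List.map_cons, push_none (by rw [← h.2, hq]; rfl)]
      simp
    · rw [push_some hq, List.map_cons, push_some (r := g q) (by rw [← h.2, hq]; rfl)]
      exact ih q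

theorem Res.run {A B : Type} {ρ : A → A → Option A} {ρ' : B → B → Option B} {g : B → A}
    (h : Res ρ ρ' g) : ∀ (w : List B) (st : List B),
    run ρ (st.map g) (w.map g) = (run ρ' st w).map g := by
  intro w
  induction w with
  | nil => intro st; rfl
  | cons s w ih =>
    intro st
    rw [List.map_cons, run_cons, run_cons, h.push, ih]

theorem exists_res {A : Type} (ρ : A → A → Option A) (S : Set A) (hS : S.Finite)
    (hcl : ∀ s ∈ S, ∀ t ∈ S, ∀ r, ρ s t = some r → r ∈ S) :
    ∃ (n : ℕ) (ρ' : Fin n → Fin n → Option (Fin n)) (g : Fin n → A), Res ρ ρ' g ∧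
      Set.range g = S := by
  classical
  have := hS.to_subtype
  obtain ⟨n, ⟨e⟩⟩ := Finite.exists_equiv_fin S
  refine ⟨n, fun i j => if h : ∃ k : Fin n, ρ (e.symm i) (e.symm j) = some ((e.symm k : S) : A)
    then some h.choose else none, fun i => (e.symm i : S), ⟨?_, ?_⟩, ?_⟩
  · intro i j h
    exact e.symm.injective (Subtype.ext h)
  · intro i j
    by_cases h : ∃ k : Fin n, ρ (e.symm i) (e.symm j) = some ((e.symm k : S) : A)
    · simp only [dif_pos h, Option.map_some]
      exact h.choose_spec.symm
    · simp only [dif_neg h, Option.map_none]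
      rcases hr : ρ (e.symm i) (e.symm j) with _ | r
      · rfl
      · exfalso
        apply h
        have := hcl _ (e.symm i).2 _ (e.symm j).2 r hr
        exact ⟨e ⟨r, this⟩, by rw [hr]; simp⟩
  · ext x
    constructor
    · rintro ⟨i, rfl⟩
      exact (e.symm i).2
    · intro hx
      exact ⟨e ⟨x, hx⟩, by simp⟩

/-- the list of rules -/
def rules {n : ℕ} (ρ : Fin n → Fin n → Option (Fin n)) : List (List (Fin n) × List (Fin n)) :=
  (List.finRange n).flatMap fun s => (List.finRange n).filterMap fun t =>
    (ρ s t).map fun r => ([s, t], [r])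

theorem mem_rules {n : ℕ} {ρ : Fin n → Fin n → Option (Fin n)} {p : List (Fin n) × List (Fin n)} :
    p ∈ rules ρ ↔ ∃ s t r, ρ s t = some r ∧ p = ([s, t], [r]) := by
  simp only [rules, List.mem_flatMap, List.mem_finRange, true_and, List.mem_filterMap,
    Option.map_eq_some_iff]
  constructor
  · rintro ⟨s, t, r, h, rfl⟩
    exact ⟨s, t, r, h, rfl⟩
  · rintro ⟨s, t, r, h, rfl⟩
    exact ⟨s, t, r, h, rfl⟩

end Pool.Agent.R659.TwoOne
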