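import Mathlib
import Pool.Agent.R659.TwoOne
import Pool.Agent.R659.QFam

/-!
A system with rules `two letters → one letter` in which p-conjugacy encodes the runs of a
two-letter block queue system.
-/

set_option autoImplicit false

namespace Pool.Agent.R659.PConj

open Relation Pool.Agent.R659.TwoOne Pool.Agent.Helper247.Queue

/-- letters: queue letters, pairs of queue letters, two kinds of states, zero -/
inductive Lt (G : Type) : Type
  | a (x : G) : Lt G
  | v (x y : G) : Lt G
  | c (l : List G) : Lt G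
  | d (l : List G) : Lt G
  | z : Lt G

open Lt

variable {G : Type} [DecidableEq G] (P : G → G → List G)

/-- the rules -/
def rho : Lt G → Lt G → Option (Lt G)
  | .z, _ => some .z
  | _, .z => some .z
  | .c _, .d _ => some .z
  | .d _, .c _ => some .z
  | .v x y, .d [] => some (.d [x, y])
  | .d (x :: l), .a y => if x = y then some (.d l) else none
  | .c [], .v x y => some (.c (P x y).reverse)
  | .a y, .c (x :: l) => if x = y then some (.c l) else none
  | _, _ => none

theorem rho_CP : CP (rho P) := by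
  intro h s t q r h1 h2
  rcases h with x | ⟨x, y⟩ | (_ | ⟨x, l⟩) | (_ | ⟨x, l⟩) | _ <;>
  rcases s with x' | ⟨x', y'⟩ | (_ | ⟨x', l'⟩) | (_ | ⟨x', l'⟩) | _ <;>
    rcases t with x'' | ⟨x'', y''⟩ | (_ | ⟨x'', l''⟩) | (_ | ⟨x'', l''⟩) | _ <;>
    simp only [rho, reduceCtorEq, Option.some.injEq, Option.ite_none_right_eq_some] at h1 h2 <;>
    (try (obtain ⟨_, h1⟩ := h1)) <;> (try (obtain ⟨_, h2⟩ := h2)) <;>
    (try subst h1) <;> (try subst h2) <;>
    simp [rho]

/-- the result of a rule is a state or zero; if it is not zero the rule is of one of four kinds -/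
theorem rho_cases {s t r : Lt G} (h : rho P s t = some r) : r = .z ∨
    (∃ x y, s = .v x y ∧ t = .d [] ∧ r = .d [x, y]) ∨
    (∃ x l, s = .d (x :: l) ∧ t = .a x ∧ r = .d l) ∨
    (∃ x y, s = .c [] ∧ t = .v x y ∧ r = .c (P x y).reverse) ∨
    (∃ x l, s = .a x ∧ t = .c (x :: l) ∧ r = .c l) := by
  rcases s with x | ⟨x, y⟩ | (_ | ⟨x, l⟩) | (_ | ⟨x, l⟩) | _ <;>
    rcases t with x' | ⟨x', y'⟩ | (_ | ⟨x', l'⟩) | (_ | ⟨x', l'⟩) | _ <;>
    simp only [rho, reduceCtorEq, Option.some.injEq, Option.ite_none_right_eq_some] at h <;>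
    (try (obtain ⟨h', h⟩ := h; subst h')) <;> (try subst h) <;> simp

/-- the pair letter -/
def vv (p : G × G) : Lt G := .v p.1 p.2

/-- the word of a list of pairs -/
def flat (V : List (G × G)) : List G := V.flatMap fun p => [p.1, p.2]

/-- the produced word of a list of pairs -/
def Pf (V : List (G × G)) : List G := V.flatMap fun p => P p.1 p.2

/-- words which reduce to the word of the configuration `w` -/
def Good (w : List G) (W : List (Lt G)) : Prop :=
  ∃ (α γ : List (G × G)) (l β l' : List G),
    W = α.map vv ++ .d l :: (β.map .a ++ .c l' :: γ.map vv) ∧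
    β = l ++ flat α.reverse ++ w ++ Pf P γ.reverse ++ l'.reverse

/-- the word of a configuration -/
def aw (w : List G) : List (Lt G) := .d [] :: (w.map .a ++ [.c []])

omit [DecidableEq G] in
theorem good_aw (w : List G) : Good P w (aw w) :=
  ⟨[], [], [], w, [], by simp [aw], by simp [flat, Pf]⟩

theorem uniq {A : Type} (p : A → Prop) {r y : A} (hr : p r) (hy : p y) :
    ∀ {u v X Y : List A}, (∀ x ∈ X, ¬ p x) → (∀ x ∈ Y, ¬ p x) → u ++ r :: v = X ++ y :: Y →
      u = X ∧ r = y ∧ v = Y := by
  intro u
  induction u with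
  | nil =>
    intro v X Y hX hY h
    rcases X with _ | ⟨x, X⟩
    · simp only [List.nil_append, List.cons.injEq] at h
      exact ⟨rfl, h.1, h.2⟩
    · simp only [List.nil_append, List.cons_append, List.cons.injEq] at h
      exact absurd (h.1 ▸ hr) (hX x (by simp))
  | cons a u ih =>
    intro v X Y hX hY h
    rcases X with _ | ⟨x, X⟩
    · simp only [List.nil_append, List.cons_append, List.cons.injEq] at h
      exact absurd hr (hY r (by rw [← h.2]; simp))
    · simp only [List.cons_append, List.cons.injEq] at h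
      obtain ⟨h1, h2⟩ := h
      obtain ⟨h3, h4, h5⟩ := ih (fun x' hx' => hX x' (by simp [hx'])) hY h2
      exact ⟨by rw [h1, h3], h4, h5⟩

/-- being a state of the second kind -/
def isD : Lt G → Prop
  | .d _ => True
  | _ => False

/-- being a state of the first kind -/
def isC : Lt G → Prop
  | .c _ => True
  | _ => False

omit [DecidableEq G] in
theorem vv_notD (α : List (G × G)) : ∀ x ∈ α.map vv, ¬ isD x := by
  intro x hx
  obtain ⟨p, _, rfl⟩ := List.mem_map.1 hx
  simp [vv, isD]

omit [DecidableEq G] in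
theorem vv_notC (α : List (G × G)) : ∀ x ∈ α.map vv, ¬ isC x := by
  intro x hx
  obtain ⟨p, _, rfl⟩ := List.mem_map.1 hx
  simp [vv, isC]

omit [DecidableEq G] in
theorem rest_notD (β l' : List G) (γ : List (G × G)) :
    ∀ x ∈ β.map Lt.a ++ .c l' :: γ.map vv, ¬ isD x := by
  intro x hx
  simp only [List.mem_append, List.mem_map, List.mem_cons] at hx
  rcases hx with ⟨y, _, rfl⟩ | rfl | ⟨p, _, rfl⟩ <;> simp [isD, vv]

omit [DecidableEq G] in
theorem front_notC (α : List (G × G)) (l β : List G) :
    ∀ x ∈ α.map vv ++ .d l :: β.map Lt.a, ¬ isC x := by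
  intro x hx
  simp only [List.mem_append, List.mem_map, List.mem_cons] at hx
  rcases hx with ⟨p, _, rfl⟩ | rfl | ⟨y, _, rfl⟩ <;> simp [isC, vv]

omit [DecidableEq G] in
theorem vv_inj : Function.Injective (vv : G × G → Lt G) := by
  rintro ⟨x, y⟩ ⟨x', y'⟩ h
  simp only [vv, Lt.v.injEq] at h
  exact Prod.ext h.1 h.2

omit [DecidableEq G] in
theorem a_inj : Function.Injective (Lt.a : G → Lt G) := by
  intro x y h
  simpa using h

theorem good_back {w : List G} {W W' : List (Lt G)} (h : St (rho P) W W') (hg : Good P w W') :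
    Good P w W := by
  obtain ⟨u, v, s, t, r, hr, rfl, rfl⟩ := h
  obtain ⟨α, γ, l, β, l', hW, hβ⟩ := hg
  rcases rho_cases P hr with rfl | ⟨x, y, rfl, rfl, rfl⟩ | ⟨x, m, rfl, rfl, rfl⟩ |
    ⟨x, y, rfl, rfl, rfl⟩ | ⟨x, m, rfl, rfl, rfl⟩
  · exfalso
    have : (Lt.z : Lt G) ∈ α.map vv ++ .d l :: (β.map .a ++ .c l' :: γ.map vv) := by
      rw [← hW]; simp
    simp [vv] at this
  · obtain ⟨h1, h2, h3⟩ := uniq isD (r := .d [x, y]) (y := .d l) trivial trivial (vv_notD α)
      (rest_notD β l' γ) hW
    subst h1 h3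
    simp only [Lt.d.injEq] at h2
    subst h2
    refine ⟨α ++ [(x, y)], γ, [], β, l', by simp [vv], ?_⟩
    rw [hβ]
    simp [flat]
  · obtain ⟨h1, h2, h3⟩ := uniq isD (r := .d m) (y := .d l) trivial trivial (vv_notD α)
      (rest_notD β l' γ) hW
    subst h1 h3
    simp only [Lt.d.injEq] at h2
    subst h2
    refine ⟨α, γ, x :: m, x :: β, l', by simp, ?_⟩
    rw [hβ]
    simp
  · have hW' : u ++ .c (P x y).reverse :: v = (α.map vv ++ .d l :: β.map .a) ++
        .c l' :: γ.map vv := by rw [hW]; simp
    obtain ⟨h1, h2, h3⟩ := uniq isC (r := .c (P x y).reverse) (y := .c l') trivial trivial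
      (front_notC α l β) (vv_notC γ) hW'
    subst h1 h3
    simp only [Lt.c.injEq] at h2
    subst h2
    refine ⟨α, (x, y) :: γ, l, β, [], by simp [vv], ?_⟩
    rw [hβ]
    simp [Pf]
  · have hW' : u ++ .c m :: v = (α.map vv ++ .d l :: β.map .a) ++
        .c l' :: γ.map vv := by rw [hW]; simp
    obtain ⟨h1, h2, h3⟩ := uniq isC (r := .c m) (y := .c l') trivial trivial
      (front_notC α l β) (vv_notC γ) hW'
    subst h1 h3
    simp only [Lt.c.injEq] at h2
    subst h2
    refine ⟨α, γ, l, β ++ [x], x :: m, by simp, ?_⟩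
    rw [hβ]
    simp

theorem good_of_reach {w : List G} {W : List (Lt G)} (h : ReflTransGen (St (rho P)) W (aw w)) :
    Good P w W := by
  induction h using ReflTransGen.head_induction_on with
  | refl => exact good_aw P w
  | head h _ ih => exact good_back P h ih

theorem run_a (w : List G) : ∀ (st : List (Lt G)), (∀ l, st.head? ≠ some (.d l) ∨ l = []) →
    st.head? ≠ some .z →
    run (rho P) st (w.map .a) = (w.map .a).reverse ++ st := by
  induction w with
  | nil => intro st _ _; rfl
  | cons x w ih =>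
    intro st h1 h2
    rw [List.map_cons, run_cons]
    have hp : push (rho P) st (.a x) = .a x :: st := by
      rcases st with _ | ⟨t, st⟩
      · rfl
      · apply push_none
        rcases t with x' | ⟨x', y'⟩ | (_ | ⟨x', l'⟩) | (_ | ⟨x', l'⟩) | _
        all_goals first | rfl | skip
        · exfalso
          rcases h1 (x' :: l') with h | h
          · exact h rfl
          · exact absurd h (by simp)
        · exact absurd rfl h2
    rw [hp, ih _ (by simp) (by simp)]
    simp

theorem nf_aw {w : List G} (hw : w ≠ []) : run (rho P) [] (aw w) = (aw w).reverse := by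
  unfold aw
  rw [run_cons, run_append]
  have h1 : push (rho P) [] (.d []) = [.d []] := rfl
  rw [h1, run_a P w _ (by intro l; rcases l with _ | ⟨l0, l⟩ <;> simp) (by simp)]
  obtain ⟨w', x, rfl⟩ : ∃ w' x, w = w' ++ [x] := by
    obtain ⟨l, b, h⟩ := List.eq_nil_or_concat w |>.resolve_left hw
    exact ⟨l, b, by simpa using h⟩
  simp [run, push, rho]

theorem good_of_run {w : List G} {W : List (Lt G)} (hw : w ≠ [])
    (h : run (rho P) [] W = run (rho P) [] (aw w)) : Good P w W := by
  apply good_of_reach
  have := nf_Sts (ρ := rho P) W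
  rw [h, nf_aw P hw, List.reverse_reverse] at this
  exact this

omit [DecidableEq G] in
theorem queue_of_eq {K : G} (hP1 : ∀ x y, 2 ≤ (P x y).length ∨ P x y = [K])
    (hP2 : ∀ y, (P K y).head? ≠ some y) : ∀ (V : List (G × G)) (w : List G),
      (2 ≤ w.length ∨ w = [K]) → w ++ Pf P V = flat V ++ [K] → QReach P w [K] := by
  intro V
  induction V with
  | nil =>
    intro w _ h
    simp only [Pf, flat, List.flatMap_nil, List.append_nil, List.nil_append] at h
    rw [h]
  | cons p V ih =>
    obtain ⟨x, y⟩ := p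
    intro w hw h
    simp only [Pf, flat, List.flatMap_cons, List.cons_append, List.nil_append] at h
    rcases hw with hw | rfl
    · match w, hw, h with
      | p0 :: p1 :: t, hw, h =>
        simp only [List.cons_append, List.cons.injEq] at h
        obtain ⟨rfl, rfl, h⟩ := h
        refine ReflTransGen.head (QStep.mk p0 p1 t) (ih (t ++ P p0 p1) ?_ ?_)
        · rcases hP1 p0 p1 with h1 | h1
          · left; rw [List.length_append]; omega
          · rw [h1]
            rcases t with _ | ⟨t0, t⟩
            · right; rfl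
            · left; simp
        · simp only [Pf, flat, List.append_assoc]
          exact h
    · exfalso
      simp only [List.cons_append, List.nil_append, List.cons.injEq] at h
      obtain ⟨rfl, h⟩ := h
      apply hP2 y
      rcases hP : P K y with _ | ⟨b, l⟩
      · rcases hP1 K y with h1 | h1 <;> simp [hP] at h1
      · rw [hP] at h
        simp only [List.cons_append, List.cons.injEq] at h
        rw [h.1]
        rfl

omit [DecidableEq G] in
theorem eq_of_queue {K : G} {w : List G} (h : QReach P w [K]) :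
    ∃ V, w ++ Pf P V = flat V ++ [K] := by
  induction h using ReflTransGen.head_induction_on with
  | refl => exact ⟨[], rfl⟩
  | head h _ ih =>
    obtain ⟨V, hV⟩ := ih
    cases h with
    | mk x y t =>
      refine ⟨(x, y) :: V, ?_⟩
      simp only [Pf, flat, List.flatMap_cons, List.cons_append, List.nil_append] at hV ⊢
      rw [← hV]
      simp

/-- p-conjugacy in terms of words -/
def PC {A : Type} (ρ : A → A → Option A) (a b : List A) : Prop :=
  ∃ x y : List A, run ρ [] (x ++ y) = run ρ [] a ∧ run ρ [] (y ++ x) = run ρ [] b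

theorem sound {K : G} (hP1 : ∀ x y, 2 ≤ (P x y).length ∨ P x y = [K])
    (hP2 : ∀ y, (P K y).head? ≠ some y) {w : List G} (hw : 2 ≤ w.length)
    (h : PC (rho P) (aw w) (aw [K])) : QReach P w [K] := by
  obtain ⟨x, y, h1, h2⟩ := h
  have hw0 : w ≠ [] := by rintro rfl; simp at hw
  have g1 := good_of_run P hw0 h1
  have g2 := good_of_run P (w := [K]) (by simp) h2
  obtain ⟨α, γ, l, β, l', e1, hβ⟩ := g1
  obtain ⟨α2, γ2, l2, β2, l2', e2, hβ2⟩ := g2
  -- the two states lie in `y`
  have caseY : ∀ α1 αr : List (G × G), x = α1.map vv → α = α1 ++ αr →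
      y = αr.map vv ++ .d l :: (β.map .a ++ .c l' :: γ.map vv) → QReach P w [K] := by
    rintro α1 αr rfl rfl rfl
    have e3 : αr.map vv ++ .d l :: (β.map .a ++ .c l' :: (γ ++ α1).map vv) =
        α2.map vv ++ .d l2 :: (β2.map .a ++ .c l2' :: γ2.map vv) := by
      rw [← e2]; simp
    obtain ⟨i1, i2, i3⟩ := uniq isD (r := .d l) (y := .d l2) trivial trivial (vv_notD α2)
      (rest_notD β2 l2' γ2) e3
    obtain ⟨i4, i5, i6⟩ := uniq isC (r := .c l') (y := .c l2') trivial trivial
      (fun z hz => by
        obtain ⟨g, _, rfl⟩ := List.mem_map.1 hz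
        simp [isC]) (vv_notC γ2) i3
    have i1' := List.map_injective_iff.2 vv_inj i1
    have i4' := List.map_injective_iff.2 a_inj i4
    have i6' := List.map_injective_iff.2 vv_inj i6
    simp only [Lt.d.injEq, Lt.c.injEq] at i2 i5
    subst i2 i5 i1' i4'
    rw [← i6'] at hβ2
    rw [hβ2] at hβ
    simp only [List.reverse_append, flat, Pf, List.flatMap_append, List.append_assoc] at hβ
    have hβ' := List.append_cancel_left hβ
    have hβ'' := List.append_cancel_left hβ'
    -- `K ++ P(α1) ... = flat α1 ++ w ++ ...`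
    have key : [K] ++ Pf P α1.reverse = flat α1.reverse ++ w := by
      have h3 : ([K] ++ Pf P α1.reverse) ++ (Pf P γ.reverse ++ l'.reverse) =
          (flat α1.reverse ++ w) ++ (Pf P γ.reverse ++ l'.reverse) := by
        simpa [Pf, flat] using hβ''
      exact List.append_cancel_right h3
    rcases hα : α1.reverse with _ | ⟨⟨p, q⟩, V⟩
    · rw [hα] at key
      simp only [Pf, flat, List.flatMap_nil, List.append_nil, List.nil_append] at key
      rw [← key] at hw
      simp at hw
    · exfalso
      rw [hα] at key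
      simp only [Pf, flat, List.flatMap_cons, List.cons_append, List.nil_append,
        List.cons.injEq] at key
      obtain ⟨rfl, key⟩ := key
      apply hP2 q
      rcases hP : P K q with _ | ⟨b, m⟩
      · rcases hP1 K q with h1 | h1 <;> simp [hP] at h1
      · rw [hP] at key
        simp only [List.cons_append, List.cons.injEq] at key
        rw [key.1]
        rfl
  -- the two states lie in `x`
  have caseX : ∀ γ1 γr : List (G × G), y = γr.map vv → γ = γ1 ++ γr →
      x = α.map vv ++ .d l :: (β.map .a ++ .c l' :: γ1.map vv) → QReach P w [K] := by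
    rintro γ1 γr rfl rfl rfl
    have e3 : (γr ++ α).map vv ++ .d l :: (β.map .a ++ .c l' :: γ1.map vv) =
        α2.map vv ++ .d l2 :: (β2.map .a ++ .c l2' :: γ2.map vv) := by
      rw [← e2]; simp
    obtain ⟨i1, i2, i3⟩ := uniq isD (r := .d l) (y := .d l2) trivial trivial (vv_notD α2)
      (rest_notD β2 l2' γ2) e3
    obtain ⟨i4, i5, i6⟩ := uniq isC (r := .c l') (y := .c l2') trivial trivial
      (fun z hz => by
        obtain ⟨g, _, rfl⟩ := List.mem_map.1 hz
        simp [isC]) (vv_notC γ2) i3
    have i1' := List.map_injective_iff.2 vv_inj i1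
    have i4' := List.map_injective_iff.2 a_inj i4
    have i6' := List.map_injective_iff.2 vv_inj i6
    simp only [Lt.d.injEq, Lt.c.injEq] at i2 i5
    subst i2 i5 i6' i4'
    rw [← i1'] at hβ2
    rw [hβ2] at hβ
    have key : w ++ Pf P γr.reverse = flat γr.reverse ++ [K] := by
      have h3 : (l ++ flat α.reverse) ++ ((w ++ Pf P γr.reverse) ++
          (Pf P γ1.reverse ++ l'.reverse)) =
          (l ++ flat α.reverse) ++ ((flat γr.reverse ++ [K]) ++
            (Pf P γ1.reverse ++ l'.reverse)) := by
        simpa [Pf, flat] using hβ.symm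
      exact List.append_cancel_right (List.append_cancel_left h3)
    exact queue_of_eq P hP1 hP2 _ w (Or.inl hw) key
  -- one state lies in `x`, the other in `y`
  have caseM : ∀ y1 y2 x1 x2 : List (Lt G), y = y1 ++ .c l' :: y2 → x = x1 ++ .d l :: x2 →
      False := by
    rintro y1 y2 x1 x2 rfl rfl
    have e3 : (y1 ++ .c l' :: y2 ++ x1) ++ .d l :: x2 =
        α2.map vv ++ .d l2 :: (β2.map .a ++ .c l2' :: γ2.map vv) := by
      rw [← e2]; simp
    obtain ⟨i1, i2, i3⟩ := uniq isD (r := .d l) (y := .d l2) trivial trivial (vv_notD α2)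
      (rest_notD β2 l2' γ2) e3
    refine vv_notC α2 (.c l') ?_ trivial
    rw [← i1]
    simp
  rcases List.append_eq_append_iff.1 e1 with ⟨a', ha, hy⟩ | ⟨c', hx, hc⟩
  · obtain ⟨α1, αr, rfl, hx1, hx2⟩ := List.map_eq_append_iff.1 ha
    exact caseY α1 αr hx1.symm rfl (by rw [hy, hx2])
  · rcases c' with _ | ⟨c0, c''⟩
    · refine caseY α [] (by simpa using hx) (by simp) ?_
      simpa using hc.symm
    · simp only [List.cons_append, List.cons.injEq] at hc
      obtain ⟨hc0, hc⟩ := hc
      subst hc0
      rcases List.append_eq_append_iff.1 hc with ⟨b', hb, hy⟩ | ⟨b', hb, hy⟩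
      · rcases b' with _ | ⟨b0, b''⟩
        · exact (caseM [] (γ.map vv) (α.map vv) c'' (by simpa using hy.symm) hx).elim
        · simp only [List.cons_append, List.cons.injEq] at hy
          obtain ⟨hb0, hy⟩ := hy
          subst hb0
          obtain ⟨γ1, γr, h1, h2, h3⟩ := List.map_eq_append_iff.1 hy
          exact caseX γ1 γr h3.symm h1 (by rw [hx, hb, h2])
      · exact (caseM b' (γ.map vv) (α.map vv) c'' hy hx).elim

theorem St.of {s t r : Lt G} (h : rho P s t = some r) (u v : List (Lt G)) :
    St (rho P) (u ++ s :: t :: v) (u ++ r :: v) := ⟨u, v, s, t, r, h, rfl, rfl⟩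

theorem absorb_c : ∀ (l : List G) (u v : List (Lt G)),
    ReflTransGen (St (rho P)) (u ++ (l.map .a ++ .c l.reverse :: v)) (u ++ .c [] :: v) := by
  intro l
  induction l using List.reverseRecOn with
  | nil => intro u v; exact ReflTransGen.refl
  | append_singleton l x ih =>
    intro u v
    refine ReflTransGen.head ?_ (ih u v)
    have := St.of P (s := .a x) (t := .c (x :: l.reverse)) (r := .c l.reverse) (by simp [rho])
      (u ++ l.map .a) v
    simpa using this

theorem absorb_d : ∀ (l : List G) (u v : List (Lt G)),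
    ReflTransGen (St (rho P)) (u ++ .d l :: (l.map .a ++ v)) (u ++ .d [] :: v) := by
  intro l
  induction l with
  | nil => intro u v; exact ReflTransGen.refl
  | cons x l ih =>
    intro u v
    refine ReflTransGen.head ?_ (ih u v)
    have := St.of P (s := .d (x :: l)) (t := .a x) (r := .d l) (by simp [rho])
      u (l.map .a ++ v)
    simpa using this

theorem right_red : ∀ (U : List (G × G)) (u : List (Lt G)) (w : List G),
    ReflTransGen (St (rho P)) (u ++ ((w ++ Pf P U.reverse).map .a ++ .c [] :: U.map vv))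
      (u ++ (w.map .a ++ [.c []])) := by
  intro U
  induction U with
  | nil => intro u w; simp [Pf, ReflTransGen.refl]
  | cons p U ih =>
    intro u w
    refine ReflTransGen.trans ?_ (ih u w)
    have e1 : Pf P (p :: U).reverse = Pf P U.reverse ++ P p.1 p.2 := by simp [Pf]
    rw [e1]
    refine ReflTransGen.head ?_ ?_ (b := u ++ ((w ++ Pf P U.reverse).map .a ++
      ((P p.1 p.2).map .a ++ .c (P p.1 p.2).reverse :: U.map vv)))
    · have := St.of P (s := .c []) (t := .v p.1 p.2) (r := .c (P p.1 p.2).reverse)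
        (by simp [rho]) (u ++ (w ++ Pf P U.reverse ++ P p.1 p.2).map .a) (U.map vv)
      simpa [vv] using this
    · have := absorb_c P (P p.1 p.2) (u ++ (w ++ Pf P U.reverse).map .a) (U.map vv)
      simpa using this

theorem left_red : ∀ (V : List (G × G)) (v : List (Lt G)),
    ReflTransGen (St (rho P)) (V.reverse.map vv ++ .d [] :: ((flat V).map .a ++ v))
      (.d [] :: v) := by
  intro V
  induction V with
  | nil => intro v; simp [flat, ReflTransGen.refl]
  | cons p V ih =>
    intro v
    refine ReflTransGen.trans ?_ (ih v)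
    refine ReflTransGen.head ?_ ?_ (b := V.reverse.map vv ++ .d [p.1, p.2] ::
      ([p.1, p.2].map .a ++ ((flat V).map .a ++ v)))
    · have := St.of P (s := .v p.1 p.2) (t := .d []) (r := .d [p.1, p.2])
        (by simp [rho]) (V.reverse.map vv) ([p.1, p.2].map .a ++ ((flat V).map .a ++ v))
      simpa [vv, flat] using this
    · exact absorb_d P [p.1, p.2] (V.reverse.map vv) ((flat V).map .a ++ v)

/-- letters whose list has length at most `B` -/
def ok (B : ℕ) : Lt G → Prop
  | .c l => l.length ≤ B
  | .d l => l.length ≤ B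
  | _ => True

theorem complete {K : G} {w : List G} (h : QReach P w [K]) :
    ∃ X Y : List (Lt G), (∀ s ∈ X, ok 0 s) ∧ (∀ s ∈ Y, ok 0 s) ∧
      run (rho P) [] (X ++ Y) = run (rho P) [] (aw w) ∧
      run (rho P) [] (Y ++ X) = run (rho P) [] (aw [K]) := by
  obtain ⟨V, hV⟩ := eq_of_queue P h
  refine ⟨.d [] :: ((w ++ Pf P V).map .a ++ [.c []]), V.reverse.map vv, ?_, ?_, ?_, ?_⟩
  · intro s hs
    simp only [List.mem_cons, List.mem_append, List.mem_map, List.not_mem_nil, or_false] at hs
    rcases hs with rfl | ⟨y, _, rfl⟩ | rfl <;> simp [ok]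
  · intro s hs
    obtain ⟨y, _, rfl⟩ := List.mem_map.1 hs
    simp [ok, vv]
  · refine run_Sts (rho_CP P) ?_ []
    have := right_red P V.reverse [.d []] w
    simpa [aw] using this
  · refine run_Sts (rho_CP P) ?_ []
    rw [hV]
    have := left_red P V ([K].map .a ++ [.c []])
    simpa [aw] using this

theorem ok_finite (N B : ℕ) : {s : Lt (Fin N) | ok B s}.Finite := by
  have h1 : {l : List (Fin N) | l.length ≤ B}.Finite := List.finite_length_le _ _
  have h2 : (Set.range (Lt.a : Fin N → Lt (Fin N)) ∪ Set.range (vv : Fin N × Fin N → Lt (Fin N)) ∪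
      Lt.c '' {l : List (Fin N) | l.length ≤ B} ∪ Lt.d '' {l : List (Fin N) | l.length ≤ B} ∪
      {.z}).Finite :=
    ((((Set.finite_range _).union (Set.finite_range _)).union (h1.image _)).union
      (h1.image _)).union (Set.finite_singleton _)
  refine h2.subset ?_
  intro s hs
  rcases s with x | ⟨x, y⟩ | l | l | _
  · exact Or.inl (Or.inl (Or.inl (Or.inl ⟨x, rfl⟩)))
  · exact Or.inl (Or.inl (Or.inl (Or.inr ⟨(x, y), rfl⟩)))
  · exact Or.inl (Or.inl (Or.inr ⟨l, hs, rfl⟩))
  · exact Or.inl (Or.inr ⟨l, hs, rfl⟩)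
  · exact Or.inr rfl

theorem ok_closed {B : ℕ} (hB : 2 ≤ B) (hP : ∀ x y, (P x y).length ≤ B) :
    ∀ s ∈ {s : Lt G | ok B s}, ∀ t ∈ {s : Lt G | ok B s}, ∀ r, rho P s t = some r →
      r ∈ {s : Lt G | ok B s} := by
  intro s hs t ht r hr
  rcases rho_cases P hr with rfl | ⟨x, y, rfl, rfl, rfl⟩ | ⟨x, m, rfl, rfl, rfl⟩ |
    ⟨x, y, rfl, rfl, rfl⟩ | ⟨x, m, rfl, rfl, rfl⟩
  · trivial
  · exact hB
  · simp only [Set.mem_setOf_eq, ok, List.length_cons] at hs ⊢
    omega
  · simp only [Set.mem_setOf_eq, ok, List.length_reverse]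
    exact hP x y
  · simp only [Set.mem_setOf_eq, ok, List.length_cons] at ht ⊢
    omega

theorem ok_mono {B : ℕ} {s : Lt G} (h : ok 0 s) : ok B s := by
  rcases s with x | ⟨x, y⟩ | l | l | _ <;> simp only [ok] at h ⊢ <;> omega

theorem exists_lift {A B : Type} {g : B → A} {S : Set A} (hg : Set.range g = S) :
    ∀ (X : List A), (∀ s ∈ X, s ∈ S) → ∃ X' : List B, X'.map g = X := by
  intro X
  induction X with
  | nil => intro _; exact ⟨[], rfl⟩
  | cons x X ih =>
    intro h
    obtain ⟨X', h1⟩ := ih fun s hs => h s (by simp [hs])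
    have : x ∈ Set.range g := hg ▸ h x (by simp)
    obtain ⟨x', h2⟩ := this
    exact ⟨x' :: X', by simp [h1, h2]⟩

/-- the finite system -/
theorem finite_system : ∃ (n : ℕ) (ρ : Fin n → Fin n → Option (Fin n)) (b : List (Fin n))
    (f : ℕ → List (Fin n)), CP ρ ∧ Computable f ∧ ¬ ComputablePred fun k => PC ρ (f k) b := by
  obtain ⟨N, P, K, w, hw, hP1, hP2, hw2, hnc⟩ := QFam.exists_family
  obtain ⟨B, hB, hPB⟩ : ∃ B, 2 ≤ B ∧ ∀ x y, (P x y).length ≤ B := by
    obtain ⟨B, hB⟩ := (Set.finite_range (fun p : Fin N × Fin N => (P p.1 p.2).length)).bddAbove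
    exact ⟨max 2 B, le_max_left _ _, fun x y => (hB ⟨(x, y), rfl⟩).trans (le_max_right _ _)⟩
  obtain ⟨n, ρ, g, hres, hrange⟩ := exists_res (rho P) {s | ok B s} (ok_finite N B)
    (ok_closed P hB hPB)
  have hmem : ∀ s : Lt (Fin N), ok B s → ∃ i, g i = s := by
    intro s hs
    have : s ∈ Set.range g := by rw [hrange]; exact hs
    exact this
  obtain ⟨d0, hd0⟩ := hmem (.d []) (by simp [ok])
  obtain ⟨c0, hc0⟩ := hmem (.c []) (by simp [ok])
  choose a' ha' using fun x : Fin N => hmem (.a x) (by simp [ok])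
  let f' : List (Fin N) → List (Fin n) := fun w => d0 :: (w.map a' ++ [c0])
  have hf' : ∀ w, (f' w).map g = aw w := by
    intro w
    simp only [f', aw, List.map_cons, List.map_append, List.map_map, hd0, hc0, List.map_nil,
      List.cons.injEq, true_and, List.append_cancel_right_eq]
    exact List.map_congr_left fun x _ => ha' x
  have hcomp : Computable f' := by
    have h1 : Primrec a' := Primrec.dom_finite a'
    have h2 : Primrec (fun w : List (Fin N) => w.map a') :=
      Primrec.list_map Primrec.id (h1.comp Primrec.snd).to₂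
    exact (Primrec.list_cons.comp (Primrec.const d0)
      (Primrec.list_append.comp h2 (Primrec.const [c0]))).to_comp
  refine ⟨n, ρ, f' [K], fun k => f' (w k), hres.cp (rho_CP P), hcomp.comp hw, ?_⟩
  intro hdec
  apply hnc
  refine hdec.of_eq fun k => ?_
  have key : ∀ X W : List (Fin n), run ρ [] X = run ρ [] W ↔
      run (rho P) [] (X.map g) = run (rho P) [] (W.map g) := by
    intro X W
    have e1 := hres.run X []
    have e2 := hres.run W []
    rw [List.map_nil] at e1 e2
    rw [e1, e2]
    exact (List.map_injective_iff.2 hres.1).eq_iff.symm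
  constructor
  · rintro ⟨X, Y, h1, h2⟩
    rw [key, hf', List.map_append] at h1 h2
    exact sound P hP1 hP2 (hw2 k) ⟨_, _, h1, h2⟩
  · intro h
    obtain ⟨X, Y, hX, hY, h1, h2⟩ := complete P h
    obtain ⟨X', rfl⟩ := exists_lift hrange X fun s hs => ok_mono (hX s hs)
    obtain ⟨Y', rfl⟩ := exists_lift hrange Y fun s hs => ok_mono (hY s hs)
    rw [← hf', ← List.map_append, ← key] at h1 h2
    exact ⟨X', Y', h1, h2⟩

end Pool.Agent.R659.PConj
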