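import Mathlib

namespace Pool.Agent.R659

/-- `spow a k = a ^ k` for `k ≥ 1` in a ring without identity (the value at `k = 0` is junk). -/
def spow {M : Type*} [Mul M] (a : M) : ℕ → M
  | 0 => a
  | 1 => a
  | (n + 2) => spow a (n + 1) * a

lemma spow_one {M : Type*} [Mul M] (a : M) : spow a 1 = a := rfl

lemma spow_succ {M : Type*} [Mul M] (a : M) (n : ℕ) (hn : 1 ≤ n) :
    spow a (n + 1) = spow a n * a := by
  obtain ⟨m, rfl⟩ := Nat.exists_eq_add_of_le' hn
  rfl

lemma spow_eq_pow {M : Type*} [Monoid M] (a : M) (n : ℕ) (hn : 1 ≤ n) : spow a n = a ^ n := by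
  induction n, hn using Nat.le_induction with
  | base => rw [spow_one, pow_one]
  | succ n hn ih => rw [spow_succ a n hn, ih, pow_succ]

lemma map_spow {M N : Type*} [NonUnitalNonAssocSemiring M] [NonUnitalNonAssocSemiring N]
    (f : M →ₙ+* N) (a : M) (k : ℕ) : f (spow a k) = spow (f a) k := by
  rcases Nat.eq_zero_or_pos k with rfl | hk
  · rfl
  · induction k, hk using Nat.le_induction with
    | base => rfl
    | succ n hn ih => rw [spow_succ a n hn, map_mul, ih, spow_succ _ n hn]

lemma spow_zero' {M : Type*} [NonUnitalNonAssocSemiring M] (k : ℕ) : spow (0 : M) k = 0 := by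
  rcases Nat.eq_zero_or_pos k with rfl | hk
  · rfl
  · induction k, hk using Nat.le_induction with
    | base => rfl
    | succ n hn ih => rw [spow_succ _ n hn, mul_zero]

/-- fibre lemma -/
lemma sum_fiber {M N X : Type*} [AddCommGroup M] [AddCommGroup N] [AddCommMonoid X]
    [Fintype M] [Fintype N] (f : M →+ N) (hf : Function.Surjective f) (g : N → X) :
    ∑ a : M, g (f a) = Nat.card f.ker • ∑ b : N, g b := by
  classical
  have h1 : ∀ b : N, (Finset.univ.filter (fun a : M => f a = b)).card = Nat.card f.ker := by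
    intro b
    obtain ⟨a0, rfl⟩ := hf b
    rw [Nat.card_eq_fintype_card, Fintype.card_subtype]
    refine Finset.card_bij' (fun a _ => a - a0) (fun a _ => a + a0) ?_ ?_ ?_ ?_
    · intro a ha
      simp only [Finset.mem_filter, Finset.mem_univ, true_and, AddMonoidHom.mem_ker, map_sub] at ha ⊢
      rw [ha, sub_self]
    · intro a ha
      simp only [Finset.mem_filter, Finset.mem_univ, true_and, AddMonoidHom.mem_ker, map_add] at ha ⊢
      rw [ha, zero_add]
    · intro a _; simp
    · intro a _; simp
  rw [← Finset.sum_fiberwise Finset.univ f (fun a => g (f a)), Finset.smul_sum]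
  refine Finset.sum_congr rfl fun b _ => ?_
  rw [← h1 b, ← Finset.sum_const]
  refine Finset.sum_congr rfl fun a ha => ?_
  rw [(Finset.mem_filter.mp ha).2]

lemma card_fiber {M N : Type*} [AddCommGroup M] [AddCommGroup N]
    [Fintype M] [Fintype N] (f : M →+ N) (hf : Function.Surjective f) :
    Fintype.card M = Nat.card f.ker * Fintype.card N := by
  have := sum_fiber f hf (fun _ => (1 : ℕ))
  simpa using this

/-- The sum of all matrices of size at least two is zero. -/
lemma sum_matrix {ι A : Type*} [Fintype ι] [DecidableEq ι] [AddCommGroup A] [Fintype A]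
    (h : 2 ≤ Fintype.card ι) : ∑ X : Matrix ι ι A, X = 0 := by
  classical
  ext j b
  rw [Matrix.zero_apply]
  obtain ⟨i, hij⟩ : ∃ i, i ≠ j := by
    have : Nontrivial ι := Fintype.one_lt_card_iff_nontrivial.mp h
    exact exists_ne j
  let N : Matrix ι ι A → Matrix ι ι A := fun X => Matrix.of fun a c => if a = i then X j c else 0
  have hN : ∀ X, N (X + N X) = N X := by
    intro X
    ext a c
    simp only [N, Matrix.of_apply, Matrix.add_apply, if_neg hij.symm, add_zero]
  have hN' : ∀ X, N (X - N X) = N X := by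
    intro X
    ext a c
    simp only [N, Matrix.of_apply, Matrix.sub_apply, if_neg hij.symm, sub_zero]
  let e : Matrix ι ι A ≃ Matrix ι ι A :=
    { toFun := fun X => X + N X
      invFun := fun X => X - N X
      left_inv := fun X => by simp only [hN, add_sub_cancel_right]
      right_inv := fun X => by simp only [hN', sub_add_cancel] }
  have h1 : ∑ X : Matrix ι ι A, e X = ∑ X : Matrix ι ι A, X := Equiv.sum_comp e (fun X => X)
  have h2 : ∑ X : Matrix ι ι A, N X = 0 := by
    have : ∑ X : Matrix ι ι A, e X = ∑ X : Matrix ι ι A, X + ∑ X : Matrix ι ι A, N X := by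
      rw [← Finset.sum_add_distrib]; rfl
    rw [h1] at this
    exact left_eq_add.mp this
  have h3 := congrFun (congrFun h2 i) b
  rw [Matrix.sum_apply] at h3
  rw [Matrix.sum_apply]
  simpa [N] using h3

/-- Square-zero perturbation. -/
lemma spow_add {M : Type*} [NonUnitalRing M] (J : AddSubgroup M)
    (hl : ∀ a x, x ∈ J → a * x ∈ J) (hr : ∀ a x, x ∈ J → x * a ∈ J)
    (h0 : ∀ x ∈ J, ∀ y ∈ J, x * y = 0) (a : M) (k : ℕ) (hk : 1 ≤ k) :
    ∃ L : M →+ M, ∀ x ∈ J, spow (a + x) k = spow a k + L x ∧ L x ∈ J := by
  induction k, hk using Nat.le_induction with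
  | base => exact ⟨AddMonoidHom.id M, fun x hx => ⟨rfl, hx⟩⟩
  | succ n hn ih =>
    obtain ⟨L, hL⟩ := ih
    refine ⟨(AddMonoidHom.mulRight a).comp L + AddMonoidHom.mulLeft (spow a n), fun x hx => ?_⟩
    obtain ⟨h1, h2⟩ := hL x hx
    constructor
    · rw [spow_succ _ n hn, h1, spow_succ _ n hn]
      simp only [AddMonoidHom.add_apply, AddMonoidHom.comp_apply, AddMonoidHom.coe_mulRight,
        AddMonoidHom.coe_mulLeft, mul_add, add_mul, h0 _ h2 x hx, add_zero]
      abel
    · simp only [AddMonoidHom.add_apply, AddMonoidHom.comp_apply, AddMonoidHom.coe_mulRight,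
        AddMonoidHom.coe_mulLeft]
      exact J.add_mem (hr _ _ h2) (hl _ _ hx)

/-- The power sum over a finite ring as lift of the power sum of a quotient by a square zero
ideal. -/
lemma powsum_sqzero {M N : Type*} [NonUnitalRing M] [NonUnitalRing N] [Fintype M] [Fintype N]
    (f : M →ₙ+* N) (hf : Function.Surjective f)
    (h0 : ∀ x y, f x = 0 → f y = 0 → x * y = 0) [Fintype (f : M →+ N).ker]
    (hs : ∑ x : (f : M →+ N).ker, (x : M) = 0) (k : ℕ) (hk : 1 ≤ k) :
    ∃ T : M, ∑ a : M, spow a k = Nat.card (f : M →+ N).ker • T ∧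
      f T = ∑ b : N, spow b k := by
  classical
  let s : N → M := Function.surjInv hf
  have hs' : ∀ b, f (s b) = b := Function.surjInv_eq hf
  refine ⟨∑ b : N, spow (s b) k, ?_, ?_⟩
  · rw [← Finset.sum_fiberwise Finset.univ f (fun a => spow a k), Finset.smul_sum]
    refine Finset.sum_congr rfl fun b _ => ?_
    have h1 : ∑ a ∈ Finset.univ.filter (fun a : M => f a = b), spow a k
        = ∑ x : (f : M →+ N).ker, spow (s b + x) k := by
      symm
      refine Finset.sum_bij' (fun x _ => s b + x) (fun a ha => ⟨a - s b, ?_⟩) ?_ ?_ ?_ ?_ ?_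
      · rw [AddMonoidHom.mem_ker]
        have := (Finset.mem_filter.mp ha).2
        show f (a - s b) = 0
        rw [map_sub, this, hs', sub_self]
      · intro x _
        have hx : f (x : M) = 0 := x.2
        simp only [Finset.mem_filter, Finset.mem_univ, true_and, map_add, hs', hx, add_zero]
      · intro a _; exact Finset.mem_univ _
      · intro x _; ext; simp
      · intro a _; simp
      · intro x _; rfl
    rw [h1]
    obtain ⟨L, hL⟩ := spow_add (f : M →+ N).ker
      (fun a x hx => by
        have hx' : f x = 0 := hx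
        show f (a * x) = 0
        rw [map_mul, hx', mul_zero])
      (fun a x hx => by
        have hx' : f x = 0 := hx
        show f (x * a) = 0
        rw [map_mul, hx', zero_mul])
      (fun x hx y hy => h0 x y hx hy) (s b) k hk
    have h2 : ∀ x : (f : M →+ N).ker, spow (s b + x) k = spow (s b) k + L x :=
      fun x => (hL x x.2).1
    simp only [h2, Finset.sum_add_distrib]
    rw [← map_sum, hs, map_zero, add_zero, Finset.sum_const, Finset.card_univ,
      Nat.card_eq_fintype_card]
  · rw [map_sum]
    refine Finset.sum_congr rfl fun b _ => ?_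
    rw [map_spow, hs']

end Pool.Agent.R659
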