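import Pool.Agent.R659.PSBasic

namespace Pool.Agent.R659

open Matrix

lemma orbit_sum {X G M : Type*} [Fintype X] [Fintype G] [AddGroup G] [AddCommGroup M]
    (T : G → X → X) (h0 : ∀ x, T 0 x = x) (hadd : ∀ g h x, T (g + h) x = T g (T h x))
    (P : X → Prop) [DecidablePred P] (hP : ∀ g x, P x → P (T g x))
    (hfree : ∀ g x, P x → T g x = x → g = 0) (F : X → M)
    (hF : ∀ x, P x → ∑ g, F (T g x) = 0) :
    ∑ x ∈ Finset.univ.filter P, F x = 0 := by
  classical
  let R : Setoid X :=
    { r := fun x y => ∃ g, T g y = x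
      iseqv := ⟨fun x => ⟨0, h0 x⟩,
        fun {x y} ⟨g, hg⟩ => ⟨-g, by rw [← hg, ← hadd, neg_add_cancel, h0]⟩,
        fun {x y z} ⟨g, hg⟩ ⟨h, hh⟩ => ⟨g + h, by rw [hadd, hh, hg]⟩⟩ }
  refine Finset.sum_cancels_of_partition_cancels R fun x hx => ?_
  have hx' : P x := (Finset.mem_filter.mp hx).2
  have himg : (Finset.univ.filter P).filter (fun a => R a x) =
      Finset.univ.image (fun g => T g x) := by
    ext y
    simp only [Finset.mem_filter, Finset.mem_univ, true_and, Finset.mem_image]
    constructor
    · rintro ⟨_, g, hg⟩; exact ⟨g, hg⟩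
    · rintro ⟨g, hg⟩; exact ⟨hg ▸ hP g x hx', ⟨g, hg⟩⟩
  have hinj : Function.Injective (fun g => T g x) := by
    intro g h hgh
    simp only at hgh
    have h1 : T (-h + g) x = x := by rw [hadd, hgh, ← hadd, neg_add_cancel, h0]
    have h2 := hfree _ x hx' h1
    exact (neg_add_eq_zero.mp h2).symm
  have : ∑ a ∈ (Finset.univ.filter P).filter (fun a => R a x), F a = 0 := by
    rw [himg, Finset.sum_image (fun a _ b _ h => hinj h)]
    exact hF x hx'
  convert this using 2

section field

variable {K ι : Type*} [Field K] [Fintype K] [Fintype ι] [DecidableEq ι]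

/-- the hyperplane of functionals vanishing on the basis vector `b`. -/
abbrev Hyp (K : Type*) {ι : Type*} [Field K] (b : ι) : Submodule K (ι → K) :=
  LinearMap.ker (LinearMap.proj b : (ι → K) →ₗ[K] K)

omit [Fintype K] [Fintype ι] [DecidableEq ι] in
lemma Hyp_apply (b : ι) (φ : Hyp K b) : (φ : ι → K) b = 0 := φ.2

lemma sum_hyp [DecidableEq K] (b : ι) (h : Fintype.card ι = 2 → Fintype.card K ≠ 2)
    (hι : 2 ≤ Fintype.card ι) [Fintype (Hyp K b)]
    (j : ι) : ∑ φ : Hyp K b, (φ : ι → K) j = 0 := by
  classical
  rcases eq_or_ne j b with rfl | hj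
  · exact Finset.sum_eq_zero fun φ _ => Hyp_apply _ φ
  by_cases h3 : ∃ j', j' ≠ j ∧ j' ≠ b
  · obtain ⟨j', hj', hj'b⟩ := h3
    have hmem : ∀ (φ : Hyp K b) (s : K), (φ : ι → K) + Pi.single j' s ∈ Hyp K b := by
      intro φ s
      rw [LinearMap.mem_ker]
      simp [hj'b]
      exact Hyp_apply b φ
    let e : Hyp K b ≃ Hyp K b :=
      { toFun := fun φ => ⟨(φ : ι → K) + Pi.single j' ((φ : ι → K) j), hmem _ _⟩
        invFun := fun φ => ⟨(φ : ι → K) + Pi.single j' (-(φ : ι → K) j), hmem _ _⟩
        left_inv := fun φ => by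
          ext a
          simp only [Pi.add_apply, Pi.single_apply, if_neg hj'.symm, add_zero]
          split_ifs <;> simp
        right_inv := fun φ => by
          ext a
          simp only [Pi.add_apply, Pi.single_apply, if_neg hj'.symm, add_zero]
          split_ifs <;> simp }
    have h1 : ∑ φ : Hyp K b, (e φ : ι → K) j' = ∑ φ : Hyp K b, (φ : ι → K) j' :=
      Equiv.sum_comp e (fun φ => (φ : ι → K) j')
    have h2 : ∑ φ : Hyp K b, (e φ : ι → K) j' =
        ∑ φ : Hyp K b, (φ : ι → K) j' + ∑ φ : Hyp K b, (φ : ι → K) j := by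
      rw [← Finset.sum_add_distrib]
      refine Finset.sum_congr rfl fun φ _ => ?_
      simp [e]
    rw [h1] at h2
    exact left_eq_add.mp h2
  · push Not at h3
    have hcard : Fintype.card ι = 2 := by
      have : (Finset.univ : Finset ι) ⊆ {j, b} := by
        intro a _
        by_cases ha : a = j
        · simp [ha]
        · simp [h3 a ha]
      have := Finset.card_le_card this
      rw [Finset.card_univ, Finset.card_pair hj] at this
      omega
    have hK := h hcard
    have hK' : 2 < Fintype.card K := by
      have := Fintype.one_lt_card (α := K)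
      omega
    obtain ⟨c, hc0, hc1⟩ : ∃ c : K, c ≠ 0 ∧ c ≠ 1 := by
      by_contra hcon
      push Not at hcon
      have : (Finset.univ : Finset K) ⊆ {0, 1} := by
        intro a _
        by_cases ha : a = 0
        · simp [ha]
        · simp [hcon a ha]
      have := Finset.card_le_card this
      rw [Finset.card_univ, Finset.card_pair zero_ne_one] at this
      omega
    let e : Hyp K b ≃ Hyp K b := MulAction.toPerm (Units.mk0 c hc0)
    have h1 : ∑ φ : Hyp K b, (e φ : ι → K) j = ∑ φ : Hyp K b, (φ : ι → K) j :=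
      Equiv.sum_comp e (fun φ => (φ : ι → K) j)
    have h2 : ∑ φ : Hyp K b, (e φ : ι → K) j = c * ∑ φ : Hyp K b, (φ : ι → K) j := by
      rw [Finset.mul_sum]
      refine Finset.sum_congr rfl fun φ _ => ?_
      rfl
    rw [h1] at h2
    have h3 : (1 - c) * ∑ φ : Hyp K b, (φ : ι → K) j = 0 := by
      rw [sub_mul, one_mul, ← h2, sub_self]
    rcases mul_eq_zero.mp h3 with h4 | h4
    · exact absurd (sub_eq_zero.mp h4).symm hc1
    · exact h4

lemma card_hyp (b : ι) (hι : 2 ≤ Fintype.card ι) [Fintype (Hyp K b)] :
    ((Fintype.card (Hyp K b) : ℕ) : K) = 0 := by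
  classical
  obtain ⟨j, hj⟩ : ∃ j, j ≠ b := by
    have : Nontrivial ι := Fintype.one_lt_card_iff_nontrivial.mp hι
    exact exists_ne b
  let f : Hyp K b →+ K :=
    { toFun := fun φ => (φ : ι → K) j
      map_zero' := rfl
      map_add' := fun _ _ => rfl }
  have hf : Function.Surjective f := by
    intro x
    refine ⟨⟨Pi.single j x, ?_⟩, ?_⟩
    · rw [LinearMap.mem_ker]
      simp [hj.symm]
    · simp [f]
  rw [card_fiber f hf, Nat.cast_mul, FiniteField.cast_card_eq_zero, mul_zero]

/-- the conjugation `T φ B = (1 + v φᵀ) B (1 - v φᵀ)` -/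
def Tc (b : ι) (φ : ι → K) (B : Matrix ι ι K) : Matrix ι ι K :=
  (1 + vecMulVec (Pi.single b 1) φ) * B * (1 - vecMulVec (Pi.single b 1) φ)

omit [Fintype K] in
lemma E_mul (b : ι) (φ ψ : ι → K) (h : φ b = 0) :
    vecMulVec (Pi.single b (1 : K)) φ * vecMulVec (Pi.single b 1) ψ = 0 := by
  rw [vecMulVec_mul_vecMulVec, dotProduct_single_one, h, zero_smul]
  ext; simp [vecMulVec_apply]

omit [Fintype K] in
lemma E_mulVec (b : ι) (φ w : ι → K) :
    vecMulVec (Pi.single b (1 : K)) φ *ᵥ w = (φ ⬝ᵥ w) • Pi.single b 1 := by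
  rw [vecMulVec_mulVec, op_smul_eq_smul]

theorem field_sum (hι : 2 ≤ Fintype.card ι) (h : Fintype.card ι = 2 → Fintype.card K ≠ 2)
    (k : ℕ) : ∑ B : Matrix ι ι K, B ^ k = 0 := by
  classical
  have key : ∀ b : ι, ∑ B : Matrix ι ι K, (B ^ k) *ᵥ (Pi.single b 1) = 0 := by
    intro b
    set v : ι → K := Pi.single b 1 with hv
    obtain ⟨j, hj⟩ : ∃ j, j ≠ b := by
      have : Nontrivial ι := Fintype.one_lt_card_iff_nontrivial.mp hι
      exact exists_ne b
    let P : Matrix ι ι K → Prop := fun B => ∃ a, a ≠ b ∧ B a b ≠ 0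
    have hBv : ∀ (B : Matrix ι ι K), B *ᵥ v = fun a => B a b := by
      intro B; ext a; simp [hv]
    rw [← Finset.sum_filter_add_sum_filter_not Finset.univ P]
    have s1 : ∑ B ∈ Finset.univ.filter P, (B ^ k) *ᵥ v = 0 := by
      refine orbit_sum (G := Hyp K b) (fun φ B => Tc b φ B) ?_ ?_ P ?_ ?_ _ ?_
      · intro B
        simp [Tc]
      · intro φ ψ B
        simp only [Tc, Submodule.coe_add, vecMulVec_add]
        have e1 : (1 + (vecMulVec v (φ : ι → K) + vecMulVec v (ψ : ι → K)))
            = (1 + vecMulVec v (φ : ι → K)) * (1 + vecMulVec v (ψ : ι → K)) := by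
          rw [add_mul, mul_add, mul_add, E_mul b _ _ (Hyp_apply b φ)]
          simp only [one_mul, mul_one, add_zero]
          abel
        have e2 : (1 - (vecMulVec v (φ : ι → K) + vecMulVec v (ψ : ι → K)))
            = (1 - vecMulVec v (ψ : ι → K)) * (1 - vecMulVec v (φ : ι → K)) := by
          rw [sub_mul, mul_sub, mul_sub, E_mul b _ _ (Hyp_apply b ψ)]
          simp only [one_mul, mul_one, sub_zero]
          abel
        rw [e1, e2]
        simp only [Matrix.mul_assoc]
        rfl
      · intro φ B ⟨a, ha, hab⟩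
        refine ⟨a, ha, ?_⟩
        have : (Tc b φ B *ᵥ v) a = B a b := by
          rw [Tc, ← mulVec_mulVec, sub_mulVec, one_mulVec, E_mulVec, dotProduct_single_one,
            Hyp_apply, zero_smul, sub_zero, ← mulVec_mulVec, add_mulVec, one_mulVec, E_mulVec]
          simp only [Pi.add_apply, Pi.smul_apply, Pi.single_apply, if_neg ha, smul_zero, add_zero]
          rw [hBv]
        rw [hBv] at this
        simp only at this
        rw [this]
        exact hab
      · intro φ B ⟨a, ha, hab⟩ hT
        have h1 : (1 + vecMulVec v (φ : ι → K)) * B = B * (1 + vecMulVec v (φ : ι → K)) := by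
          conv_rhs => rw [← hT]
          rw [Tc, Matrix.mul_assoc _ _ (1 + vecMulVec v (φ : ι → K)), sub_mul, mul_add, mul_add,
            E_mul b _ _ (Hyp_apply b φ)]
          simp only [one_mul, mul_one, add_zero, ← hv, add_sub_cancel_right]
        rw [add_mul, mul_add, one_mul, mul_one, add_right_inj] at h1
        ext i
        have h2 := congrFun (congrFun h1 a) i
        rw [vecMulVec_mul, mul_vecMulVec, vecMulVec_apply, vecMulVec_apply, hBv] at h2
        simp only [hv, Pi.single_apply, if_neg ha, zero_mul] at h2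
        rcases mul_eq_zero.mp h2.symm with h3 | h3
        · exact absurd h3 hab
        · exact h3
      · intro B _
        have hTk : ∀ φ : Hyp K b, (Tc b φ B) ^ k = Tc b φ (B ^ k) := by
          intro φ
          have hinv : (1 - vecMulVec v (φ : ι → K)) * (1 + vecMulVec v (φ : ι → K)) = 1 := by
            rw [sub_mul, mul_add, mul_add, E_mul b _ _ (Hyp_apply b φ)]
            simp
          have hinv' : (1 + vecMulVec v (φ : ι → K)) * (1 - vecMulVec v (φ : ι → K)) = 1 := by
            rw [add_mul, mul_sub, mul_sub, E_mul b _ _ (Hyp_apply b φ)]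
            simp
          clear_value v
          induction k with
          | zero => simp only [Tc, pow_zero, mul_one]; rw [← hv, hinv']
          | succ n ih =>
            rw [pow_succ, ih, pow_succ]
            simp only [Tc, ← hv]
            calc (1 + vecMulVec v (φ : ι → K)) * B ^ n * (1 - vecMulVec v (φ : ι → K)) *
                  ((1 + vecMulVec v (φ : ι → K)) * B * (1 - vecMulVec v (φ : ι → K)))
                = (1 + vecMulVec v (φ : ι → K)) * B ^ n * ((1 - vecMulVec v (φ : ι → K)) *
                  (1 + vecMulVec v (φ : ι → K))) * B * (1 - vecMulVec v (φ : ι → K)) := by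
                  simp only [Matrix.mul_assoc]
              _ = _ := by rw [hinv]; simp only [Matrix.mul_assoc, Matrix.mul_one]
        set w : ι → K := (B ^ k) *ᵥ v with hw
        have hF : ∀ φ : Hyp K b, (Tc b φ B) ^ k *ᵥ v = w + ((φ : ι → K) ⬝ᵥ w) • v := by
          intro φ
          rw [hTk, Tc, ← mulVec_mulVec, sub_mulVec, one_mulVec, E_mulVec, dotProduct_single_one,
            Hyp_apply, zero_smul, sub_zero, ← mulVec_mulVec, add_mulVec, one_mulVec, E_mulVec]
        simp only [hF, Finset.sum_add_distrib, Finset.sum_const, Finset.card_univ]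
        rw [← Nat.cast_smul_eq_nsmul K, card_hyp b hι, zero_smul, zero_add, ← Finset.sum_smul]
        have : ∑ φ : Hyp K b, (φ : ι → K) ⬝ᵥ w = 0 := by
          simp only [dotProduct]
          rw [Finset.sum_comm]
          refine Finset.sum_eq_zero fun i _ => ?_
          rw [← Finset.sum_mul, sum_hyp b h hι i, zero_mul]
        rw [this, zero_smul]
    have s2 : ∑ B ∈ Finset.univ.filter (fun B => ¬ P B), (B ^ k) *ᵥ v = 0 := by
      have hcol : ∀ (c : K) (B : Matrix ι ι K) a, (B + c • Matrix.single j j (1 : K)) a b = B a b := by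
        intro c B a
        simp [hj]
      refine orbit_sum (G := K) (fun c B => B + c • Matrix.single j j 1) ?_ ?_ (fun B => ¬ P B) ?_ ?_ _ ?_
      · intro B; simp
      · intro g h B
        rw [add_smul]; abel
      · intro c B hB
        simp only [P, not_exists, not_and, not_not] at hB ⊢
        intro a ha
        rw [hcol]
        exact hB a ha
      · intro c B _ hT
        have h1 : c • Matrix.single j j (1 : K) = 0 := by
          exact left_eq_add.mp hT.symm
        have h2 := congrFun (congrFun h1 j) j
        simpa using h2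
      · intro B hB
        simp only [P, not_exists, not_and, not_not] at hB
        have hpow : ∀ (C : Matrix ι ι K), (∀ a, a ≠ b → C a b = 0) → ∀ n,
            (C ^ n) *ᵥ v = (C b b) ^ n • v := by
          intro C hC n
          have hCv : C *ᵥ v = (C b b) • v := by
            rw [hBv]
            ext a
            rcases eq_or_ne a b with rfl | ha
            · simp [hv]
            · simp [hv, ha, hC a ha]
          induction n with
          | zero => simp
          | succ n ih => rw [pow_succ, ← mulVec_mulVec, hCv, mulVec_smul, ih, smul_smul, pow_succ,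
              mul_comm]
        have : ∀ c : K, (B + c • Matrix.single j j (1 : K)) ^ k *ᵥ v = (B b b) ^ k • v := by
          intro c
          rw [hpow _ (fun a ha => by rw [hcol]; exact hB a ha) k, hcol]
        simp only [this, Finset.sum_const, Finset.card_univ]
        rw [← Nat.cast_smul_eq_nsmul K, FiniteField.cast_card_eq_zero, zero_smul]
    rw [s1, s2, add_zero]
  ext a b
  have h1 := congrFun (key b) a
  rw [Finset.sum_apply] at h1
  rw [Matrix.sum_apply, Matrix.zero_apply]
  simpa using h1

end field

end Pool.Agent.R659
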