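import Pool.Agent.R659.PSBasic

namespace Pool.Agent.R659

universe u

lemma unit_mul_inr {S A : Type*} [CommRing S] [NonUnitalRing A] [Module S A] [IsScalarTower S A A]
    [SMulCommClass S A A] (u : Unitization S A) (x : A) :
    u * (Unitization.inr x : Unitization S A) = Unitization.inr (u.fst • x + u.snd * x) := by
  apply Unitization.ext
  · simp
  · simp

lemma inr_mul_unit {S A : Type*} [CommRing S] [NonUnitalRing A] [Module S A] [IsScalarTower S A A]
    [SMulCommClass S A A] (u : Unitization S A) (x : A) :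
    (Unitization.inr x : Unitization S A) * u = Unitization.inr (u.fst • x + x * u.snd) := by
  apply Unitization.ext
  · simp
  · simp

/-- Wedderburn data for a finite ring (maybe without identity) having no nonzero square-zero
two-sided ideal. -/
theorem wedder (R : Type u) [NonUnitalRing R] [Finite R] [Nontrivial R]
    (H : ∀ I : TwoSidedIdeal R, (∀ x ∈ I, ∀ y ∈ I, x * y = 0) → ∀ x ∈ I, x = 0) :
    ∃ (m : ℕ) (D : Fin m → Type u) (n : Fin m → ℕ) (_ : ∀ i, Field (D i)) (_ : ∀ i, Finite (D i))
      (_ : ∀ i, NeZero (n i)) (g : ∀ i, R →ₙ+* Matrix (Fin (n i)) (Fin (n i)) (D i)),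
      (∀ i, Function.Surjective (g i) ∨ ∀ x, g i x = 0) ∧ ∀ x, (∀ i, g i x = 0) → x = 0 := by
  classical
  set N := Nat.card R with hN
  have hN0 : NeZero N := ⟨Nat.card_pos.ne'⟩
  have hkill : ∀ x : R, N • x = 0 := fun x => card_nsmul_eq_zero'
  let _ : Module (ZMod N) R := AddCommGroup.zmodModule hkill
  have hsmul : ∀ (c : ZMod N) (x : R), c • x = c.val • x := by
    intro c x
    conv_lhs => rw [← ZMod.natCast_zmod_val c]
    exact Nat.cast_smul_eq_nsmul _ _ _
  have : IsScalarTower (ZMod N) R R := ⟨fun c x y => by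
    rw [hsmul, hsmul, smul_eq_mul, smul_eq_mul, smul_mul_assoc]⟩
  have : SMulCommClass (ZMod N) R R := ⟨fun c x y => by
    rw [hsmul, hsmul, smul_eq_mul, smul_eq_mul, mul_smul_comm]⟩
  let U := Unitization (ZMod N) R
  have : Finite U := Finite.of_injective (fun u : U => ((u.fst, u.snd) : ZMod N × R)) (by
    intro u v huv
    have h1 := (Prod.mk.injEq _ _ _ _).mp huv
    exact Unitization.ext h1.1 h1.2)
  have : IsArtinianRing U := isArtinian_of_finite
  have hnil : IsNilpotent (Ring.jacobson U) := IsSemiprimaryRing.isNilpotent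
  obtain ⟨K, hK⟩ := hnil
  -- elements of `R` in the radical vanish
  have hrad : ∀ j, 1 ≤ j → ∀ x : R, (Unitization.inr x : U) ∈ (Ring.jacobson U) ^ j → x = 0 := by
    have hbig : ∀ x : R, (Unitization.inr x : U) ∈ (Ring.jacobson U) ^ (K + 1) → x = 0 := by
      intro x hx
      have h1 : (Ring.jacobson U) ^ (K + 1) ≤ (Ring.jacobson U) ^ K := Ideal.pow_le_pow_right (by omega)
      have h2 := h1 hx
      rw [hK] at h2
      have h3 : (Unitization.inr x : U) = 0 := h2
      exact Unitization.inr_injective (by rw [h3, Unitization.inr_zero])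
    have hstep : ∀ j, 1 ≤ j → (∀ x : R, (Unitization.inr x : U) ∈ (Ring.jacobson U) ^ (j + 1) → x = 0) →
        (∀ x : R, (Unitization.inr x : U) ∈ (Ring.jacobson U) ^ j → x = 0) := by
      intro j hj ih
      let I : TwoSidedIdeal R := TwoSidedIdeal.mk' {x : R | (Unitization.inr x : U) ∈ (Ring.jacobson U) ^ j}
        (by simp)
        (by
          intro x y hx hy
          simp only [Set.mem_ofPred_eq, Unitization.inr_add] at *
          exact Ideal.add_mem _ hx hy)
        (by
          intro x hx
          simp only [Set.mem_ofPred_eq, Unitization.inr_neg] at *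
          exact (Submodule.neg_mem_iff _).mpr hx)
        (by
          intro x y hy
          simp only [Set.mem_ofPred_eq, Unitization.inr_mul] at *
          exact Ideal.mul_mem_left _ _ hy)
        (by
          intro x y hx
          simp only [Set.mem_ofPred_eq, Unitization.inr_mul] at *
          exact Ideal.mul_mem_right _ _ hx)
      have hI : ∀ x, x ∈ I ↔ (Unitization.inr x : U) ∈ (Ring.jacobson U) ^ j := by
        intro x
        exact TwoSidedIdeal.mem_mk' _ _ _ _ _ _ x
      intro x hx
      refine H I ?_ x ((hI x).mpr hx)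
      intro a ha b hb
      apply ih
      rw [Unitization.inr_mul]
      have h1 : (Unitization.inr a : U) * Unitization.inr b ∈ (Ring.jacobson U) ^ j * (Ring.jacobson U) ^ j :=
        Ideal.mul_mem_mul ((hI a).mp ha) ((hI b).mp hb)
      rw [← Ideal.IsTwoSided.pow_add] at h1
      exact Ideal.pow_le_pow_right (by omega) h1
    have hdown : ∀ t j, 1 ≤ j → j + t = K + 1 →
        ∀ x : R, (Unitization.inr x : U) ∈ (Ring.jacobson U) ^ j → x = 0 := by
      intro t
      induction t with
      | zero => intro j _ hj; rw [add_zero] at hj; rw [hj]; exact hbig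
      | succ t ih =>
        intro j hj1 hj
        exact hstep j hj1 (ih (j + 1) (by omega) (by omega))
    intro j hj x hx
    rcases le_or_gt j (K + 1) with h | h
    · exact hdown (K + 1 - j) j hj (by omega) x hx
    · exact hbig x (Ideal.pow_le_pow_right h.le hx)
  obtain ⟨m, D, n, hD, hn, ⟨e⟩⟩ :=
    IsSemisimpleRing.exists_ringEquiv_pi_matrix_divisionRing (U ⧸ Ring.jacobson U)
  let ρ : ∀ i, U →+* Matrix (Fin (n i)) (Fin (n i)) (D i) := fun i =>
    ((Pi.evalRingHom (fun i => Matrix (Fin (n i)) (Fin (n i)) (D i)) i).comp e.toRingHom).comp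
      (Ideal.Quotient.mk (Ring.jacobson U))
  have hρ : ∀ i, Function.Surjective (ρ i) := by
    intro i
    refine Function.Surjective.comp (g := (Pi.evalRingHom (fun i => Matrix (Fin (n i)) (Fin (n i)) (D i)) i).comp e.toRingHom) ?_ Ideal.Quotient.mk_surjective
    refine Function.Surjective.comp (g := (Pi.evalRingHom (fun i => Matrix (Fin (n i)) (Fin (n i)) (D i)) i)) ?_ e.surjective
    exact Function.surjective_eval i
  have hfinM : ∀ i, Finite (Matrix (Fin (n i)) (Fin (n i)) (D i)) := fun i =>
    Finite.of_surjective _ (hρ i)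
  have hfin : ∀ i, Finite (D i) := by
    intro i
    have := hfinM i
    refine Finite.of_injective (fun x : D i => Matrix.scalar (Fin (n i)) x) ?_
    intro x y hxy
    have h1 := congrFun (congrFun hxy 0) 0
    simpa using h1
  let g : ∀ i, R →ₙ+* Matrix (Fin (n i)) (Fin (n i)) (D i) := fun i =>
    { toFun := fun x => ρ i (Unitization.inr x)
      map_mul' := fun x y => by rw [Unitization.inr_mul, map_mul]
      map_zero' := by rw [Unitization.inr_zero, map_zero]
      map_add' := fun x y => by rw [Unitization.inr_add, map_add] }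
  refine ⟨m, D, n, fun i => @littleWedderburn (D i) (hD i) (hfin i), hfin, hn, g, ?_, ?_⟩
  · intro i
    -- the image is a two-sided ideal
    have hl : ∀ (M : Matrix (Fin (n i)) (Fin (n i)) (D i)) (x : R), ∃ y : R, M * g i x = g i y := by
      intro M x
      obtain ⟨u, rfl⟩ := hρ i M
      refine ⟨u.fst • x + u.snd * x, ?_⟩
      show ρ i u * ρ i (Unitization.inr x) = ρ i (Unitization.inr (u.fst • x + u.snd * x))
      rw [← map_mul]
      congr 1
      exact unit_mul_inr u x
    have hr : ∀ (M : Matrix (Fin (n i)) (Fin (n i)) (D i)) (x : R), ∃ y : R, g i x * M = g i y := by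
      intro M x
      obtain ⟨u, rfl⟩ := hρ i M
      refine ⟨u.fst • x + x * u.snd, ?_⟩
      show ρ i (Unitization.inr x) * ρ i u = ρ i (Unitization.inr (u.fst • x + x * u.snd))
      rw [← map_mul]
      congr 1
      exact inr_mul_unit u x
    let I : TwoSidedIdeal (Matrix (Fin (n i)) (Fin (n i)) (D i)) :=
      TwoSidedIdeal.mk' (Set.range (g i)) ⟨0, map_zero _⟩
        (by rintro _ _ ⟨x, rfl⟩ ⟨y, rfl⟩; exact ⟨x + y, map_add _ _ _⟩)
        (by rintro _ ⟨x, rfl⟩; exact ⟨-x, map_neg _ _⟩)
        (by rintro M _ ⟨x, rfl⟩; obtain ⟨y, hy⟩ := hl M x; exact ⟨y, hy.symm⟩)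
        (by rintro _ M ⟨x, rfl⟩; obtain ⟨y, hy⟩ := hr M x; exact ⟨y, hy.symm⟩)
    have hI : ∀ x, x ∈ I ↔ x ∈ Set.range (g i) := fun x => TwoSidedIdeal.mem_mk' _ _ _ _ _ _ x
    have hsimp : I = ⊥ ∨ I = ⊤ := eq_bot_or_eq_top I
    rcases hsimp with h | h
    · right
      intro x
      have : g i x ∈ I := (hI _).mpr ⟨x, rfl⟩
      rw [h] at this
      exact (TwoSidedIdeal.mem_bot _).mp this
    · left
      intro M
      have : M ∈ I := by rw [h]; exact TwoSidedIdeal.mem_top _
      exact (hI M).mp this
  · intro x hx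
    apply hrad 1 le_rfl x
    rw [Submodule.pow_one]
    have h1 : e (Ideal.Quotient.mk (Ring.jacobson U) (Unitization.inr x)) = 0 := by
      funext i
      exact hx i
    have h2 : Ideal.Quotient.mk (Ring.jacobson U) (Unitization.inr x) = 0 := by
      apply e.injective
      rw [h1, map_zero]
    exact Ideal.Quotient.eq_zero_iff_mem.mp h2

end Pool.Agent.R659
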