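import Pool.Agent.R659.PSField
import Pool.Agent.R659.PSSemi

namespace Pool.Agent.R659

universe u

section mmap

variable {ι : Type} [Fintype ι] [DecidableEq ι]

/-- entrywise map of a non-unital ring homomorphism -/
def mmap (ι : Type) [Fintype ι] {R Q : Type*} [NonUnitalRing R] [NonUnitalRing Q] (f : R →ₙ+* Q) :
    Matrix ι ι R →ₙ+* Matrix ι ι Q where
  toFun A := A.map f
  map_mul' _ _ := Matrix.map_mul
  map_zero' := Matrix.map_zero _ (map_zero f)
  map_add' A B := Matrix.map_add _ (map_add f) A B

omit [DecidableEq ι] in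
lemma mmap_apply {R Q : Type*} [NonUnitalRing R] [NonUnitalRing Q] (f : R →ₙ+* Q)
    (A : Matrix ι ι R) (i j : ι) : mmap ι f A i j = f (A i j) := rfl

omit [DecidableEq ι] in
lemma mmap_surj {R Q : Type*} [NonUnitalRing R] [NonUnitalRing Q] (f : R →ₙ+* Q)
    (hf : Function.Surjective f) : Function.Surjective (mmap ι f) := by
  intro B
  refine ⟨B.map (Function.surjInv hf), ?_⟩
  ext i j
  rw [mmap_apply, Matrix.map_apply, Function.surjInv_eq hf]

lemma card_mat (R : Type*) [Fintype R] :
    Fintype.card (Matrix ι ι R) = (Fintype.card R) ^ (Fintype.card ι * Fintype.card ι) := by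
  have : Fintype.card (Matrix ι ι R) = Fintype.card (ι → ι → R) := rfl
  rw [this, Fintype.card_fun, Fintype.card_fun, ← pow_mul]

/-- the kernel of the entrywise map -/
def kerEquiv {R Q : Type*} [NonUnitalRing R] [NonUnitalRing Q] (f : R →ₙ+* Q) :
    Matrix ι ι (f : R →+ Q).ker ≃ (mmap ι f : Matrix ι ι R →+ Matrix ι ι Q).ker where
  toFun Y := ⟨fun i j => (Y i j : R), by
    show mmap ι f _ = 0
    ext i j
    exact (Y i j).2⟩
  invFun X := fun i j => ⟨X.1 i j, by
    have h := X.2
    rw [AddMonoidHom.mem_ker] at h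
    exact congrFun (congrFun h i) j⟩
  left_inv _ := rfl
  right_inv _ := rfl

omit [DecidableEq ι] in
lemma kerEquiv_apply {R Q : Type*} [NonUnitalRing R] [NonUnitalRing Q] (f : R →ₙ+* Q)
    (Y : Matrix ι ι (f : R →+ Q).ker) (i j : ι) :
    (kerEquiv f Y : Matrix ι ι R) i j = (Y i j : R) := rfl

lemma card_ker_mmap {R Q : Type*} [NonUnitalRing R] [NonUnitalRing Q] [Finite R] (f : R →ₙ+* Q) :
    Nat.card (mmap ι f : Matrix ι ι R →+ Matrix ι ι Q).ker =
      (Nat.card (f : R →+ Q).ker) ^ (Fintype.card ι * Fintype.card ι) := by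
  classical
  have := Fintype.ofFinite (f : R →+ Q).ker
  rw [← Nat.card_congr (kerEquiv (ι := ι) f), Nat.card_eq_fintype_card, card_mat,
    Nat.card_eq_fintype_card]

end mmap

/-- the claim to be proved by induction -/
def Good (ι : Type) [Fintype ι] [DecidableEq ι] (R : Type*) [NonUnitalRing R] [Fintype R]
    (k : ℕ) : Prop :=
  2 • (∑ A : Matrix ι ι R, spow A k) = 0 ∧
    ((∑ A : Matrix ι ι R, spow A k) = 0 ∨ (Fintype.card ι = 2 ∧ Fintype.card R % 4 = 2))

section step

variable {ι : Type} [Fintype ι] [DecidableEq ι]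

lemma good_step {R Q : Type*} [NonUnitalRing R] [NonUnitalRing Q] [Fintype R] [Fintype Q]
    (f : R →ₙ+* Q) (hf : Function.Surjective f)
    (h0 : ∀ x y, f x = 0 → f y = 0 → x * y = 0) (hι : 2 ≤ Fintype.card ι) (k : ℕ) (hk : 1 ≤ k)
    (IH : Good ι Q k) : Good ι R k := by
  classical
  have := Fintype.ofFinite (f : R →+ Q).ker
  have := Fintype.ofFinite (mmap ι f : Matrix ι ι R →+ Matrix ι ι Q).ker
  have hs : ∑ x : (mmap ι f : Matrix ι ι R →+ Matrix ι ι Q).ker, (x : Matrix ι ι R) = 0 := by
    rw [← Equiv.sum_comp (kerEquiv (ι := ι) f)]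
    ext i j
    rw [Matrix.sum_apply]
    simp only [kerEquiv_apply, Matrix.zero_apply]
    have h1 := congrFun (congrFun (sum_matrix (ι := ι) (A := (f : R →+ Q).ker) hι) i) j
    rw [Matrix.sum_apply] at h1
    have h2 := congrArg (fun x : (f : R →+ Q).ker => (x : R)) h1
    simpa using h2
  obtain ⟨T, hT1, hT2⟩ := powsum_sqzero (mmap ι f) (mmap_surj f hf)
    (by
      intro X Y hX hY
      ext i j
      rw [Matrix.mul_apply, Matrix.zero_apply]
      refine Finset.sum_eq_zero fun l _ => ?_
      exact h0 _ _ (congrFun (congrFun hX i) l) (congrFun (congrFun hY l) j)) hs k hk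
  set c := Nat.card (f : R →+ Q).ker with hc
  have hC := card_ker_mmap (ι := ι) f
  rw [← hc] at hC
  rw [hC] at hT1
  have hker : ∀ X : Matrix ι ι R, mmap ι f X = 0 → c • X = 0 := by
    intro X hX
    ext i j
    have hx : X i j ∈ (f : R →+ Q).ker := congrFun (congrFun hX i) j
    have h1 : c • (⟨X i j, hx⟩ : (f : R →+ Q).ker) = 0 := card_nsmul_eq_zero'
    have h2 := congrArg (fun x : (f : R →+ Q).ker => (x : R)) h1
    simpa using h2
  have hker2 : ∀ X : Matrix ι ι R, mmap ι f X = 0 → ∀ N, c ∣ N → N • X = 0 := by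
    rintro X hX N ⟨t, rfl⟩
    rw [mul_comm, mul_smul, hker X hX, smul_zero]
  have hdvd : c ∣ c ^ (Fintype.card ι * Fintype.card ι) := by
    refine dvd_pow_self _ ?_
    have : 0 < Fintype.card ι := by omega
    positivity
  obtain ⟨IH1, IH2⟩ := IH
  rw [← hT2, ← map_nsmul] at IH1
  rw [← hT2] at IH2
  rw [Good, hT1]
  constructor
  · rw [smul_comm]
    exact hker2 _ IH1 _ hdvd
  · rcases IH2 with h | ⟨h1, h2⟩
    · left
      exact hker2 _ h _ hdvd
    · have hcard := card_fiber (f : R →+ Q) hf
      rw [← hc] at hcard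
      rcases Nat.even_or_odd c with ⟨s, hs⟩ | ⟨s, hs⟩
      · left
        have : c ^ (Fintype.card ι * Fintype.card ι) = (c * (c ^ 2 * s)) * 2 := by
          rw [h1]
          calc c ^ (2 * 2) = c * (c ^ 2 * c) := by ring
            _ = c * (c ^ 2 * (s + s)) := by rw [← hs]
            _ = c * (c ^ 2 * s) * 2 := by ring
        rw [this, mul_smul]
        exact hker2 _ IH1 _ (Dvd.intro _ rfl)
      · right
        refine ⟨h1, ?_⟩
        obtain ⟨b, hb⟩ : ∃ b, Fintype.card Q = 4 * b + 2 := ⟨Fintype.card Q / 4, by omega⟩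
        rw [hcard, hs, hb]
        have : (2 * s + 1) * (4 * b + 2) = 4 * (2 * s * b + b + s) + 2 := by ring
        omega

lemma simple_sum (hι : 2 ≤ Fintype.card ι) (D : Type*) [Field D] [Fintype D] (n : ℕ) [NeZero n]
    (k : ℕ) (hk : 1 ≤ k) :
    (∑ B : Matrix ι ι (Matrix (Fin n) (Fin n) D), spow B k) = 0 ∨
      (Fintype.card ι = 2 ∧ Fintype.card (Matrix (Fin n) (Fin n) D) = 2) := by
  classical
  by_cases h : Fintype.card (ι × Fin n) = 2 ∧ Fintype.card D = 2
  · right
    obtain ⟨h1, h2⟩ := h
    rw [Fintype.card_prod, Fintype.card_fin] at h1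
    have hn : n ≠ 0 := NeZero.ne n
    have hn1 : n = 1 := by
      rcases Nat.lt_or_ge 1 n with h3 | h3
      · nlinarith
      · omega
    subst hn1
    refine ⟨by omega, ?_⟩
    rw [card_mat, h2]
    simp
  · left
    have hcard : 2 ≤ Fintype.card (ι × Fin n) := by
      rw [Fintype.card_prod, Fintype.card_fin]
      have hn : 0 < n := NeZero.pos n
      nlinarith
    have h1 := field_sum (K := D) hcard (fun h2 h3 => h ⟨h2, h3⟩) k
    let e := Matrix.compRingEquiv ι (Fin n) D
    apply e.injective
    rw [map_zero, map_sum, ← h1, ← Equiv.sum_comp e.toEquiv]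
    refine Finset.sum_congr rfl fun B _ => ?_
    rw [← spow_eq_pow _ k hk]
    exact map_spow e.toNonUnitalRingHom B k

theorem good_all (hι : 2 ≤ Fintype.card ι) (k : ℕ) (hk : 1 ≤ k) :
    ∀ (N : ℕ) (R : Type u) [NonUnitalRing R] [Fintype R], Fintype.card R = N → Good ι R k := by
  classical
  intro N
  induction N using Nat.strong_induction_on with
  | _ N ih =>
  intro R _ _ hR
  by_cases hsub : Subsingleton R
  · exact ⟨Subsingleton.elim _ _, Or.inl (Subsingleton.elim _ _)⟩
  have hnt : Nontrivial R := not_subsingleton_iff_nontrivial.mp hsub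
  by_cases H : ∀ I : TwoSidedIdeal R, (∀ x ∈ I, ∀ y ∈ I, x * y = 0) → ∀ x ∈ I, x = 0
  · obtain ⟨m, D, n, hD, hfin, hn, g, hg1, hg2⟩ := wedder R H
    have hcomp : ∀ i, mmap ι (g i) (∑ A : Matrix ι ι R, spow A k) = 0 ∨
        (Fintype.card ι = 2 ∧ Fintype.card R % 4 = 2 ∧
          2 • mmap ι (g i) (∑ A : Matrix ι ι R, spow A k) = 0) := by
      intro i
      have := Fintype.ofFinite (D i)
      have hsum : mmap ι (g i) (∑ A : Matrix ι ι R, spow A k) =
          ∑ A : Matrix ι ι R, spow (mmap ι (g i) A) k := by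
        rw [map_sum]
        exact Finset.sum_congr rfl fun A _ => map_spow _ A k
      rcases hg1 i with h | h
      · have h1 := sum_fiber (mmap ι (g i) : Matrix ι ι R →+
            Matrix ι ι (Matrix (Fin (n i)) (Fin (n i)) (D i))) (mmap_surj (g i) h)
          (fun B => spow B k)
        have h2 : mmap ι (g i) (∑ A : Matrix ι ι R, spow A k) =
          Nat.card (mmap ι (g i) : Matrix ι ι R →+ Matrix ι ι (Matrix (Fin (n i)) (Fin (n i)) (D i))).ker
            • ∑ B : Matrix ι ι (Matrix (Fin (n i)) (Fin (n i)) (D i)), spow B k := by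
          rw [hsum]
          exact h1
        rcases simple_sum hι (D i) (n i) k hk with h3 | ⟨h3, h4⟩
        · left
          rw [h2, h3, smul_zero]
        · have h5 : ∀ X : Matrix ι ι (Matrix (Fin (n i)) (Fin (n i)) (D i)), 2 • X = 0 := by
            intro X
            refine Matrix.ext fun a b => ?_
            rw [Matrix.smul_apply, Matrix.zero_apply]
            have : Fintype.card (Matrix (Fin (n i)) (Fin (n i)) (D i)) • (X a b) = 0 :=
              card_nsmul_eq_zero
            rwa [h4] at this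
          have hcard := card_fiber (g i : R →+ Matrix (Fin (n i)) (Fin (n i)) (D i)) h
          rw [h4] at hcard
          by_cases h6 : Fintype.card R % 4 = 2
          · right
            exact ⟨h3, h6, h5 _⟩
          · left
            rw [h2, card_ker_mmap]
            set c := Nat.card (g i : R →+ Matrix (Fin (n i)) (Fin (n i)) (D i)).ker with hc
            obtain ⟨s, hs⟩ : ∃ s, c = s * 2 := ⟨c / 2, by omega⟩
            rw [h3]
            have : c ^ (2 * 2) = (c ^ 3 * s) * 2 := by
              calc c ^ (2 * 2) = c ^ 3 * c := by ring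
                _ = c ^ 3 * (s * 2) := by rw [← hs]
                _ = (c ^ 3 * s) * 2 := by ring
            rw [this, mul_smul, h5, smul_zero]
      · left
        rw [hsum]
        refine Finset.sum_eq_zero fun A _ => ?_
        have : mmap ι (g i) A = 0 := by
          refine Matrix.ext fun a b => ?_
          exact h _
        rw [this, spow_zero']
    have hzero : ∀ X : Matrix ι ι R, (∀ i, mmap ι (g i) X = 0) → X = 0 := by
      intro X hX
      ext a b
      apply hg2
      intro i
      exact congrFun (congrFun (hX i) a) b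
    constructor
    · apply hzero
      intro i
      rw [map_nsmul]
      rcases hcomp i with h | ⟨_, _, h⟩
      · rw [h, smul_zero]
      · exact h
    · by_cases h : Fintype.card ι = 2 ∧ Fintype.card R % 4 = 2
      · exact Or.inr h
      · left
        apply hzero
        intro i
        rcases hcomp i with h1 | ⟨h1, h2, _⟩
        · exact h1
        · exact absurd ⟨h1, h2⟩ h
  · push Not at H
    obtain ⟨I, hI, x, hx, hx0⟩ := H
    let f : R →ₙ+* I.ringCon.Quotient :=
      { toFun := fun x => (x : I.ringCon.Quotient)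
        map_mul' := fun _ _ => rfl
        map_zero' := rfl
        map_add' := fun _ _ => rfl }
    have hf : Function.Surjective f := fun q => Quotient.inductionOn' q fun x => ⟨x, rfl⟩
    have := Finite.of_surjective f hf
    have := Fintype.ofFinite I.ringCon.Quotient
    have hker : ∀ y, f y = 0 → y ∈ I := by
      intro y hy
      have : I.ringCon y 0 := (RingCon.eq _).mp hy
      exact (TwoSidedIdeal.mem_iff _ _).mpr this
    have hker' : ∀ y ∈ I, f y = 0 := by
      intro y hy
      exact (RingCon.eq _).mpr ((TwoSidedIdeal.mem_iff _ _).mp hy)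
    refine good_step f hf (fun a b ha hb => hI a (hker a ha) b (hker b hb)) hι k hk ?_
    refine ih (Fintype.card I.ringCon.Quotient) ?_ I.ringCon.Quotient rfl
    have hcard := card_fiber (f : R →+ I.ringCon.Quotient) hf
    have h2 : 1 < Nat.card (f : R →+ I.ringCon.Quotient).ker := by
      have := Fintype.ofFinite (f : R →+ I.ringCon.Quotient).ker
      rw [Nat.card_eq_fintype_card]
      apply Fintype.one_lt_card_iff.mpr
      exact ⟨⟨x, hker' x hx⟩, 0, fun h => hx0 (congrArg Subtype.val h)⟩
    have h3 : 0 < Fintype.card I.ringCon.Quotient := Fintype.card_pos_iff.mpr ⟨0⟩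
    rw [← hR, hcard]
    nlinarith

end step

end Pool.Agent.R659
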